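import Pool.Agent.H49.RL.Cn3

/-!
MP_ba3460_lc, linear exponent, sections 2 and 3: parameters (helper82).
-/

set_option autoImplicit false
set_option linter.unusedSectionVars false

open Finset

namespace Pool.Agent.H82.RL

open Pool.Agent.H49.RG (nbr cell pts)
open Pool.Agent.H49.RL (Pl)

variable {ν ι : Type} [Fintype ν] [DecidableEq ν] {L g : ℕ}

/-- The rate of the families over a cell with `u` fixed rows. -/
noncomputable def rho (c : H49.RL.Num) (L u : ℕ) (B : ℝ) : ℝ := (1 / c.p) ^ (L - u) * B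

/-- The threshold per prescribed letter. -/
noncomputable def tht (c : H49.RL.Num) (L u : ℕ) (B l : ℝ) : ℝ := l / rho c L u B

/-- `x` is fine: it violates at no nonempty set of rows outside `U`. -/
def Fn (P : Pl ν L) (c : H49.RL.Num) (B l : ℝ) (U : Finset (Fin L)) (O : Finset ι) (y : ι → Fin g → ν)
    (x : Fin L → ν) : Prop :=
  NoVio P.G (1 / c.p) O y (1 / c.e0) (tht c L U.card B l) Uᶜ x

open Classical in
/-- `M ^ (|A^c| |T|)` times the proportion of the `o` with `y o = q` on `A` and `y o j`, `j ∉ A`,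
adjacent to `z` in the rows `T`. -/
noncomputable def Vf (P : Pl ν L) (c : H49.RL.Num) (O : Finset ι) (y : ι → Fin g → ν)
    (T : Finset (Fin L)) (A : Finset (Fin g)) (q : Fin g → ν) (z : Fin L → ν) : ℝ :=
  (1 / c.p) ^ ((g - A.card) * T.card) *
    ((O.filter (fun o => (∀ j ∈ A, y o j = q j) ∧
      ∀ i ∈ T, ∀ j, j ∉ A → P.G.Adj (z i) (y o j))).card : ℝ) / O.card

/-- The setting of sections 2 and 3. -/
structure Ctx (P : Pl ν L) (c : H49.RL.Num) (R : ℕ) (B l : ℝ) (U : Finset (Fin L)) (α : Fin L → ν)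
    (Φ : Finset ν) (O : Finset ι) (y : ι → Fin g → ν) : Prop where
  ok : P.OK c
  nk : c.OK R L
  tk : c.TOK L B l
  phi : Φ ⊆ P.Out
  phic : Φ.card ≤ 3 * L
  val : P.Val U α Φ
  gw : g ≤ c.w
  fa : Fam P U α Φ O y (rho c L U.card B)

/-! ### Numbers -/

section
variable {c : H49.RL.Num} {R : ℕ} {B l : ℝ}

lemma M_ge (hc : c.OK R L) : 1 ≤ 1 / c.p := by
  rw [le_div_iff₀ hc.p_pos, one_mul]; exact hc.p_le

lemma w_le_K (hc : c.OK R L) : c.w ≤ c.K1 := by have := hc.wK; omega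

lemma w_pos (hc : c.OK R L) : 1 ≤ c.w := by
  rw [hc.w_eq]
  exact Nat.mul_pos hc.R_pos hc.f_pos

lemma K_pos (hc : c.OK R L) : 1 ≤ c.K1 := (w_pos hc).trans (w_le_K hc)

lemma t0_le_K (hc : c.OK R L) : c.t0 ≤ c.K1 := by
  have h1 := hc.DK
  have h2 : 1 ≤ c.D * c.μ := Nat.mul_pos (by have := hc.D_ge; omega) hc.μ_pos
  calc c.t0 = 1 * c.t0 := (one_mul _).symm
    _ ≤ c.D * c.μ * c.t0 := Nat.mul_le_mul_right _ h2
    _ ≤ c.K1 := h1

lemma K_le_L (hc : c.OK R L) : 8 * c.K1 ≤ L := hc.K_le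

lemma e0_ge' (hc : c.OK R L) : (2 : ℝ) ^ (L * c.w + 3) ≤ c.e0 := by
  have := hc.e0_ge
  exact_mod_cast this

lemma e0_one (hc : c.OK R L) : 1 ≤ c.e0 := by
  refine le_trans ?_ (e0_ge' hc)
  exact one_le_pow₀ (by norm_num)

/-- All constants are at most `h`. -/
lemma two_le_h (hc : c.OK R L) : (2 : ℝ) ^ (100 * (c.K1 * c.w * L + L * L)) ≤ c.h := by
  have h1 := hc.FQ
  have h2 : (1 : ℝ) ≤ c.e0 ^ (2 * c.K1) := one_le_pow₀ (e0_one hc)
  have h3 : (0 : ℝ) < 2 ^ (100 * (c.K1 * c.w * L + L * L)) := by positivity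
  nlinarith

lemma l_pos (ht : c.TOK L B l) : 0 < l := by linarith [ht.l_ge]

lemma Kw_one (hc : c.OK R L) : (1 : ℝ) ≤ 2 * (c.K1 : ℝ) * c.w := by
  have h1 : (1 : ℝ) ≤ c.K1 := by exact_mod_cast K_pos hc
  have h2 : (1 : ℝ) ≤ c.w := by exact_mod_cast w_pos hc
  nlinarith

lemma l_le_B (hc : c.OK R L) (ht : c.TOK L B l) : l ≤ B := by
  have h1 := ht.mB
  have h2 := Kw_one hc
  have h3 := l_pos ht
  nlinarith

lemma B_pos (hc : c.OK R L) (ht : c.TOK L B l) : 0 < B := (l_pos ht).trans_le (l_le_B hc ht)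

lemma bl_ge (hc : c.OK R L) (ht : c.TOK L B l) : 1 ≤ B / l := by
  rw [le_div_iff₀ (l_pos ht), one_mul]
  exact l_le_B hc ht

/-- The factor per letter pays for `h ^ 100`. -/
lemma bl_pay (hc : c.OK R L) (ht : c.TOK L B l) : c.h ^ 100 ≤ (B / l) ^ c.μ := by
  have h1 := ht.pay
  have h2 := Kw_one hc
  have h3 := l_pos ht
  rw [div_pow, le_div_iff₀ (pow_pos h3 _)]
  refine le_trans ?_ h1
  refine mul_le_mul_of_nonneg_left ?_ (by have := hc.h_ge; positivity)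
  refine pow_le_pow_left₀ h3.le ?_ _
  nlinarith

lemma rho_pos (hc : c.OK R L) (ht : c.TOK L B l) (u : ℕ) : 0 < rho c L u B := by
  unfold rho
  have h1 := B_pos hc ht
  have h2 := hc.p_pos
  positivity

lemma tht_pos (hc : c.OK R L) (ht : c.TOK L B l) (u : ℕ) : 0 < tht c L u B l :=
  div_pos (l_pos ht) (rho_pos hc ht u)

/-- The critical inequality. -/
lemma tht_cr (hc : c.OK R L) (ht : c.TOK L B l) (u t : ℕ) (h : t ≤ L - u) :
    B / l * (1 / c.p) ^ t * tht c L u B l ≤ 1 := by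
  have h1 := B_pos hc ht
  have h2 := l_pos ht
  have hM := M_ge hc
  have hM0 : 0 < 1 / c.p := by linarith
  unfold tht rho
  have e : B / l * (1 / c.p) ^ t * (l / ((1 / c.p) ^ (L - u) * B)) =
      (1 / c.p) ^ t / (1 / c.p) ^ (L - u) := by
    field_simp
  rw [e, div_le_one (by positivity)]
  exact pow_le_pow_right₀ hM h

/-- The constants of the claim. -/
lemma N1_le (hc : c.OK R L) (hg : g ≤ c.w) :
    (64 * 2 ^ L : ℝ) ^ c.t0 * (3 ^ (L * g) * (1 + 2 * c.K1 * g) ^ g / (1 / c.e0)) ^ (2 * c.K1) ≤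
      c.h := by
  have he := e0_one hc
  have hK := K_pos hc
  have h8 := K_le_L hc
  have hw := w_le_K hc
  have ht0 := t0_le_K hc
  have hL := hc.L_pos
  have h1 : (3 : ℝ) ^ (L * g) * (1 + 2 * c.K1 * g) ^ g / (1 / c.e0) =
      3 ^ (L * g) * (1 + 2 * c.K1 * g) ^ g * c.e0 := by
    rw [div_div_eq_mul_div, div_one]
  have h2 : (3 : ℝ) ^ (L * g) ≤ 2 ^ (2 * (L * c.w)) := by
    calc (3 : ℝ) ^ (L * g) ≤ 4 ^ (L * g) := pow_le_pow_left₀ (by norm_num) (by norm_num) _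
      _ = 2 ^ (2 * (L * g)) := by rw [show (4 : ℝ) = 2 ^ 2 by norm_num, ← pow_mul]
      _ ≤ _ := pow_le_pow_right₀ (by norm_num) (by gcongr)
  have h3 : (1 + 2 * (c.K1 : ℝ) * g) ≤ 2 ^ L := by
    have e1 : 1 + 2 * c.K1 * g ≤ 2 ^ L := by
      have h5 : 8 * c.K1 < 2 ^ (4 * c.K1) := by
        have : ∀ k : ℕ, 1 ≤ k → 8 * k < 2 ^ (4 * k) := by
          intro k hk
          induction k, hk using Nat.le_induction with
          | base => norm_num
          | succ k hk ih =>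
            rw [Nat.mul_succ 4 k, pow_add]
            have : 1 ≤ 2 ^ (4 * k) := Nat.one_le_two_pow
            omega
        exact this _ hK
      have h6 : 2 ^ (4 * c.K1) * 2 ^ (4 * c.K1) ≤ 2 ^ L := by
        rw [← pow_add]
        exact Nat.pow_le_pow_right (by norm_num) (by omega)
      have h7 : 1 + 2 * c.K1 * g ≤ (8 * c.K1) * (8 * c.K1) := by
        have : g ≤ c.K1 := hg.trans hw
        nlinarith
      exact h7.trans ((Nat.mul_le_mul h5.le h5.le).trans h6)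
    exact_mod_cast e1
  have h4 : (1 + 2 * (c.K1 : ℝ) * g) ^ g ≤ 2 ^ (L * c.w) := by
    calc (1 + 2 * (c.K1 : ℝ) * g) ^ g ≤ (2 ^ L) ^ g := pow_le_pow_left₀ (by positivity) h3 _
      _ = 2 ^ (L * g) := by rw [pow_mul]
      _ ≤ _ := pow_le_pow_right₀ (by norm_num) (by gcongr)
  have h5 : (64 * 2 ^ L : ℝ) ^ c.t0 ≤ 2 ^ (7 * (L * L)) := by
    calc (64 * 2 ^ L : ℝ) ^ c.t0 = 2 ^ ((6 + L) * c.t0) := by
          rw [pow_mul, pow_add]; norm_num
      _ ≤ _ := by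
          refine pow_le_pow_right₀ (by norm_num) ?_
          have : c.t0 ≤ L := by omega
          nlinarith
  rw [h1]
  calc (64 * 2 ^ L : ℝ) ^ c.t0 * (3 ^ (L * g) * (1 + 2 * c.K1 * g) ^ g * c.e0) ^ (2 * c.K1)
      ≤ 2 ^ (7 * (L * L)) * (2 ^ (2 * (L * c.w)) * 2 ^ (L * c.w) * c.e0) ^ (2 * c.K1) := by
        gcongr
    _ = 2 ^ (7 * (L * L) + (2 * (L * c.w) + L * c.w) * (2 * c.K1)) * c.e0 ^ (2 * c.K1) := by
        rw [mul_pow, ← pow_add, ← pow_mul, pow_add]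
        ring
    _ ≤ 2 ^ (100 * (c.K1 * c.w * L + L * L)) * c.e0 ^ (2 * c.K1) := by
        refine mul_le_mul_of_nonneg_right (pow_le_pow_right₀ (by norm_num) ?_) (by positivity)
        nlinarith [Nat.zero_le (c.K1 * c.w * L), Nat.zero_le (L * L)]
    _ ≤ c.h := hc.FQ

lemma M_t0 (hc : c.OK R L) (t : ℕ) (ht : t ≤ c.t0) : (1 / c.p) ^ t ≤ c.h :=
  (pow_le_pow_right₀ (M_ge hc) ht).trans hc.pt0

lemma N2_le {P : Pl ν L} (h : P.OK c) (hc : c.OK R L) :
    (P.Out.card : ℝ) * (1 / c.p) ^ c.t0 ≤ c.h ^ 451 := by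
  have h1 : (P.Out.card : ℝ) ≤ c.h ^ 450 := by
    refine le_trans ?_ hc.No_le
    exact_mod_cast h.out_card
  have h2 := hc.pt0
  have h3 := hc.h_ge
  calc (P.Out.card : ℝ) * (1 / c.p) ^ c.t0 ≤ c.h ^ 450 * c.h := by
        refine mul_le_mul h1 h2 ?_ (by positivity)
        have := hc.p_pos
        positivity
    _ = c.h ^ 451 := by ring

end

/-- The spread in terms of the threshold. -/
lemma Ctx.hsp {P : Pl ν L} {c : H49.RL.Num} {R : ℕ} {B l : ℝ} {U : Finset (Fin L)} {α : Fin L → ν}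
    {Φ : Finset ν} {O : Finset ι} {y : ι → Fin g → ν} (X : Ctx P c R B l U α Φ O y)
    (A : Finset (Fin g)) (q : Fin g → ν) :
    ((fam O y A q).card : ℝ) ≤ (1 / rho c L U.card B) ^ A.card * O.card := by
  have h1 := X.fa.spr A q
  have h2 := rho_pos X.nk X.tk U.card
  rw [one_div, inv_pow, inv_mul_eq_div, le_div_iff₀ (pow_pos h2 _)]
  exact h1

lemma Ctx.hsp' {P : Pl ν L} {c : H49.RL.Num} {R : ℕ} {B l : ℝ} {U : Finset (Fin L)} {α : Fin L → ν}
    {Φ : Finset ν} {O : Finset ι} {y : ι → Fin g → ν} (X : Ctx P c R B l U α Φ O y)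
    (A : Finset (Fin g)) (q : Fin g → ν) :
    ((fam O y A q).card : ℝ) ≤ tht c L U.card B l ^ A.card * O.card := by
  refine (X.hsp A q).trans (mul_le_mul_of_nonneg_right ?_ (Nat.cast_nonneg _))
  have h2 := rho_pos X.nk X.tk U.card
  refine pow_le_pow_left₀ (by positivity) ?_ _
  unfold tht
  exact div_le_div_of_nonneg_right X.tk.l_ge h2.le

end Pool.Agent.H82.RL
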