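/-
ROW Fne (about 100 lines). Fourier expansion at a fine point x, M = 1/p.
PROOF. Vf(Uᶜ, A, q) = (sum_{o in fam O y A q} prod_{e in Uᶜ ×ˢ Aᶜ} (1 + HH G M (x e.1) (y o e.2))) / #O, because 1 + HH = M if adjacent, 0 otherwise, and #(Uᶜ ×ˢ Aᶜ) = (g - #A) #Uᶜ. Expand: = sum_{E in (Uᶜ ×ˢ Aᶜ).powerset} ZZ E A q x (Finset.prod_one_add).
 E = ∅: #fam / #O <= th^#A (spread and l >= 1: Par.lean, as in Ctx.hsp'), = 1 for A = ∅. E nonempty: rws E nonempty, in Uᶜ, no violation (Fn): |ZZ| <= (1/e0) th^#A. Number of E: at most 2^(L g) <= 2^(L w), and 2^(L w) / e0 <= 1/8 (e0_ge').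
-/
import Pool.Agent.H82.RL.Par

set_option autoImplicit false
set_option linter.unusedSectionVars false

open Finset

namespace Pool.Agent.H82.RL

open Pool.Agent.H49.RG (nbr cell pts)
open Pool.Agent.H49.RL (Pl)

variable {ν ι : Type} [Fintype ν] [DecidableEq ν] {L g : ℕ}

/-- Fourier expansion. -/
lemma Fne_exp {P : Pl ν L} {c : H49.RL.Num} (U : Finset (Fin L)) (O : Finset ι)
    (y : ι → Fin g → ν) (x : Fin L → ν) (A : Finset (Fin g)) (q : Fin g → ν) :
    Vf P c O y Uᶜ A q x = ∑ E ∈ (Uᶜ ×ˢ Aᶜ).powerset, ZZ P.G (1 / c.p) O y E A q x := by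
  classical
  unfold ZZ
  rw [← sum_div, sum_comm]
  have h1 : ∀ o ∈ fam O y A q,
      ∑ E ∈ (Uᶜ ×ˢ Aᶜ).powerset, ∏ e ∈ E, HH P.G (1 / c.p) (x e.1) (y o e.2) =
      if (∀ e ∈ Uᶜ ×ˢ Aᶜ, P.G.Adj (x e.1) (y o e.2)) then
        (1 / c.p) ^ ((g - A.card) * (Uᶜ).card) else 0 := by
    intro o _
    rw [← prod_one_add]
    have h2 : ∀ e ∈ Uᶜ ×ˢ Aᶜ, 1 + HH P.G (1 / c.p) (x e.1) (y o e.2) =
        if P.G.Adj (x e.1) (y o e.2) then (1 / c.p) else 0 := by
      intro e _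
      unfold HH
      ring
    rw [prod_congr rfl h2, prod_ite_zero, prod_const, card_product, card_compl A,
      Fintype.card_fin, mul_comm (Uᶜ).card]
    split_ifs <;> rfl
  rw [sum_congr rfl h1, ← sum_filter, sum_const, nsmul_eq_mul]
  unfold Vf
  rw [mul_comm]
  congr 3
  · refine congrArg card ?_
    ext o
    simp only [mem_filter, mem_fam, mem_product, mem_compl]
    constructor
    · rintro ⟨h2, h3, h4⟩
      exact ⟨⟨h2, h3⟩, fun e he => h4 e.1 he.1 e.2 he.2⟩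
    · rintro ⟨⟨h2, h3⟩, h4⟩
      exact ⟨h2, h3, fun i hi j hj => h4 (i, j) ⟨hi, hj⟩⟩

/-- The nonempty components are small. -/
lemma Fne_rest {P : Pl ν L} {c : H49.RL.Num} {R : ℕ} (hc : c.OK R L) {B l : ℝ}
    (ht : c.TOK L B l) (U : Finset (Fin L)) (hg : g ≤ c.w)
    (O : Finset ι) (y : ι → Fin g → ν)
    (x : Fin L → ν) (hx : Fn P c B l U O y x) (A : Finset (Fin g)) (q : Fin g → ν) :
    |Vf P c O y Uᶜ A q x - ((fam O y A q).card : ℝ) / O.card| ≤
      1 / 8 * tht c L U.card B l ^ A.card := by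
  classical
  set th := tht c L U.card B l with hth
  have hth0 : 0 < th := tht_pos hc ht _
  have he0 : 0 < c.e0 := by linarith [e0_one hc]
  have h0 : ZZ P.G (1 / c.p) O y ∅ A q x = ((fam O y A q).card : ℝ) / O.card := by
    unfold ZZ
    simp
  rw [Fne_exp, ← h0]
  have hmem : (∅ : Finset (Fin L × Fin g)) ∈ (Uᶜ ×ˢ Aᶜ).powerset :=
    mem_powerset.2 (empty_subset _)
  rw [← sum_erase_add _ _ hmem, add_sub_cancel_right]
  refine (abs_sum_le_sum_abs _ _).trans ?_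
  have h1 : ∀ E ∈ ((Uᶜ ×ˢ Aᶜ).powerset.erase ∅), |ZZ P.G (1 / c.p) O y E A q x| ≤
      1 / c.e0 * th ^ A.card := by
    intro E hE
    rw [mem_erase, mem_powerset] at hE
    obtain ⟨hE1, hE2⟩ := hE
    obtain ⟨e, he⟩ := nonempty_iff_ne_empty.2 hE1
    have h2 := hx (rws E) (by
      intro i hi
      obtain ⟨j, hj⟩ := mem_rws.1 hi
      exact (mem_product.1 (hE2 hj)).1) ⟨e.1, mem_rws.2 ⟨e.2, he⟩⟩
    by_contra hcon
    push Not at hcon
    exact h2 ⟨A, q, E, rfl, fun e' he' => mem_compl.1 (mem_product.1 (hE2 he')).2, hcon⟩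
  refine (sum_le_sum h1).trans ?_
  rw [sum_const, nsmul_eq_mul]
  have h3 : ((((Uᶜ ×ˢ Aᶜ).powerset.erase ∅).card : ℕ) : ℝ) ≤ 2 ^ (L * c.w) := by
    have h4 : ((Uᶜ ×ˢ Aᶜ).powerset.erase ∅).card ≤ 2 ^ (L * c.w) := by
      refine (card_le_card (erase_subset _ _)).trans ?_
      rw [card_powerset, card_product]
      refine Nat.pow_le_pow_right (by norm_num) (Nat.mul_le_mul ?_ ?_)
      · have := card_le_univ (Uᶜ : Finset (Fin L))
        rwa [Fintype.card_fin] at this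
      · have := card_le_univ (Aᶜ : Finset (Fin g))
        rw [Fintype.card_fin] at this
        exact this.trans hg
    exact_mod_cast h4
  have h5 : (2 : ℝ) ^ (L * c.w) * (1 / c.e0) ≤ 1 / 8 := by
    have h6 := e0_ge' hc
    rw [pow_add] at h6
    rw [mul_one_div, div_le_div_iff₀ he0 (by norm_num)]
    linarith
  calc ((((Uᶜ ×ˢ Aᶜ).powerset.erase ∅).card : ℕ) : ℝ) * (1 / c.e0 * th ^ A.card)
      ≤ 2 ^ (L * c.w) * (1 / c.e0 * th ^ A.card) :=
        mul_le_mul_of_nonneg_right h3 (by positivity)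
    _ = 2 ^ (L * c.w) * (1 / c.e0) * th ^ A.card := by ring
    _ ≤ _ := mul_le_mul_of_nonneg_right h5 (by positivity)

theorem fine_up {P : Pl ν L} {c : H49.RL.Num} {R : ℕ} (hc : c.OK R L) {B l : ℝ}
    (ht : c.TOK L B l) (U : Finset (Fin L)) (α : Fin L → ν) (Φ : Finset ν) (hg : g ≤ c.w)
    (O : Finset ι) (y : ι → Fin g → ν) (hy : Fam P U α Φ O y (rho c L U.card B))
    (x : Fin L → ν) (hx : Fn P c B l U O y x) (A : Finset (Fin g)) (q : Fin g → ν) :
    Vf P c O y Uᶜ A q x ≤ 2 * tht c L U.card B l ^ A.card := by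
  have h1 := Fne_rest hc ht U hg O y x hx A q
  have hth0 : 0 < tht c L U.card B l := tht_pos hc ht _
  have hO : (0 : ℝ) < O.card := by exact_mod_cast hy.ne.card_pos
  have hr := rho_pos hc ht U.card
  have h2 : ((fam O y A q).card : ℝ) / O.card ≤ tht c L U.card B l ^ A.card := by
    rw [div_le_iff₀ hO]
    have h3 := hy.spr A q
    have h4 : ((fam O y A q).card : ℝ) ≤ (1 / rho c L U.card B) ^ A.card * O.card := by
      rw [one_div, inv_pow, inv_mul_eq_div, le_div_iff₀ (pow_pos hr _)]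
      exact h3
    refine h4.trans (mul_le_mul_of_nonneg_right ?_ (Nat.cast_nonneg _))
    refine pow_le_pow_left₀ (by positivity) ?_ _
    unfold tht
    exact div_le_div_of_nonneg_right ht.l_ge hr.le
  have h5 := (abs_le.1 h1).2
  have h6 : 0 < tht c L U.card B l ^ A.card := pow_pos hth0 _
  linarith

theorem fine_one {P : Pl ν L} {c : H49.RL.Num} {R : ℕ} (hc : c.OK R L) {B l : ℝ}
    (ht : c.TOK L B l) (U : Finset (Fin L)) (α : Fin L → ν) (Φ : Finset ν) (hg : g ≤ c.w)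
    (O : Finset ι) (y : ι → Fin g → ν) (hy : Fam P U α Φ O y (rho c L U.card B))
    (x : Fin L → ν) (hx : Fn P c B l U O y x) (q : Fin g → ν) :
    3 / 4 ≤ Vf P c O y Uᶜ ∅ q x ∧ Vf P c O y Uᶜ ∅ q x ≤ 5 / 4 := by
  have h1 := Fne_rest hc ht U hg O y x hx ∅ q
  have hO : (0 : ℝ) < O.card := by exact_mod_cast hy.ne.card_pos
  rw [fam_empty, div_self hO.ne', card_empty, pow_zero, mul_one] at h1
  obtain ⟨h2, h3⟩ := abs_le.1 h1
  constructor <;> linarith

end Pool.Agent.H82.RL
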