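/-
ROW Vb (about 60 lines). (V): the absolute version of a component.
PROOF. |HH| <= 2 + HH (abs_HH_le'), so prod |HH| <= prod (2 + HH) = sum_{E' in E.powerset} 2^(#(E \ E')) prod_{E'} HH (Finset.prod_add). Exchange the sums: the sum over fam is
 #O * sum_{E'} 2^.. ZZ E' A q x. For E' nonempty: rws E' nonempty, contained in Pr, no violation: ZZ <= |ZZ| <= η th^|A| <= th^|A|. For E' empty: ZZ = #fam/#O <= th^|A| (hsp).
 Total: #O th^|A| sum_{E'} 2^(#(E \ E')) = #O th^|A| 3^#E (prod_add with 1 and 2).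
-/
import Pool.Agent.H82.RL.Defs

set_option autoImplicit false
set_option linter.unusedSectionVars false

open Finset

namespace Pool.Agent.H82.RL

variable {ν ι : Type} [Fintype ν] [DecidableEq ν] {L g : ℕ}

theorem V_bound {G : SimpleGraph ν} {M η th : ℝ} (hM : 1 ≤ M) (hη : η ≤ 1) (hth : 0 ≤ th)
    {O : Finset ι} {y : ι → Fin g → ν} (hO : O.Nonempty)
    (hsp : ∀ (A : Finset (Fin g)) (q : Fin g → ν), ((fam O y A q).card : ℝ) ≤ th ^ A.card * O.card)
    {x : Fin L → ν} {Pr : Finset (Fin L)} (hx : NoVio G M O y η th Pr x)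
    (A : Finset (Fin g)) (q : Fin g → ν) (E : Finset (Fin L × Fin g))
    (hE : ∀ e ∈ E, e.1 ∈ Pr) (hEA : ∀ e ∈ E, e.2 ∉ A) :
    ∑ o ∈ fam O y A q, ∏ e ∈ E, |HH G M (x e.1) (y o e.2)| ≤ 3 ^ E.card * th ^ A.card * O.card := by
  classical
  have hOc : (0 : ℝ) < O.card := by exact_mod_cast hO.card_pos
  have hEE : ∀ E' ∈ E.powerset, ∑ o ∈ fam O y A q, ∏ e ∈ E', HH G M (x e.1) (y o e.2) ≤
      th ^ A.card * O.card := by
    intro E' hE'
    have hsub : E' ⊆ E := mem_powerset.1 hE'
    rcases E'.eq_empty_or_nonempty with h | h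
    · subst h
      simpa using hsp A q
    · have hT : rws E' ⊆ Pr := by
        intro l hl
        obtain ⟨j, hj⟩ := mem_rws.1 hl
        exact hE _ (hsub hj)
      have hne : (rws E').Nonempty := by
        obtain ⟨e, he⟩ := h
        exact ⟨e.1, mem_rws.2 ⟨e.2, he⟩⟩
      have hnv := hx (rws E') hT hne
      have hZ : |ZZ G M O y E' A q x| ≤ η * th ^ A.card := by
        by_contra hcon
        exact hnv ⟨A, q, E', rfl, fun e he => hEA e (hsub he), not_le.1 hcon⟩
      have hZ2 : ZZ G M O y E' A q x ≤ th ^ A.card := by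
        refine (le_abs_self _).trans (hZ.trans ?_)
        have := pow_nonneg hth A.card
        nlinarith
      unfold ZZ at hZ2
      rwa [div_le_iff₀ hOc] at hZ2
  calc ∑ o ∈ fam O y A q, ∏ e ∈ E, |HH G M (x e.1) (y o e.2)|
      ≤ ∑ o ∈ fam O y A q, ∏ e ∈ E, (HH G M (x e.1) (y o e.2) + 2) := by
        refine sum_le_sum fun o _ => prod_le_prod (fun e _ => abs_nonneg _) fun e _ => ?_
        rw [add_comm]
        exact abs_HH_le' hM _ _
    _ = ∑ E' ∈ E.powerset, (∑ o ∈ fam O y A q, ∏ e ∈ E', HH G M (x e.1) (y o e.2)) *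
          ∏ _e ∈ E \ E', (2 : ℝ) := by
        simp_rw [prod_add, sum_mul]
        exact sum_comm
    _ ≤ ∑ E' ∈ E.powerset, (th ^ A.card * O.card) * ((∏ _e ∈ E', (1 : ℝ)) *
          ∏ _e ∈ E \ E', (2 : ℝ)) := by
        refine sum_le_sum fun E' hE' => ?_
        rw [prod_const_one, one_mul]
        exact mul_le_mul_of_nonneg_right (hEE E' hE') (prod_nonneg fun _ _ => by norm_num)
    _ = 3 ^ E.card * th ^ A.card * O.card := by
        rw [← mul_sum, ← prod_add, prod_const]
        norm_num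
        ring

end Pool.Agent.H82.RL
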