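/-
ROW Cpy (about 120 lines). One copy, the earlier letters being fixed (the set B).
PROOF. Write f o = prod_{e in E} |HH ..|. For o in fam O y (A u S) om let N_o = {j in N | y o j in B}. Group by A' = N_o: the left side is <= sum_{A' in N.powerset} La^|A'| sum_{o in fam .. , y o j in B on A'} f o.
 For fixed A' the inner sum is <= sum over q' in Fintype.piFinset (fun j => if j in A' then B else {om j}) of sum_{o in fam O y (A u S u A') q'} f o: at most #B^|A'| terms.
 (om may be taken on A u S: q' = om there since A' is disjoint from A u S.)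
 For each: split E = E1 u E2, E1 = {e in E | e.2 in S u A'} : |HH| <= M, #E1 <= #Pr * (|S| + |A'|); E2 avoids A u S u A': V_bound: <= 3^#E th^(|A|+|S|+|A'|) #O.
 So the total is <= #O 3^#E th^|A| (M^#Pr th)^|S| sum_{A'} (#B La M^#Pr th)^|A'| <= ... * (1 + #B)^g   since La M^#Pr th <= 1 and sum_{A' in N.powerset} b^|A'| = (1+b)^#N (Finset.prod_one_add / sum_pow_mul_eq_add_pow).
-/
import Pool.Agent.H82.RL.Vb

set_option autoImplicit false
set_option linter.unusedSectionVars false

open Finset

namespace Pool.Agent.H82.RL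

variable {ν ι : Type} [Fintype ν] [DecidableEq ν] {L g : ℕ}

/-- One choice of the positions `A'` whose letters are in `B`. -/
lemma Cpy_one {G : SimpleGraph ν} {M η th : ℝ} (hM : 1 ≤ M) (hη : η ≤ 1) (hth : 0 < th)
    {O : Finset ι} {y : ι → Fin g → ν} (hO : O.Nonempty)
    (hsp : ∀ (A : Finset (Fin g)) (q : Fin g → ν), ((fam O y A q).card : ℝ) ≤ th ^ A.card * O.card)
    {x : Fin L → ν} {Pr : Finset (Fin L)} (hx : NoVio G M O y η th Pr x)
    (A S A' : Finset (Fin g)) (om : Fin g → ν) (E : Finset (Fin L × Fin g))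
    (hE : ∀ e ∈ E, e.1 ∈ Pr) (hEA : ∀ e ∈ E, e.2 ∉ A)
    (hAS : Disjoint A S) (hAN : Disjoint A A') (hSN : Disjoint S A') :
    ∑ o ∈ fam O y (A ∪ S ∪ A') om, (∏ e ∈ E, |HH G M (x e.1) (y o e.2)|) ≤
      M ^ (Pr.card * (S.card + A'.card)) *
        (3 ^ E.card * th ^ (A.card + S.card + A'.card) * O.card) := by
  have h0 : (0 : ℝ) ≤ M := by linarith
  have hc : (A ∪ S ∪ A').card = A.card + S.card + A'.card := by
    rw [card_union_of_disjoint (disjoint_union_left.2 ⟨hAN, hSN⟩), card_union_of_disjoint hAS]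
  set E1 := E.filter fun e => e.2 ∈ S ∪ A' with hE1
  set E2 := E.filter fun e => ¬ e.2 ∈ S ∪ A' with hE2
  have hE1c : E1.card ≤ Pr.card * (S.card + A'.card) := by
    have h1 : E1 ⊆ Pr ×ˢ (S ∪ A') := by
      intro e he
      rw [hE1, mem_filter] at he
      exact mem_product.2 ⟨hE e he.1, he.2⟩
    refine (card_le_card h1).trans ?_
    rw [card_product, card_union_of_disjoint hSN]
  have hV := V_bound hM hη hth.le hO hsp hx (A ∪ S ∪ A') om E2
    (fun e he => hE e (mem_filter.1 he).1) (fun e he => by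
      have h1 := (mem_filter.1 he).2
      have h2 := hEA e (mem_filter.1 he).1
      simp only [mem_union, not_or] at h1 ⊢
      exact ⟨⟨h2, h1.1⟩, h1.2⟩)
  have hstep : ∀ o ∈ fam O y (A ∪ S ∪ A') om, (∏ e ∈ E, |HH G M (x e.1) (y o e.2)|) ≤
      M ^ (Pr.card * (S.card + A'.card)) * ∏ e ∈ E2, |HH G M (x e.1) (y o e.2)| := by
    intro o _
    rw [← prod_filter_mul_prod_filter_not E (fun e => e.2 ∈ S ∪ A')]
    refine mul_le_mul_of_nonneg_right ?_ (prod_nonneg fun _ _ => abs_nonneg _)
    calc ∏ e ∈ E1, |HH G M (x e.1) (y o e.2)| ≤ ∏ e ∈ E1, M :=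
          prod_le_prod (fun _ _ => abs_nonneg _) fun _ _ => abs_HH_le hM _ _
      _ = M ^ E1.card := by rw [prod_const]
      _ ≤ _ := pow_le_pow_right₀ hM hE1c
  refine (sum_le_sum hstep).trans ?_
  rw [← mul_sum]
  refine mul_le_mul_of_nonneg_left (hV.trans ?_) (by positivity)
  rw [hc]
  have h3 : (3 : ℝ) ^ E2.card ≤ 3 ^ E.card :=
    pow_le_pow_right₀ (by norm_num) (card_le_card (filter_subset _ _))
  have h4 : (0 : ℝ) ≤ th ^ (A.card + S.card + A'.card) := by positivity
  exact mul_le_mul_of_nonneg_right (mul_le_mul_of_nonneg_right h3 h4) (Nat.cast_nonneg _)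

theorem copy_bound {G : SimpleGraph ν} {M η th La : ℝ} (hM : 1 ≤ M) (hη : η ≤ 1) (hth : 0 < th)
    {O : Finset ι} {y : ι → Fin g → ν} (hO : O.Nonempty)
    (hsp : ∀ (A : Finset (Fin g)) (q : Fin g → ν), ((fam O y A q).card : ℝ) ≤ th ^ A.card * O.card)
    {x : Fin L → ν} {Pr : Finset (Fin L)} (hx : NoVio G M O y η th Pr x)
    (A S N : Finset (Fin g)) (om : Fin g → ν) (E : Finset (Fin L × Fin g))
    (hE : ∀ e ∈ E, e.1 ∈ Pr) (hEA : ∀ e ∈ E, e.2 ∉ A)
    (hAS : Disjoint A S) (hAN : Disjoint A N) (hSN : Disjoint S N)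
    (hLa1 : 1 ≤ La) (hLa : La * M ^ Pr.card * th ≤ 1) (B : Finset ν) :
    ∑ o ∈ fam O y (A ∪ S) om, (∏ e ∈ E, |HH G M (x e.1) (y o e.2)|) *
        La ^ ((N.filter fun j => y o j ∈ B).card) ≤
      O.card * (3 ^ E.card * (1 + B.card) ^ g * th ^ A.card * (M ^ Pr.card * th) ^ S.card) := by
  classical
  have h0 : (0 : ℝ) < M := by linarith
  have hL0 : (0 : ℝ) < La := by linarith
  set f : ι → ℝ := fun o => ∏ e ∈ E, |HH G M (x e.1) (y o e.2)| with hf
  have hf0 : ∀ o, 0 ≤ f o := fun o => prod_nonneg fun _ _ => abs_nonneg _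
  set bp : ι → Finset (Fin g) := fun o => N.filter fun j => y o j ∈ B with hbp
  -- group by the positions with letters in `B`
  have h1 : ∑ o ∈ fam O y (A ∪ S) om, f o * La ^ (bp o).card =
      ∑ A' ∈ N.powerset, ∑ o ∈ (fam O y (A ∪ S) om).filter (fun o => bp o = A'),
        f o * La ^ (bp o).card := by
    rw [sum_fiberwise_of_maps_to]
    intro o _
    exact mem_powerset.2 (filter_subset _ _)
  -- the sum for one set of positions
  have h2 : ∀ A' ∈ N.powerset, ∑ o ∈ (fam O y (A ∪ S) om).filter (fun o => bp o = A'),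
        f o * La ^ (bp o).card ≤ La ^ A'.card * ((B.card : ℝ) ^ A'.card *
          (M ^ (Pr.card * (S.card + A'.card)) *
            (3 ^ E.card * th ^ (A.card + S.card + A'.card) * O.card))) := by
    intro A' hA'
    rw [mem_powerset] at hA'
    have hAA' : Disjoint A A' := hAN.mono_right hA'
    have hSA' : Disjoint S A' := hSN.mono_right hA'
    have e1 : ∑ o ∈ (fam O y (A ∪ S) om).filter (fun o => bp o = A'), f o * La ^ (bp o).card =
        La ^ A'.card * ∑ o ∈ (fam O y (A ∪ S) om).filter (fun o => bp o = A'), f o := by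
      rw [mul_sum]
      refine sum_congr rfl fun o ho => ?_
      rw [(mem_filter.1 ho).2, mul_comm]
    rw [e1]
    refine mul_le_mul_of_nonneg_left ?_ (by positivity)
    set Q : Finset (Fin g → ν) := Fintype.piFinset (fun j => if j ∈ A' then B else {om j}) with hQ
    set mp : ι → (Fin g → ν) := fun o j => if j ∈ A' then y o j else om j with hmp
    have hQc : (Q.card : ℝ) = (B.card : ℝ) ^ A'.card := by
      rw [hQ, Fintype.card_piFinset]
      push_cast
      have : ∀ j : Fin g, (((if j ∈ A' then B else {om j} : Finset ν).card : ℕ) : ℝ) =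
          if j ∈ A' then (B.card : ℝ) else 1 := by
        intro j
        split_ifs <;> simp
      rw [prod_congr rfl fun j _ => this j, prod_ite_mem, univ_inter, prod_const]
    have e2 : ∑ o ∈ (fam O y (A ∪ S) om).filter (fun o => bp o = A'), f o ≤
        ∑ q ∈ Q, ∑ o ∈ fam O y (A ∪ S ∪ A') q, f o := by
      rw [← sum_fiberwise_of_maps_to (s := (fam O y (A ∪ S) om).filter (fun o => bp o = A'))
        (t := Q) (g := mp)]
      · refine sum_le_sum fun q _ => ?_
        refine sum_le_sum_of_subset_of_nonneg ?_ fun o _ _ => hf0 o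
        intro o ho
        obtain ⟨ho1, ho2⟩ := mem_filter.1 ho
        obtain ⟨ho3, _⟩ := mem_filter.1 ho1
        obtain ⟨ho4, ho5⟩ := mem_fam.1 ho3
        refine mem_fam.2 ⟨ho4, fun j hj => ?_⟩
        rw [← ho2]
        rcases mem_union.1 hj with hj | hj
        · have : j ∉ A' := fun h => disjoint_left.1 (disjoint_union_left.2 ⟨hAA', hSA'⟩) hj h
          simp only [hmp, this, if_false]
          exact ho5 j hj
        · simp only [hmp, hj, if_true]
      · intro o ho
        obtain ⟨_, ho1⟩ := mem_filter.1 ho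
        rw [hQ, Fintype.mem_piFinset]
        intro j
        by_cases hj : j ∈ A'
        · simp only [hmp, hj, if_true]
          rw [← ho1] at hj
          exact (mem_filter.1 hj).2
        · simp [hmp, hj]
    refine e2.trans ?_
    rw [← hQc, ← nsmul_eq_mul, ← sum_const]
    refine sum_le_sum fun q _ => ?_
    exact Cpy_one hM hη hth hO hsp hx A S A' q E hE hEA hAS hAA' hSA'
  -- the sum over the sets of positions
  rw [h1]
  refine (sum_le_sum h2).trans ?_
  have h3 : ∀ A' ∈ N.powerset, La ^ A'.card * ((B.card : ℝ) ^ A'.card *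
          (M ^ (Pr.card * (S.card + A'.card)) *
            (3 ^ E.card * th ^ (A.card + S.card + A'.card) * O.card))) ≤
      (O.card * (3 ^ E.card * th ^ A.card * (M ^ Pr.card * th) ^ S.card)) *
        (B.card : ℝ) ^ A'.card := by
    intro A' _
    have e1 : La ^ A'.card * ((B.card : ℝ) ^ A'.card *
          (M ^ (Pr.card * (S.card + A'.card)) *
            (3 ^ E.card * th ^ (A.card + S.card + A'.card) * O.card))) =
        (O.card * (3 ^ E.card * th ^ A.card * (M ^ Pr.card * th) ^ S.card)) *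
        (B.card : ℝ) ^ A'.card * (La * M ^ Pr.card * th) ^ A'.card := by
      rw [pow_add, pow_add, mul_pow, mul_pow, mul_pow, mul_add, pow_add, pow_mul, pow_mul]
      ring
    rw [e1]
    refine mul_le_of_le_one_right (by positivity) (pow_le_one₀ (by positivity) hLa)
  refine (sum_le_sum h3).trans ?_
  rw [← mul_sum]
  have h4 : ∑ A' ∈ N.powerset, (B.card : ℝ) ^ A'.card = (1 + B.card) ^ N.card := by
    have := Finset.sum_pow_mul_eq_add_pow (B.card : ℝ) 1 N
    simp only [one_pow, mul_one] at this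
    rw [this, add_comm]
  rw [h4]
  have h5 : (1 + (B.card : ℝ)) ^ N.card ≤ (1 + B.card) ^ g := by
    refine pow_le_pow_right₀ (by linarith [(Nat.cast_nonneg B.card : (0 : ℝ) ≤ B.card)]) ?_
    have := card_le_univ N
    rwa [Fintype.card_fin] at this
  calc (O.card : ℝ) * (3 ^ E.card * th ^ A.card * (M ^ Pr.card * th) ^ S.card) *
        (1 + B.card) ^ N.card ≤ (O.card : ℝ) * (3 ^ E.card * th ^ A.card *
          (M ^ Pr.card * th) ^ S.card) * (1 + B.card) ^ g :=
        mul_le_mul_of_nonneg_left h5 (by positivity)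
    _ = _ := by ring

end Pool.Agent.H82.RL
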