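import Mathlib

/-!
MP_ba3460_lc, linear exponent (blueprint H11_RL.md, section 3): the chain of row sets.
-/

namespace Pool.Agent.H82.RL

open Finset

variable {R P : Type*} [DecidableEq R] [DecidableEq P]

/-- Positions touched by a set of rows. -/
def NN (nb : R → Finset P) (S : Finset R) : Finset P := S.biUnion nb

lemma NN_mono (nb : R → Finset P) {S T : Finset R} (h : S ⊆ T) : NN nb S ⊆ NN nb T :=
  biUnion_subset_biUnion_of_subset_left _ h

lemma NN_union (nb : R → Finset P) (S T : Finset R) : NN nb (S ∪ T) = NN nb S ∪ NN nb T := by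
  unfold NN; exact union_biUnion

/-- The cost minimised at a step. -/
def cost (nb : R → Finset P) (z : ℝ) (T T' : Finset R) : ℝ :=
  ((T \ T').card : ℝ) + z * ((NN nb T').card : ℝ)

lemma exists_step (nb : R → Finset P) (z : ℝ) (T : Finset R) :
    ∃ T' ⊆ T, ∀ U ⊆ T, cost nb z T T' ≤ cost nb z T U := by
  obtain ⟨T', h1, h2⟩ := exists_min_image T.powerset (cost nb z T) ⟨∅, by simp⟩
  exact ⟨T', mem_powerset.1 h1, fun U hU => h2 U (mem_powerset.2 hU)⟩

/-- The minimiser. -/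
noncomputable def step (nb : R → Finset P) (z : ℝ) (T : Finset R) : Finset R :=
  (exists_step nb z T).choose

lemma step_sub (nb : R → Finset P) (z : ℝ) (T : Finset R) : step nb z T ⊆ T :=
  (exists_step nb z T).choose_spec.1

lemma step_min (nb : R → Finset P) (z : ℝ) (T : Finset R) :
    ∀ U ⊆ T, cost nb z T (step nb z T) ≤ cost nb z T U :=
  (exists_step nb z T).choose_spec.2

/-- The chain of row sets: `T_(e+1)` minimises the cost with `zeta = 4 b0 D^e`. -/
noncomputable def TT (nb : R → Finset P) (b0 : ℝ) (D : ℕ) (T1 : Finset R) : ℕ → Finset R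
  | 0 => T1
  | e + 1 => step nb (4 * b0 * (D : ℝ) ^ e) (TT nb b0 D T1 e)

section
variable (nb : R → Finset P) (b0 : ℝ) (D : ℕ) (T1 : Finset R)

lemma TT_zero : TT nb b0 D T1 0 = T1 := rfl

lemma TT_succ_sub (e : ℕ) : TT nb b0 D T1 (e + 1) ⊆ TT nb b0 D T1 e :=
  step_sub _ _ _

lemma TT_anti {e e' : ℕ} (h : e ≤ e') : TT nb b0 D T1 e' ⊆ TT nb b0 D T1 e := by
  induction h with
  | refl => exact Subset.refl _
  | step _ ih => exact (TT_succ_sub nb b0 D T1 _).trans ih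

lemma TT_sub (e : ℕ) : TT nb b0 D T1 e ⊆ T1 := TT_anti nb b0 D T1 (Nat.zero_le e)

/-- (a) -/
lemma TT_a (e : ℕ) (S : Finset R) (hS : S ⊆ TT nb b0 D T1 e \ TT nb b0 D T1 (e + 1)) :
    (S.card : ℝ) ≤ 4 * b0 * (D : ℝ) ^ e *
      ((NN nb S \ NN nb (TT nb b0 D T1 (e + 1))).card : ℝ) := by
  set A := TT nb b0 D T1 e with hA
  set B := TT nb b0 D T1 (e + 1) with hB
  have hBA : B ⊆ A := TT_succ_sub nb b0 D T1 e
  have hmin := step_min nb (4 * b0 * (D : ℝ) ^ e) A (B ∪ S)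
    (union_subset hBA (hS.trans sdiff_subset))
  have hstep : step nb (4 * b0 * (D : ℝ) ^ e) A = B := rfl
  rw [hstep] at hmin
  unfold cost at hmin
  have h1 : ((A \ (B ∪ S)).card : ℝ) = ((A \ B).card : ℝ) - (S.card : ℝ) := by
    have : A \ (B ∪ S) = (A \ B) \ S := by rw [sdiff_union_distrib]; ext x; simp; tauto
    rw [this, card_sdiff_of_subset hS, Nat.cast_sub (card_le_card hS)]
  have h2 : ((NN nb (B ∪ S)).card : ℝ) =
      ((NN nb B).card : ℝ) + ((NN nb S \ NN nb B).card : ℝ) := by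
    rw [NN_union, ← union_sdiff_self_eq_union, card_union_of_disjoint disjoint_sdiff]
    push_cast; rfl
  rw [h1, h2] at hmin
  linarith

/-- (b) -/
lemma TT_b (e : ℕ) :
    4 * b0 * (D : ℝ) ^ e * ((NN nb (TT nb b0 D T1 (e + 1))).card : ℝ) ≤
      ((TT nb b0 D T1 (e + 1)).card : ℝ) := by
  set A := TT nb b0 D T1 e with hA
  set B := TT nb b0 D T1 (e + 1) with hB
  have hBA : B ⊆ A := TT_succ_sub nb b0 D T1 e
  have hmin := step_min nb (4 * b0 * (D : ℝ) ^ e) A ∅ (empty_subset _)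
  have hstep : step nb (4 * b0 * (D : ℝ) ^ e) A = B := rfl
  rw [hstep] at hmin
  unfold cost at hmin
  have h0 : NN nb (∅ : Finset R) = ∅ := by simp [NN]
  rw [h0, card_empty, card_sdiff_of_subset hBA, Nat.cast_sub (card_le_card hBA)] at hmin
  simp at hmin
  linarith

/-- (c) -/
lemma TT_c (e : ℕ) :
    4 * b0 * (D : ℝ) ^ e * (((NN nb (TT nb b0 D T1 (e + 1))).card : ℝ) -
        ((NN nb (TT nb b0 D T1 (e + 2))).card : ℝ)) ≤
      ((TT nb b0 D T1 (e + 1) \ TT nb b0 D T1 (e + 2)).card : ℝ) := by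
  set A := TT nb b0 D T1 e with hA
  set B := TT nb b0 D T1 (e + 1) with hB
  set C := TT nb b0 D T1 (e + 2) with hC
  have hBA : B ⊆ A := TT_succ_sub nb b0 D T1 e
  have hCB : C ⊆ B := TT_succ_sub nb b0 D T1 (e + 1)
  have hmin := step_min nb (4 * b0 * (D : ℝ) ^ e) A C (hCB.trans hBA)
  have hstep : step nb (4 * b0 * (D : ℝ) ^ e) A = B := rfl
  rw [hstep] at hmin
  unfold cost at hmin
  rw [card_sdiff_of_subset hBA, card_sdiff_of_subset (hCB.trans hBA),
    Nat.cast_sub (card_le_card hBA), Nat.cast_sub (card_le_card (hCB.trans hBA))] at hmin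
  rw [card_sdiff_of_subset hCB, Nat.cast_sub (card_le_card hCB)]
  linarith

/-- The chain ends. -/
lemma TT_end (hnb : ∀ l ∈ T1, (nb l).Nonempty) (hb : 0 < b0) (hD : 1 < (D : ℝ)) :
    ∃ E : ℕ, ∀ e, E ≤ e → TT nb b0 D T1 e = ∅ := by
  obtain ⟨k, hk⟩ := pow_unbounded_of_one_lt ((T1.card : ℝ) / (4 * b0)) hD
  refine ⟨k + 1, fun e he => ?_⟩
  have key : TT nb b0 D T1 (k + 1) = ∅ := by
    by_contra hne
    obtain ⟨l, hl⟩ := nonempty_iff_ne_empty.2 hne
    have hl1 : l ∈ T1 := TT_sub nb b0 D T1 (k + 1) hl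
    obtain ⟨j, hj⟩ := hnb l hl1
    have hpos : 1 ≤ (NN nb (TT nb b0 D T1 (k + 1))).card :=
      card_pos.2 ⟨j, mem_biUnion.2 ⟨l, hl, hj⟩⟩
    have hpos' : (1 : ℝ) ≤ ((NN nb (TT nb b0 D T1 (k + 1))).card : ℝ) := by exact_mod_cast hpos
    have h1 := TT_b nb b0 D T1 k
    have h2 : ((TT nb b0 D T1 (k + 1)).card : ℝ) ≤ (T1.card : ℝ) := by
      exact_mod_cast card_le_card (TT_sub nb b0 D T1 (k + 1))
    rw [div_lt_iff₀ (by positivity)] at hk
    have hc : 0 < 4 * b0 * (D : ℝ) ^ k := by positivity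
    nlinarith [mul_le_mul_of_nonneg_left hpos' hc.le]
  exact subset_empty.1 (key ▸ TT_anti nb b0 D T1 he)

lemma TT_sum_G (E : ℕ) :
    ∑ e ∈ range E, ((TT nb b0 D T1 e \ TT nb b0 D T1 (e + 1)).card : ℝ) =
      (T1.card : ℝ) - ((TT nb b0 D T1 E).card : ℝ) := by
  induction E with
  | zero => simp [TT_zero]
  | succ n ih =>
    rw [sum_range_succ, ih, card_sdiff_of_subset (TT_succ_sub nb b0 D T1 n),
      Nat.cast_sub (card_le_card (TT_succ_sub nb b0 D T1 n))]
    ring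

lemma TT_abel (hb : 0 < b0) (E : ℕ) :
    ((D : ℝ) - 1) * ∑ e ∈ range E, (D : ℝ) ^ e * ((NN nb (TT nb b0 D T1 (e + 2))).card : ℝ) ≤
      (D : ℝ) ^ E * ((NN nb (TT nb b0 D T1 (E + 1))).card : ℝ) +
      (∑ e ∈ range E, ((TT nb b0 D T1 (e + 1) \ TT nb b0 D T1 (e + 2)).card : ℝ)) / (4 * b0) := by
  induction E with
  | zero => simp
  | succ n ih =>
    rw [sum_range_succ, sum_range_succ, add_div, mul_add]
    have hc := TT_c nb b0 D T1 n
    have h4 : (0 : ℝ) < 4 * b0 := by positivity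
    have hc' : (D : ℝ) ^ n * (((NN nb (TT nb b0 D T1 (n + 1))).card : ℝ) -
        ((NN nb (TT nb b0 D T1 (n + 2))).card : ℝ)) ≤
        ((TT nb b0 D T1 (n + 1) \ TT nb b0 D T1 (n + 2)).card : ℝ) / (4 * b0) := by
      rw [le_div_iff₀ h4]
      linarith
    have : (D : ℝ) ^ (n + 1) = D * (D : ℝ) ^ n := by ring
    have e2 : n + 1 + 1 = n + 2 := rfl
    rw [e2, this]
    nlinarith [ih, hc']

/-- PAYING. -/
def Paying (e : ℕ) : Prop :=
  2.2 * (D : ℝ) ^ e * ((NN nb (TT nb b0 D T1 (e + 2))).card : ℝ) ≤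
    ((TT nb b0 D T1 e \ TT nb b0 D T1 (e + 1)).card : ℝ) / 16

/-- One parity class of paying indices carries three eighths of the rows. -/
theorem paying_class (hnb : ∀ l ∈ T1, (nb l).Nonempty) (hb : 0 < b0)
    (hD : 70.4 ≤ b0 * ((D : ℝ) - 1)) :
    ∃ c < 2, ∃ I : Finset ℕ, (∀ e ∈ I, e % 2 = c ∧ Paying nb b0 D T1 e) ∧
      3 / 8 * (T1.card : ℝ) ≤
        ∑ e ∈ I, ((TT nb b0 D T1 e \ TT nb b0 D T1 (e + 1)).card : ℝ) := by
  classical
  have hD1 : 0 < (D : ℝ) - 1 := by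
    by_contra h
    push_neg at h
    nlinarith
  obtain ⟨E, hE⟩ := TT_end nb b0 D T1 hnb hb (by linarith)
  set g : ℕ → ℝ := fun e => ((TT nb b0 D T1 e \ TT nb b0 D T1 (e + 1)).card : ℝ) with hg
  have hg0 : ∀ e, 0 ≤ g e := fun e => by positivity
  have htot : ∑ e ∈ range E, g e = (T1.card : ℝ) := by
    have := TT_sum_G nb b0 D T1 E
    rw [hE E le_rfl] at this
    simpa using this
  have hshift : ∑ e ∈ range E, g (e + 1) ≤ (T1.card : ℝ) := by
    have h1 := TT_sum_G nb b0 D T1 (E + 1)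
    rw [hE (E + 1) (by omega), sum_range_succ'] at h1
    simp only [card_empty, Nat.cast_zero, sub_zero] at h1
    have := hg0 0
    simp only [hg] at this ⊢
    linarith
  have habel := TT_abel nb b0 D T1 hb E
  rw [hE (E + 1) (by omega)] at habel
  have hN0 : NN nb (∅ : Finset R) = ∅ := by simp [NN]
  rw [hN0] at habel
  simp only [card_empty, Nat.cast_zero, mul_zero, zero_add] at habel
  set a : ℕ → ℝ := fun e => (D : ℝ) ^ e * ((NN nb (TT nb b0 D T1 (e + 2))).card : ℝ) with ha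
  have ha0 : ∀ e, 0 ≤ a e := fun e => by positivity
  have hA : 35.2 * ∑ e ∈ range E, a e ≤ (T1.card : ℝ) / 8 := by
    have h1 : ((D : ℝ) - 1) * ∑ e ∈ range E, a e ≤ (T1.card : ℝ) / (4 * b0) := by
      refine habel.trans ?_
      exact div_le_div_of_nonneg_right hshift (by positivity)
    rw [le_div_iff₀ (by positivity)] at h1
    have hs : 0 ≤ ∑ e ∈ range E, a e := sum_nonneg fun e _ => ha0 e
    nlinarith [mul_le_mul_of_nonneg_right hD hs]
  set PP := (range E).filter fun e => Paying nb b0 D T1 e with hPP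
  have hnon : ∑ e ∈ (range E).filter (fun e => ¬ Paying nb b0 D T1 e), g e ≤
      (T1.card : ℝ) / 8 := by
    refine le_trans ?_ hA
    rw [mul_sum]
    refine le_trans (sum_le_sum (g := fun e => 35.2 * a e) fun e he => ?_)
      (sum_le_sum_of_subset_of_nonneg (filter_subset _ _) fun e _ _ => by
        have := ha0 e; positivity)
    have h := (mem_filter.1 he).2
    unfold Paying at h
    push_neg at h
    simp only [hg, ha]
    linarith
  have hsplit : ∑ e ∈ PP, g e + ∑ e ∈ (range E).filter (fun e => ¬ Paying nb b0 D T1 e), g e =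
      (T1.card : ℝ) := by
    rw [← htot]
    exact sum_filter_add_sum_filter_not _ _ _
  have hpay : 7 / 8 * (T1.card : ℝ) ≤ ∑ e ∈ PP, g e := by linarith
  have hpar : ∑ e ∈ PP.filter (fun e => e % 2 = 0), g e +
      ∑ e ∈ PP.filter (fun e => ¬ e % 2 = 0), g e = ∑ e ∈ PP, g e :=
    sum_filter_add_sum_filter_not _ _ _
  have hT : (0 : ℝ) ≤ T1.card := by positivity
  by_cases hc : 3 / 8 * (T1.card : ℝ) ≤ ∑ e ∈ PP.filter (fun e => e % 2 = 0), g e
  · refine ⟨0, by norm_num, PP.filter (fun e => e % 2 = 0), fun e he => ?_, hc⟩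
    exact ⟨(mem_filter.1 he).2, (mem_filter.1 (mem_filter.1 he).1).2⟩
  · refine ⟨1, by norm_num, PP.filter (fun e => ¬ e % 2 = 0), fun e he => ?_, by linarith⟩
    refine ⟨?_, (mem_filter.1 (mem_filter.1 he).1).2⟩
    have := (mem_filter.1 he).2
    omega

end

end Pool.Agent.H82.RL
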