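/-
ROW Rwb (about 150 lines). The rows of one stage, for a fixed tuple of 2k copies.
Notation: I_l = univ x nb E l, #I_l = 2k #nb E l <= 2k #(S u N) <= 2 KK. lt (r,j) = y (o r) j.
row_index (RowI) for l in Mm: |sum_v| <= #W_l C M^(#I_l - #image_l), and if some letter of the row has exactly one index (r,j) (the row is lonely): tau |sum_v| <= the same.
rep_card (with K = 2k, I = nb E l, S, N; nb E l \ S in N by hN): #I_l - #image_l <= (2k-1) #S + sum_r #Rep r =: e (M >= 1: M^(#I_l - #image_l) <= M^e). So for every l in Mm: |sum_v| <= #W_l C M^e, and tau |sum_v| <= #W_l C M^e for l lonely.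
Gp := {l in Gs | l not lonely}. Q := NN (nb E) Gp \ S in N. pair_card for Q: (r,j), j in Q: j in nb E l for some l in Gp, so there is (r',j') <> (r,j), j' in nb E l with the same letter; j' is not in S (otherwise y (o r) j' = om j' = y (o r') j' = y (o r) j,
 so j = j' in S by injectivity), so j' in Q. Hence 2k #Q <= 2 sum_r #Rep r, and mu #Gp <= k #Q <= sum_r #Rep r by hexp. So tau^#Gp <= bl^(mu #Gp) <= bl^(sum_r #Rep r).
Product: tau^#Gs = tau^#Gp tau^#(Gs \ Gp); give one factor tau to every lonely l in Gs. Finally prod_r (M^#Mm bl)^#Rep r = M^(#Mm sum #Rep) bl^(sum #Rep), and M^(#Mm e) = (M^#Mm)^((2k-1) #S) M^(#Mm sum #Rep).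
-/
import Pool.Agent.H82.RL.Seq
import Pool.Agent.H82.RL.RowI
import Pool.Agent.H82.RL.Chain

set_option autoImplicit false
set_option linter.unusedSectionVars false

open Finset

namespace Pool.Agent.H82.RL

variable {ν ι : Type} [Fintype ν] [DecidableEq ν] {L g : ℕ}

theorem row_prod {G : SimpleGraph ν} {M C τ bl : ℝ} (hM : 1 ≤ M) (hC : 1 ≤ C) (hτ : 1 ≤ τ)
    (hbl : 1 ≤ bl) {O : Finset ι} {y : ι → Fin g → ν} (hinj : ∀ o ∈ O, Function.Injective (y o))
    {Λ : Finset ν} (hΛ : ∀ o ∈ O, ∀ j, y o j ∈ Λ) (W : Fin L → Finset ν)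
    (Mm Gs : Finset (Fin L)) (hG : Gs ⊆ Mm) (k KK : ℕ) (hk : 1 ≤ k) (S N : Finset (Fin g))
    (hSN : Disjoint S N) (hKK : k * (S ∪ N).card ≤ KK)
    (hrow : ∀ l ∈ Mm, RowOK G M (W l) Λ (2 * KK) (2 * KK) C τ) (μ : ℕ) (hμ : τ ≤ bl ^ μ)
    (E : Finset (Fin L × Fin g)) (hN : ∀ e ∈ E, e.1 ∈ Mm → e.2 ∈ S ∪ N)
    (hexp : ∀ S' ⊆ Gs, μ * S'.card ≤ k * (NN (nb E) S' \ S).card)
    (om : Fin g → ν) (o : Fin (2 * k) → ι) (ho : ∀ r, o r ∈ O)
    (hom : ∀ r, ∀ j ∈ S, y (o r) j = om j) :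
    τ ^ Gs.card * ∏ l ∈ Mm, |∑ v ∈ W l, ∏ r, ∏ j ∈ nb E l, HH G M v (y (o r) j)| ≤
      (∏ l ∈ Mm, ((W l).card : ℝ)) * C ^ Mm.card * (M ^ Mm.card) ^ ((2 * k - 1) * S.card) *
        ∏ r, (M ^ Mm.card * bl) ^ (Rep y N o r).card := by
  classical
  have hM0 : (0 : ℝ) ≤ M := zero_le_one.trans hM
  have hC0 : (0 : ℝ) ≤ C := zero_le_one.trans hC
  have hτ0 : (0 : ℝ) ≤ τ := zero_le_one.trans hτ
  have hbl0 : (0 : ℝ) ≤ bl := zero_le_one.trans hbl
  set lt : Fin (2 * k) × Fin g → ν := fun i => y (o i.1) i.2 with hlt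
  set I : Fin L → Finset (Fin (2 * k) × Fin g) := fun l => (univ : Finset (Fin (2 * k))) ×ˢ nb E l with hI
  set R : ℕ := ∑ r, (Rep y N o r).card with hR
  set e : ℕ := (2 * k - 1) * S.card + R with he
  have hnb : ∀ l ∈ Mm, nb E l ⊆ S ∪ N := fun l hl j hj => hN (l, j) (mem_nb.1 hj) hl
  have hyi : ∀ r, Function.Injective (y (o r)) := fun r => hinj _ (ho r)
  have hcard : ∀ l, (I l).card = 2 * k * (nb E l).card := fun l => by
    rw [hI]; simp [card_product]
  have hcard2 : ∀ l ∈ Mm, (I l).card ≤ 2 * KK := by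
    intro l hl
    rw [hcard]
    have h1 := card_le_card (hnb l hl)
    have h2 : k * (nb E l).card ≤ k * (S ∪ N).card := Nat.mul_le_mul_left _ h1
    calc 2 * k * (nb E l).card = 2 * (k * (nb E l).card) := by ring
      _ ≤ 2 * KK := by omega
  have hexpo : ∀ l ∈ Mm, (I l).card - ((I l).image lt).card ≤ e := by
    intro l hl
    have h1 := rep_card y o hyi (nb E l) S N om hom (by
      intro j hj
      rw [mem_sdiff] at hj
      rcases mem_union.1 (hnb l hl hj.1) with h | h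
      · exact absurd h hj.2
      · exact h)
    have h2 : (2 * k - 1) * (S ∩ nb E l).card ≤ (2 * k - 1) * S.card :=
      Nat.mul_le_mul_left _ (card_le_card inter_subset_left)
    have h3 := hcard l
    have h4 : (((univ : Finset (Fin (2 * k))) ×ˢ nb E l).image (fun p => y (o p.1) p.2)).card =
        ((I l).image lt).card := rfl
    omega
  have hprodI : ∀ l v, ∏ r, ∏ j ∈ nb E l, HH G M v (y (o r) j) = ∏ i ∈ I l, HH G M v (lt i) := by
    intro l v
    rw [hI, hlt]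
    exact (prod_product' (univ : Finset (Fin (2 * k))) (nb E l) (fun r j => HH G M v (y (o r) j))).symm
  set a : Fin L → ℝ := fun l => |∑ v ∈ W l, ∏ i ∈ I l, HH G M v (lt i)| with ha
  have ha0 : ∀ l, 0 ≤ a l := fun l => abs_nonneg _
  have hri : ∀ l ∈ Mm, a l ≤ (W l).card * (C * M ^ e) ∧
      ((∃ i ∈ I l, ∀ i' ∈ I l, lt i' = lt i → i' = i) → τ * a l ≤ (W l).card * (C * M ^ e)) := by
    intro l hl
    have h := row_index (hrow l hl) (I l) lt (fun i _ => hΛ _ (ho _) _) (hcard2 l hl) (hcard2 l hl)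
    have h5 : ((W l).card : ℝ) * (C * M ^ ((I l).card - ((I l).image lt).card)) ≤
        (W l).card * (C * M ^ e) := by
      have := pow_le_pow_right₀ hM (hexpo l hl)
      gcongr
    exact ⟨h.1.trans h5, fun hh => (h.2 hh).trans h5⟩
  set Gp : Finset (Fin L) := Gs.filter (fun l => ¬ ∃ i ∈ I l, ∀ i' ∈ I l, lt i' = lt i → i' = i) with hGp
  have hGpG : Gp ⊆ Gs := filter_subset _ _
  set Q : Finset (Fin g) := NN (nb E) Gp \ S with hQ
  have hQN : Q ⊆ N := by
    intro j hj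
    rw [hQ, mem_sdiff] at hj
    obtain ⟨l, hl, hj2⟩ := mem_biUnion.1 hj.1
    rcases mem_union.1 (hnb l (hG (hGpG hl)) hj2) with h | h
    · exact absurd h hj.2
    · exact h
  have hpair := pair_card y o hyi Q N hQN (by
    intro r j hj
    rw [hQ, mem_sdiff] at hj
    obtain ⟨l, hl, hj2⟩ := mem_biUnion.1 hj.1
    have hnl := (mem_filter.1 hl).2
    push Not at hnl
    obtain ⟨⟨r', j'⟩, hi', heq, hne⟩ := hnl (r, j) (mem_product.2 ⟨mem_univ _, hj2⟩)
    have hj' : j' ∈ nb E l := (mem_product.1 hi').2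
    refine ⟨r', j', ?_, hne, heq⟩
    rw [hQ, mem_sdiff]
    refine ⟨mem_biUnion.2 ⟨l, hl, hj'⟩, fun hS' => ?_⟩
    have e1 : y (o r) j' = y (o r) j := by
      rw [hom r j' hS', ← hom r' j' hS']
      exact heq
    have e2 := hyi r e1
    rw [e2] at hS'
    exact hj.2 hS')
  have hGR : μ * Gp.card ≤ R := by
    have h1 : μ * Gp.card ≤ k * Q.card := hexp Gp hGpG
    have h2 : 2 * (k * Q.card) ≤ 2 * R := by
      calc 2 * (k * Q.card) = 2 * k * Q.card := by ring
        _ ≤ 2 * R := hpair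
    exact h1.trans (by omega)
  have hτGp : τ ^ Gp.card ≤ bl ^ R := by
    calc τ ^ Gp.card ≤ (bl ^ μ) ^ Gp.card := pow_le_pow_left₀ hτ0 hμ _
      _ = bl ^ (μ * Gp.card) := by rw [← pow_mul]
      _ ≤ bl ^ R := pow_le_pow_right₀ hbl hGR
  have hsplit : τ ^ Gs.card = τ ^ Gp.card * ∏ l ∈ Mm, (if l ∈ Gs \ Gp then τ else 1) := by
    rw [prod_ite_mem, inter_eq_right.2 (sdiff_subset.trans hG), prod_const, ← pow_add]
    congr 1
    have := card_sdiff_add_card_eq_card hGpG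
    omega
  have hmain : ∏ l ∈ Mm, ((if l ∈ Gs \ Gp then τ else 1) * a l) ≤
      ∏ l ∈ Mm, (((W l).card : ℝ) * (C * M ^ e)) := by
    refine prod_le_prod (fun l _ => ?_) (fun l hl => ?_)
    · refine mul_nonneg ?_ (ha0 l)
      split_ifs
      · exact hτ0
      · exact zero_le_one
    · split_ifs with h
      · refine (hri l hl).2 ?_
        by_contra hcon
        rw [mem_sdiff] at h
        exact h.2 (mem_filter.2 ⟨h.1, hcon⟩)
      · rw [one_mul]
        exact (hri l hl).1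
  have hlhs : ∏ l ∈ Mm, |∑ v ∈ W l, ∏ r, ∏ j ∈ nb E l, HH G M v (y (o r) j)| = ∏ l ∈ Mm, a l := by
    refine prod_congr rfl fun l _ => ?_
    simp only [ha, hprodI]
  have hpr : ∏ r, (M ^ Mm.card * bl) ^ (Rep y N o r).card = (M ^ Mm.card * bl) ^ R := by
    rw [prod_pow_eq_pow_sum]
  rw [hlhs, hpr, hsplit, mul_assoc, ← prod_mul_distrib]
  calc τ ^ Gp.card * ∏ l ∈ Mm, ((if l ∈ Gs \ Gp then τ else 1) * a l)
      ≤ bl ^ R * ∏ l ∈ Mm, (((W l).card : ℝ) * (C * M ^ e)) := by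
        refine mul_le_mul hτGp hmain (prod_nonneg fun l _ => ?_) (by positivity)
        refine mul_nonneg ?_ (ha0 l)
        split_ifs
        · exact hτ0
        · exact zero_le_one
    _ = _ := by
        rw [prod_mul_distrib, prod_const, he]
        ring

end Pool.Agent.H82.RL
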