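/-
ROW Mom (about 150 lines). The moment of one stage. F := fam O y (A u S) om, c0 := #O.
PROOF. ZZ^(2k) = c0^(-2k) (sum_{o in F} prod_{e in E} HH)^(2k) = c0^(-2k) sum_{o in Fintype.piFinset (fun _ : Fin (2k) => F)} prod_r prod_{e in E} HH (x e.1) (y (o r) e.2)   (Finset.prod_univ_sum with constant factors, prod_const).
 Split E = EP u EM, EP = {e.1 in Pr}, EM = {e.1 in Mm} (disjoint, hE, hPM). On box W Mm x0 the EP factors are those of x0. Exchange sums; for fixed o: sum over the box of prod_{e in EM} prod_r HH (x e.1) (y (o r) e.2)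
 = prod_{l in Mm} sum_{v in W l} prod_r prod_{j in nb E l} HH v (y (o r) j)   (box_sum; prod over EM = prod over l in Mm of the prod over nb E l). Absolute values and row_prod (o r in F in O; hom from mem_fam on S):
 tau^#Gs * sum_x ZZ^(2k) <= c0^(-2k) prodW C^#Mm (M^#Mm)^((2k-1)#S) * sum_o prod_r ( prod_{EP} |HH (x0 ..)| * (M^#Mm bl)^#Rep r ).
 seq_sum with f o = prod_{EP} |HH|, La = M^#Mm bl >= 1, O' = F; its hypothesis is copy_bound (Cpy) for EP (La M^#Pr th <= 1 by hcr), #B <= 2k g, so c := c0 * (3^#E (1+2kg)^g th^#A (M^#Pr th)^#S).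
 Total <= prodW C^#Mm (3^#E (1+2kg)^g th^#A)^(2k) * [ (M^#Mm)^((2k-1)#S) (M^#Pr th)^(2k #S) ], and the bracket is <= (M^(#Mm+#Pr) th)^(2k #S) <= 1 by hcr and bl >= 1.
-/
import Pool.Agent.H82.RL.Rwb
import Pool.Agent.H82.RL.Cpy
import Pool.Agent.H82.RL.Box

set_option autoImplicit false
set_option linter.unusedSectionVars false

open Finset

namespace Pool.Agent.H82.RL

variable {ν ι : Type} [Fintype ν] [DecidableEq ν] {L g : ℕ}

theorem moment {G : SimpleGraph ν} {M C τ bl η th : ℝ} (hM : 1 ≤ M) (hC : 1 ≤ C) (hτ : 1 ≤ τ)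
    (hbl : 1 ≤ bl) (hη : η ≤ 1) (hth : 0 < th) {O : Finset ι} {y : ι → Fin g → ν}
    (hO : O.Nonempty) (hinj : ∀ o ∈ O, Function.Injective (y o))
    (hsp : ∀ (A : Finset (Fin g)) (q : Fin g → ν), ((fam O y A q).card : ℝ) ≤ th ^ A.card * O.card)
    {Λ : Finset ν} (hΛ : ∀ o ∈ O, ∀ j, y o j ∈ Λ) (W : Fin L → Finset ν)
    (Pr Mm Gs : Finset (Fin L)) (hPM : Disjoint Pr Mm) (hG : Gs ⊆ Mm) (k KK : ℕ) (hk : 1 ≤ k)
    (A S N : Finset (Fin g)) (hAS : Disjoint A S) (hAN : Disjoint A N) (hSN : Disjoint S N)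
    (hKK : k * (S ∪ N).card ≤ KK)
    (hrow : ∀ l ∈ Mm, RowOK G M (W l) Λ (2 * KK) (2 * KK) C τ) (μ : ℕ) (hμ : τ ≤ bl ^ μ)
    (E : Finset (Fin L × Fin g)) (hE : ∀ e ∈ E, e.1 ∈ Pr ∪ Mm) (hEA : ∀ e ∈ E, e.2 ∉ A)
    (hN : ∀ e ∈ E, e.1 ∈ Mm → e.2 ∈ S ∪ N)
    (hexp : ∀ S' ⊆ Gs, μ * S'.card ≤ k * (NN (nb E) S' \ S).card)
    (x0 : Fin L → ν) (hx : NoVio G M O y η th Pr x0)
    (hcr : bl * M ^ (Pr.card + Mm.card) * th ≤ 1) (om : Fin g → ν) :
    τ ^ Gs.card * ∑ x ∈ box W Mm x0, ZZ G M O y E (A ∪ S) om x ^ (2 * k) ≤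
      (∏ l ∈ Mm, ((W l).card : ℝ)) *
        (C ^ Mm.card * (3 ^ E.card * (1 + 2 * k * g) ^ g * th ^ A.card) ^ (2 * k)) := by
  classical
  have hM0 : (0 : ℝ) ≤ M := zero_le_one.trans hM
  have hC0 : (0 : ℝ) ≤ C := zero_le_one.trans hC
  have hτ0 : (0 : ℝ) ≤ τ := zero_le_one.trans hτ
  have hbl0 : (0 : ℝ) ≤ bl := zero_le_one.trans hbl
  have hc0 : (0 : ℝ) < O.card := by exact_mod_cast hO.card_pos
  set F : Finset ι := fam O y (A ∪ S) om with hF
  set EM : Finset (Fin L × Fin g) := E.filter (fun e => e.1 ∈ Mm) with hEM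
  set EP : Finset (Fin L × Fin g) := E.filter (fun e => ¬ e.1 ∈ Mm) with hEP
  set La : ℝ := M ^ Mm.card * bl with hLa
  set X : ℝ := 3 ^ E.card * (1 + 2 * k * g) ^ g * th ^ A.card with hX
  set f : ι → ℝ := fun o => ∏ e ∈ EP, |HH G M (x0 e.1) (y o e.2)| with hf
  set rw' : (Fin (2 * k) → ι) → Fin L → ν → ℝ :=
    fun o l v => ∏ r, ∏ j ∈ nb E l, HH G M v (y (o r) j) with hrw'
  have hf0 : ∀ o, 0 ≤ f o := fun o => prod_nonneg fun _ _ => abs_nonneg _
  have hX0 : 0 ≤ X := by positivity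
  have hLa1 : 1 ≤ La := one_le_mul_of_one_le_of_one_le (one_le_pow₀ hM) hbl
  have hLath : La * M ^ Pr.card * th ≤ 1 := by
    refine le_trans (le_of_eq ?_) hcr
    rw [hLa, pow_add]; ring
  have hEPP : ∀ e ∈ EP, e.1 ∈ Pr := by
    intro e he
    obtain ⟨h1, h2⟩ := mem_filter.1 he
    rcases mem_union.1 (hE e h1) with h | h
    · exact h
    · exact absurd h h2
  -- the power of one component
  have hZ : ∀ x ∈ box W Mm x0, ZZ G M O y E (A ∪ S) om x ^ (2 * k) =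
      (∑ o ∈ Fintype.piFinset (fun _ : Fin (2 * k) => F),
        (∏ r, ∏ e ∈ EP, HH G M (x0 e.1) (y (o r) e.2)) * ∏ l ∈ Mm, rw' o l (x l)) /
          (O.card : ℝ) ^ (2 * k) := by
    intro x hx'
    have hxx := (mem_box.1 hx').2
    unfold ZZ
    rw [div_pow]
    congr 1
    have h1 : (∑ o ∈ F, ∏ e ∈ E, HH G M (x e.1) (y o e.2)) ^ (2 * k) =
        ∏ _r : Fin (2 * k), ∑ o ∈ F, ∏ e ∈ E, HH G M (x e.1) (y o e.2) := by
      rw [prod_const, card_univ, Fintype.card_fin]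
    rw [h1, prod_univ_sum]
    refine sum_congr rfl fun o _ => ?_
    have h2 : ∏ l ∈ Mm, rw' o l (x l) = ∏ r, ∏ e ∈ EM, HH G M (x e.1) (y (o r) e.2) := by
      rw [hrw']
      simp only
      rw [prod_comm]
      refine prod_congr rfl fun r _ => ?_
      rw [← prod_finset_product' EM Mm (nb E) (fun p => by
        rw [hEM, mem_filter, mem_nb]
        exact and_comm) (f := fun l j => HH G M (x l) (y (o r) j))]
    rw [h2, ← prod_mul_distrib]
    refine prod_congr rfl fun r _ => ?_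
    rw [← prod_filter_mul_prod_filter_not E (fun e => e.1 ∈ Mm), mul_comm]
    congr 1
    refine prod_congr rfl fun e he => ?_
    rw [hxx e.1 (mem_filter.1 he).2]
  -- the sum over the box
  have hsum : ∑ x ∈ box W Mm x0, ZZ G M O y E (A ∪ S) om x ^ (2 * k) =
      (∑ o ∈ Fintype.piFinset (fun _ : Fin (2 * k) => F),
        (∏ r, ∏ e ∈ EP, HH G M (x0 e.1) (y (o r) e.2)) * ∏ l ∈ Mm, ∑ v ∈ W l, rw' o l v) /
          (O.card : ℝ) ^ (2 * k) := by
    rw [sum_congr rfl hZ, ← sum_div, sum_comm]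
    congr 1
    refine sum_congr rfl fun o _ => ?_
    rw [← mul_sum, box_sum]
  -- one tuple of copies
  have hone : ∀ o ∈ Fintype.piFinset (fun _ : Fin (2 * k) => F),
      τ ^ Gs.card * ((∏ r, ∏ e ∈ EP, HH G M (x0 e.1) (y (o r) e.2)) *
        ∏ l ∈ Mm, ∑ v ∈ W l, rw' o l v) ≤
      ((∏ l ∈ Mm, ((W l).card : ℝ)) * C ^ Mm.card * (M ^ Mm.card) ^ ((2 * k - 1) * S.card)) *
        ∏ r, (f (o r) * La ^ (Rep y N o r).card) := by
    intro o ho
    rw [Fintype.mem_piFinset] at ho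
    have hoF : ∀ r, o r ∈ O ∧ ∀ j ∈ A ∪ S, y (o r) j = om j := fun r => mem_fam.1 (ho r)
    have h1 := row_prod hM hC hτ hbl hinj hΛ W Mm Gs hG k KK hk S N hSN hKK hrow μ hμ E hN hexp om o
      (fun r => (hoF r).1) (fun r j hj => (hoF r).2 j (mem_union_right _ hj))
    have h2 : (∏ r, ∏ e ∈ EP, HH G M (x0 e.1) (y (o r) e.2)) * ∏ l ∈ Mm, ∑ v ∈ W l, rw' o l v ≤
        (∏ r, f (o r)) * ∏ l ∈ Mm, |∑ v ∈ W l, rw' o l v| := by
      refine (le_abs_self _).trans (le_of_eq ?_)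
      rw [abs_mul, abs_prod, abs_prod]
      congr 1
      refine prod_congr rfl fun r _ => ?_
      rw [abs_prod]
    calc τ ^ Gs.card * ((∏ r, ∏ e ∈ EP, HH G M (x0 e.1) (y (o r) e.2)) *
          ∏ l ∈ Mm, ∑ v ∈ W l, rw' o l v)
        ≤ τ ^ Gs.card * ((∏ r, f (o r)) * ∏ l ∈ Mm, |∑ v ∈ W l, rw' o l v|) :=
          mul_le_mul_of_nonneg_left h2 (by positivity)
      _ = (∏ r, f (o r)) * (τ ^ Gs.card * ∏ l ∈ Mm, |∑ v ∈ W l, rw' o l v|) := by ring
      _ ≤ (∏ r, f (o r)) * ((∏ l ∈ Mm, ((W l).card : ℝ)) * C ^ Mm.card *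
            (M ^ Mm.card) ^ ((2 * k - 1) * S.card) * ∏ r, (M ^ Mm.card * bl) ^ (Rep y N o r).card) :=
          mul_le_mul_of_nonneg_left h1 (prod_nonneg fun r _ => hf0 _)
      _ = _ := by
          rw [prod_mul_distrib]
          ring
  -- the sum over the copies
  have hseq := seq_sum y N F (2 * k) f (fun o _ => hf0 o) La hLa1
    (O.card * (X * (M ^ Pr.card * th) ^ S.card)) (by
      intro B hB
      refine (copy_bound hM hη hth hO hsp hx A S N om EP hEPP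
        (fun e he => hEA e (mem_filter.1 he).1) hAS hAN hSN hLa1 hLath B).trans ?_
      refine mul_le_mul_of_nonneg_left ?_ hc0.le
      rw [hX]
      have e1 : (3 : ℝ) ^ EP.card ≤ 3 ^ E.card :=
        pow_le_pow_right₀ (by norm_num) (card_le_card (filter_subset _ _))
      have e2 : (1 + (B.card : ℝ)) ^ g ≤ (1 + 2 * k * g) ^ g := by
        refine pow_le_pow_left₀ (by positivity) ?_ _
        have : (B.card : ℝ) ≤ ((2 * k * g : ℕ) : ℝ) := by exact_mod_cast hB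
        push_cast at this
        linarith
      have e3 : (0 : ℝ) ≤ (M ^ Pr.card * th) ^ S.card := by positivity
      refine mul_le_mul_of_nonneg_right ?_ e3
      refine mul_le_mul_of_nonneg_right ?_ (by positivity)
      exact mul_le_mul e1 e2 (by positivity) (by positivity))
  -- the bracket
  have hbr : (M ^ Mm.card) ^ ((2 * k - 1) * S.card) * ((M ^ Pr.card * th) ^ S.card) ^ (2 * k) ≤ 1 := by
    have e1 : (M ^ Mm.card) ^ ((2 * k - 1) * S.card) ≤ (M ^ Mm.card) ^ (S.card * (2 * k)) := by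
      refine pow_le_pow_right₀ (one_le_pow₀ hM) ?_
      rw [mul_comm]
      exact Nat.mul_le_mul_left _ (by omega)
    have e2 : M ^ Mm.card * (M ^ Pr.card * th) ≤ 1 := by
      refine le_trans ?_ hcr
      have e3 : M ^ Mm.card * (M ^ Pr.card * th) = 1 * M ^ (Pr.card + Mm.card) * th := by
        rw [pow_add]; ring
      rw [e3]
      exact mul_le_mul_of_nonneg_right (mul_le_mul_of_nonneg_right hbl (by positivity)) hth.le
    calc (M ^ Mm.card) ^ ((2 * k - 1) * S.card) * ((M ^ Pr.card * th) ^ S.card) ^ (2 * k)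
        ≤ (M ^ Mm.card) ^ (S.card * (2 * k)) * ((M ^ Pr.card * th) ^ S.card) ^ (2 * k) :=
          mul_le_mul_of_nonneg_right e1 (by positivity)
      _ = (M ^ Mm.card * (M ^ Pr.card * th)) ^ (S.card * (2 * k)) := by
          rw [← pow_mul (M ^ Pr.card * th), ← mul_pow]
      _ ≤ 1 := pow_le_one₀ (by positivity) e2
  have hpW : (0 : ℝ) ≤ ∏ l ∈ Mm, ((W l).card : ℝ) := prod_nonneg fun _ _ => Nat.cast_nonneg _
  have hK0 : (0 : ℝ) ≤ (∏ l ∈ Mm, ((W l).card : ℝ)) * C ^ Mm.card *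
      (M ^ Mm.card) ^ ((2 * k - 1) * S.card) :=
    mul_nonneg (mul_nonneg hpW (pow_nonneg hC0 _)) (pow_nonneg (pow_nonneg hM0 _) _)
  rw [hsum, ← mul_div_assoc, div_le_iff₀ (pow_pos hc0 _), mul_sum]
  calc ∑ o ∈ Fintype.piFinset (fun _ : Fin (2 * k) => F),
        τ ^ Gs.card * ((∏ r, ∏ e ∈ EP, HH G M (x0 e.1) (y (o r) e.2)) *
          ∏ l ∈ Mm, ∑ v ∈ W l, rw' o l v)
      ≤ ∑ o ∈ Fintype.piFinset (fun _ : Fin (2 * k) => F),
          ((∏ l ∈ Mm, ((W l).card : ℝ)) * C ^ Mm.card * (M ^ Mm.card) ^ ((2 * k - 1) * S.card)) *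
            ∏ r, (f (o r) * La ^ (Rep y N o r).card) := sum_le_sum hone
    _ = ((∏ l ∈ Mm, ((W l).card : ℝ)) * C ^ Mm.card * (M ^ Mm.card) ^ ((2 * k - 1) * S.card)) *
          ∑ o ∈ Fintype.piFinset (fun _ : Fin (2 * k) => F),
            ∏ r, (f (o r) * La ^ (Rep y N o r).card) := by rw [mul_sum]
    _ ≤ ((∏ l ∈ Mm, ((W l).card : ℝ)) * C ^ Mm.card * (M ^ Mm.card) ^ ((2 * k - 1) * S.card)) *
          (O.card * (X * (M ^ Pr.card * th) ^ S.card)) ^ (2 * k) :=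
        mul_le_mul_of_nonneg_left hseq hK0
    _ = ((∏ l ∈ Mm, ((W l).card : ℝ)) * (C ^ Mm.card * X ^ (2 * k)) * (O.card : ℝ) ^ (2 * k)) *
          ((M ^ Mm.card) ^ ((2 * k - 1) * S.card) * ((M ^ Pr.card * th) ^ S.card) ^ (2 * k)) := by
        rw [mul_pow, mul_pow]; ring
    _ ≤ ((∏ l ∈ Mm, ((W l).card : ℝ)) * (C ^ Mm.card * X ^ (2 * k)) * (O.card : ℝ) ^ (2 * k)) * 1 :=
        mul_le_mul_of_nonneg_left hbr (mul_nonneg (mul_nonneg hpW
          (mul_nonneg (pow_nonneg hC0 _) (pow_nonneg hX0 _))) (pow_nonneg hc0.le _))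
    _ = _ := by ring

end Pool.Agent.H82.RL
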