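/-
ROW Ev (about 120 lines). Markov for one stage. Q := Fintype.piFinset (fun j => if j in S then Out else {q j}), #Q = #Out^#S.
PROOF. Let EV be the set on the left, T := moment bound = prodW C^#Mm (..)^(2k). For x in EV: (eta th^#A)^(2k) <= M^(#T2 #S 2k) (sum_{om in Q} |ZZ|)^(2k) <= M^(2k #T2 #S) #Q^(2k-1) sum_{om in Q} ZZ^(2k)
 (Real power mean: inner_le_nnorm.. or Finset.inner..; in Mathlib: Real.pow_sum_div_card_le_sum_pow / inner power mean; the power is even, so |ZZ|^(2k) = ZZ^(2k)). Sum over x, moment for every om: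
 tau^#Gs #EV (eta th^#A)^(2k) <= M^(2k #T2 #S) #Q^(2k) prodW C^#Mm (3^#E (1+2kg)^g th^#A)^(2k). Divide by (eta th^#A)^(2k): tau^#Gs #EV <= prodW (#Out M^#T2)^(2k #S) * [C^#Mm (3^#E (1+2kg)^g/eta)^(2k)] <= prodW h^(902 k #S) h.
 hpay: 902 k #S <= 902*5/176 #Gs <= 26 #Gs (natural numbers: 176*(902 k #S) <= 902*5 #Gs <= 176*26 #Gs). tau >= h^100, #Gs >= 1: h^(100 #Gs) #EV <= prodW h^(27 #Gs), so h^(72 #Gs) #EV <= prodW (h >= 1; divide by h^(28 #Gs)).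
-/
import Pool.Agent.H82.RL.Mom

set_option autoImplicit false
set_option linter.unusedSectionVars false

open Finset

namespace Pool.Agent.H82.RL

variable {ν ι : Type} [Fintype ν] [DecidableEq ν] {L g : ℕ}

theorem Ev_num {G kS k : ℕ} {h τ P Nn X c ηA : ℝ} (hh : 1 ≤ h) (hτh : h ^ 100 ≤ τ) (hG1 : 1 ≤ G)
    (hpay : 176 * kS ≤ 5 * G) (hP : 0 ≤ P) (hN : 0 ≤ Nn) (hηA : 0 < ηA)
    (hX : X ≤ h ^ (902 * kS)) (hc : c ≤ h * ηA ^ (2 * k)) (hc0 : 0 ≤ c)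
    (hmain : τ ^ G * (Nn * ηA ^ (2 * k)) ≤ X * (P * c)) :
    h ^ (72 * G) * Nn ≤ P := by
  have h0 : (0 : ℝ) < h := by linarith
  have hη2 : 0 < ηA ^ (2 * k) := pow_pos hηA _
  have e1 : h ^ (100 * G) ≤ τ ^ G := by
    rw [pow_mul]; exact pow_le_pow_left₀ (by positivity) hτh G
  have e2 : X ≤ h ^ (26 * G) := hX.trans (pow_le_pow_right₀ hh (by omega))
  have e3 : X * (P * c) ≤ h ^ (26 * G) * (P * (h * ηA ^ (2 * k))) := by
    apply mul_le_mul e2 _ (by positivity) (by positivity)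
    exact mul_le_mul_of_nonneg_left hc hP
  have e4 : h ^ (100 * G) * (Nn * ηA ^ (2 * k)) ≤ h ^ (26 * G) * (P * (h * ηA ^ (2 * k))) :=
    (mul_le_mul_of_nonneg_right e1 (by positivity)).trans (hmain.trans e3)
  have e5 : h ^ (100 * G) * Nn ≤ h ^ (26 * G) * (P * h) := by
    have : (h ^ (100 * G) * Nn) * ηA ^ (2 * k) ≤ (h ^ (26 * G) * (P * h)) * ηA ^ (2 * k) := by
      calc (h ^ (100 * G) * Nn) * ηA ^ (2 * k) = h ^ (100 * G) * (Nn * ηA ^ (2 * k)) := by ring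
        _ ≤ _ := e4
        _ = _ := by ring
    exact le_of_mul_le_mul_right this hη2
  have e6 : h ^ (26 * G) * (P * h) ≤ h ^ (28 * G) * P := by
    have : h ^ (26 * G) * (P * h) = h ^ (26 * G + 1) * P := by ring
    rw [this]
    exact mul_le_mul_of_nonneg_right (pow_le_pow_right₀ hh (by omega)) hP
  have e7 : h ^ (28 * G) * (h ^ (72 * G) * Nn) ≤ h ^ (28 * G) * P := by
    have : h ^ (28 * G) * (h ^ (72 * G) * Nn) = h ^ (100 * G) * Nn := by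
      rw [← mul_assoc, ← pow_add]; congr 2; omega
    rw [this]; exact e5.trans e6
  exact le_of_mul_le_mul_left e7 (by positivity)

theorem Ev_markov {α β : Type} (B : Finset α) (Q : Finset β) (Z : β → α → ℝ) (a t : ℝ) (k : ℕ)
    (hk : 1 ≤ k) (ha : 0 ≤ a) (ht : 0 ≤ t) (EV : Finset α) (hEV : EV ⊆ B)
    (hlt : ∀ x ∈ EV, a < t * ∑ om ∈ Q, |Z om x|) (D τG : ℝ) (hτ : 0 ≤ τG)
    (hm : ∀ om ∈ Q, τG * ∑ x ∈ B, Z om x ^ (2 * k) ≤ D) :
    τG * (EV.card * a ^ (2 * k)) ≤ (t * Q.card) ^ (2 * k) * D := by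
  obtain ⟨k', rfl⟩ : ∃ k', k = k' + 1 := ⟨k - 1, by omega⟩
  have hev : ∀ z : ℝ, |z| ^ (2 * (k' + 1)) = z ^ (2 * (k' + 1)) := fun z => by
    rw [pow_mul, pow_mul, sq_abs]
  have e1 : ∀ x ∈ EV, a ^ (2 * (k' + 1)) ≤
      t ^ (2 * (k' + 1)) * ((Q.card : ℝ) ^ (2 * k' + 1) * ∑ om ∈ Q, Z om x ^ (2 * (k' + 1))) := by
    intro x hx
    have h1 : a ^ (2 * (k' + 1)) ≤ (t * ∑ om ∈ Q, |Z om x|) ^ (2 * (k' + 1)) :=
      pow_le_pow_left₀ ha (hlt x hx).le _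
    refine h1.trans ?_
    rw [mul_pow]
    refine mul_le_mul_of_nonneg_left ?_ (by positivity)
    have h2 := pow_sum_le_card_mul_sum_pow (s := Q) (f := fun om => |Z om x|)
      (fun i _ => abs_nonneg _) (2 * k' + 1)
    have e : 2 * k' + 1 + 1 = 2 * (k' + 1) := by ring
    rw [e] at h2
    simpa only [hev] using h2
  calc τG * (EV.card * a ^ (2 * (k' + 1))) = τG * ∑ x ∈ EV, a ^ (2 * (k' + 1)) := by
        rw [sum_const, nsmul_eq_mul]
    _ ≤ τG * ∑ x ∈ EV, t ^ (2 * (k' + 1)) *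
          ((Q.card : ℝ) ^ (2 * k' + 1) * ∑ om ∈ Q, Z om x ^ (2 * (k' + 1))) :=
        mul_le_mul_of_nonneg_left (sum_le_sum e1) hτ
    _ ≤ τG * ∑ x ∈ B, t ^ (2 * (k' + 1)) *
          ((Q.card : ℝ) ^ (2 * k' + 1) * ∑ om ∈ Q, Z om x ^ (2 * (k' + 1))) := by
        refine mul_le_mul_of_nonneg_left (sum_le_sum_of_subset_of_nonneg hEV ?_) hτ
        intro x _ _
        have : ∀ om ∈ Q, 0 ≤ Z om x ^ (2 * (k' + 1)) := fun om _ => by
          rw [pow_mul]; positivity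
        have := sum_nonneg this
        positivity
    _ = t ^ (2 * (k' + 1)) * (Q.card : ℝ) ^ (2 * k' + 1) *
          ∑ om ∈ Q, τG * ∑ x ∈ B, Z om x ^ (2 * (k' + 1)) := by
        rw [← mul_sum, ← mul_sum, sum_comm, ← mul_sum]; ring
    _ ≤ t ^ (2 * (k' + 1)) * (Q.card : ℝ) ^ (2 * k' + 1) * ∑ om ∈ Q, D :=
        mul_le_mul_of_nonneg_left (sum_le_sum hm) (by positivity)
    _ = (t * Q.card) ^ (2 * (k' + 1)) * D := by
        rw [sum_const, nsmul_eq_mul, mul_pow]; ring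

open Classical in
theorem Ev_card (Out : Finset ν) (S : Finset (Fin g)) (q : Fin g → ν) :
    (Fintype.piFinset (fun j => if j ∈ S then Out else {q j})).card = Out.card ^ S.card := by
  rw [Fintype.card_piFinset]
  have : ∀ j : Fin g, (if j ∈ S then Out else {q j}).card = if j ∈ S then Out.card else 1 := by
    intro j; split_ifs <;> simp
  rw [prod_congr rfl fun j _ => this j, prod_ite_mem, univ_inter, prod_const]

open Classical in
theorem ev_bound {G : SimpleGraph ν} {M C τ bl η th : ℝ} (hM : 1 ≤ M) (hC : 1 ≤ C) (hτ : 1 ≤ τ)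
    (hbl : 1 ≤ bl) (hη0 : 0 < η) (hη : η ≤ 1) (hth : 0 < th) {O : Finset ι} {y : ι → Fin g → ν}
    (hO : O.Nonempty) (hinj : ∀ o ∈ O, Function.Injective (y o))
    (hsp : ∀ (A : Finset (Fin g)) (q : Fin g → ν), ((fam O y A q).card : ℝ) ≤ th ^ A.card * O.card)
    {Λ : Finset ν} (hΛ : ∀ o ∈ O, ∀ j, y o j ∈ Λ) (W : Fin L → Finset ν)
    (Pr Mm Gs : Finset (Fin L)) (hPM : Disjoint Pr Mm) (hG : Gs ⊆ Mm) (k KK : ℕ) (hk : 1 ≤ k)
    (A S N : Finset (Fin g)) (hAS : Disjoint A S) (hAN : Disjoint A N) (hSN : Disjoint S N)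
    (hKK : k * (S ∪ N).card ≤ KK)
    (hrow : ∀ l ∈ Mm, RowOK G M (W l) Λ (2 * KK) (2 * KK) C τ) (μ : ℕ) (hμ : τ ≤ bl ^ μ)
    (E : Finset (Fin L × Fin g)) (hE : ∀ e ∈ E, e.1 ∈ Pr ∪ Mm) (hEA : ∀ e ∈ E, e.2 ∉ A)
    (hN : ∀ e ∈ E, e.1 ∈ Mm → e.2 ∈ S ∪ N)
    (hexp : ∀ S' ⊆ Gs, μ * S'.card ≤ k * (NN (nb E) S' \ S).card)
    (x0 : Fin L → ν) (hx : NoVio G M O y η th Pr x0)
    (hcr : bl * M ^ (Pr.card + Mm.card) * th ≤ 1)
    (T2 : Finset (Fin L)) (Out : Finset ν) (q : Fin g → ν) (h : ℝ) (hh : 1 ≤ h)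
    (hτh : h ^ 100 ≤ τ) (hG1 : 1 ≤ Gs.card) (hpay : 176 * (k * S.card) ≤ 5 * Gs.card)
    (N1 : C ^ Mm.card * (3 ^ E.card * (1 + 2 * k * g) ^ g / η) ^ (2 * k) ≤ h)
    (N2 : Out.card * M ^ T2.card ≤ h ^ 451) :
    h ^ (72 * Gs.card) * (((box W Mm x0).filter fun x => η * th ^ A.card < M ^ (T2.card * S.card) *
      ∑ om ∈ Fintype.piFinset (fun j => if j ∈ S then Out else {q j}),
        |ZZ G M O y E (A ∪ S) om x|).card : ℝ) ≤ ∏ l ∈ Mm, ((W l).card : ℝ) := by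
  have hτ0 : 0 ≤ τ := by linarith
  have hM0 : (0 : ℝ) < M := by linarith
  have hP : 0 ≤ ∏ l ∈ Mm, ((W l).card : ℝ) := prod_nonneg fun l _ => Nat.cast_nonneg _
  have hηA : 0 < η * th ^ A.card := by positivity
  set c0 : ℝ := C ^ Mm.card * (3 ^ E.card * (1 + 2 * k * g) ^ g * th ^ A.card) ^ (2 * k) with hc0
  have hC0 : (0 : ℝ) < C := by linarith
  have hb : (0 : ℝ) < 1 + 2 * k * g := by positivity
  have hc00 : 0 ≤ c0 := by rw [hc0]; positivity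
  have hmk := Ev_markov (box W Mm x0) (Fintype.piFinset (fun j => if j ∈ S then Out else {q j}))
    (fun om x => ZZ G M O y E (A ∪ S) om x) (η * th ^ A.card) (M ^ (T2.card * S.card)) k hk
    hηA.le (by positivity) ((box W Mm x0).filter fun x => η * th ^ A.card < M ^ (T2.card * S.card) *
      ∑ om ∈ Fintype.piFinset (fun j => if j ∈ S then Out else {q j}),
        |ZZ G M O y E (A ∪ S) om x|) (filter_subset _ _)
    (fun x hx' => (mem_filter.1 hx').2)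
    ((∏ l ∈ Mm, ((W l).card : ℝ)) * c0) (τ ^ Gs.card) (by positivity)
    (fun om _ => moment hM hC hτ hbl hη hth hO hinj hsp hΛ W Pr Mm Gs hPM hG k KK hk A S N hAS hAN
      hSN hKK hrow μ hμ E hE hEA hN hexp x0 hx hcr om)
  rw [Ev_card] at hmk
  refine Ev_num (k := k) hh hτh hG1 hpay hP (Nat.cast_nonneg _) hηA ?_ ?_ hc00 hmk
  · have e1 : M ^ (T2.card * S.card) * ((Out.card ^ S.card : ℕ) : ℝ) =
        (Out.card * M ^ T2.card) ^ S.card := by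
      push_cast; rw [mul_pow, pow_mul]; ring
    rw [e1]
    calc (((Out.card : ℝ) * M ^ T2.card) ^ S.card) ^ (2 * k)
        ≤ ((h ^ 451) ^ S.card) ^ (2 * k) := by
          refine pow_le_pow_left₀ (by positivity) ?_ _
          exact pow_le_pow_left₀ (by positivity) N2 _
      _ = h ^ (902 * (k * S.card)) := by
          rw [← pow_mul, ← pow_mul]; congr 1; ring
  · rw [hc0]
    have e2 : C ^ Mm.card * (3 ^ E.card * (1 + 2 * (k : ℝ) * g) ^ g * th ^ A.card) ^ (2 * k) =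
        (C ^ Mm.card * (3 ^ E.card * (1 + 2 * (k : ℝ) * g) ^ g / η) ^ (2 * k)) *
          (η * th ^ A.card) ^ (2 * k) := by
      rw [mul_assoc (C ^ Mm.card), ← mul_pow]
      congr 2
      field_simp
    rw [e2]
    exact mul_le_mul_of_nonneg_right N1 (by positivity)

end Pool.Agent.H82.RL
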