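/-
ROW Spt (about 70 lines). The rows whose positions lie in S are split off.
PROOF. fam O y A q is the disjoint union over om in Q := Fintype.piFinset (fun j => if j in S then Out else {q j}) of fam O y (A u S) om (A, S disjoint, so om = q on A; for o in fam O y A q the only om is
 fun j => if j in S then y o j else q j; it is in Q by hout). For o in fam O y (A u S) om: prod_{e in E} HH = prod_{e in E, e.1 not in T2} HH * prod_{e in E, e.1 in T2} HH (x e.1) (om e.2) (hS: these positions lie in S), and
 the last product does not depend on o and has absolute value <= M^(#T2 * #S) (abs_HH_le, #{e in E | e.1 in T2} <= #(T2 x S), M >= 1). Triangle inequality.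
-/
import Pool.Agent.H82.RL.Defs

set_option autoImplicit false
set_option linter.unusedSectionVars false

open Finset

namespace Pool.Agent.H82.RL

variable {ν ι : Type} [Fintype ν] [DecidableEq ν] {L g : ℕ}

theorem split_bound {G : SimpleGraph ν} {M : ℝ} (hM : 1 ≤ M)
    {O : Finset ι} {y : ι → Fin g → ν} {Out : Finset ν} (hout : ∀ o ∈ O, ∀ j, y o j ∈ Out)
    (A S : Finset (Fin g)) (q : Fin g → ν) (hAS : Disjoint A S) (T2 : Finset (Fin L))
    (E : Finset (Fin L × Fin g)) (hS : ∀ e ∈ E, e.1 ∈ T2 → e.2 ∈ S) (x : Fin L → ν) :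
    |ZZ G M O y E A q x| ≤ M ^ (T2.card * S.card) *
      ∑ om ∈ Fintype.piFinset (fun j => if j ∈ S then Out else {q j}),
        |ZZ G M O y (E.filter fun e => e.1 ∉ T2) (A ∪ S) om x| := by
  have hM0 : (0 : ℝ) ≤ M := le_trans zero_le_one hM
  -- the value of the product over the rows `T2` is bounded
  have hc : ∀ om : Fin g → ν, |∏ e ∈ E.filter (fun e => ¬ e.1 ∉ T2), HH G M (x e.1) (om e.2)| ≤
      M ^ (T2.card * S.card) := by
    intro om
    rw [abs_prod]
    have h1 : ∏ e ∈ E.filter (fun e => ¬ e.1 ∉ T2), |HH G M (x e.1) (om e.2)| ≤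
        ∏ _e ∈ E.filter (fun e => ¬ e.1 ∉ T2), M :=
      prod_le_prod (fun e _ => abs_nonneg _) (fun e _ => abs_HH_le hM _ _)
    refine h1.trans ?_
    rw [prod_const]
    refine pow_le_pow_right₀ hM ?_
    rw [← card_product]
    refine card_le_card fun e he => ?_
    rw [mem_filter, not_not] at he
    exact mem_product.2 ⟨he.2, hS e he.1 he.2⟩
  -- the fibres
  let φ : ι → Fin g → ν := fun o j => if j ∈ S then y o j else q j
  have hφ : ∀ o ∈ fam O y A q, φ o ∈
      Fintype.piFinset (fun j => if j ∈ S then Out else {q j}) := by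
    intro o ho
    rw [Fintype.mem_piFinset]
    intro j
    simp only [φ]
    by_cases hj : j ∈ S
    · rw [if_pos hj, if_pos hj]
      exact hout o (fam_sub _ _ _ _ ho) j
    · rw [if_neg hj, if_neg hj]
      exact mem_singleton_self _
  have hO : (0 : ℝ) ≤ (O.card : ℝ) := Nat.cast_nonneg _
  unfold ZZ
  rw [← sum_fiberwise_of_maps_to hφ, sum_div, mul_sum]
  refine (abs_sum_le_sum_abs _ _).trans (sum_le_sum fun om hom => ?_)
  rw [Fintype.mem_piFinset] at hom
  have hom' : ∀ j, j ∉ S → om j = q j := by
    intro j hj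
    have h1 := hom j
    rw [if_neg hj, mem_singleton] at h1
    exact h1
  have hfib : (fam O y A q).filter (fun o => φ o = om) = fam O y (A ∪ S) om := by
    ext o
    rw [mem_filter, mem_fam, mem_fam]
    constructor
    · rintro ⟨⟨h1, h2⟩, h3⟩
      refine ⟨h1, fun j hj => ?_⟩
      rcases mem_union.1 hj with hj | hj
      · rw [h2 j hj, hom' j (fun h => disjoint_left.1 hAS hj h)]
      · have h4 := congrFun h3 j
        simp only [φ, if_pos hj] at h4
        exact h4
    · rintro ⟨h1, h2⟩
      refine ⟨⟨h1, fun j hj => ?_⟩, ?_⟩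
      · rw [h2 j (mem_union_left _ hj), hom' j (fun h => disjoint_left.1 hAS hj h)]
      · funext j
        simp only [φ]
        by_cases hj : j ∈ S
        · rw [if_pos hj, h2 j (mem_union_right _ hj)]
        · rw [if_neg hj, hom' j hj]
  rw [hfib]
  have hconst : ∀ o ∈ fam O y (A ∪ S) om,
      ∏ e ∈ E, HH G M (x e.1) (y o e.2) =
      (∏ e ∈ E.filter (fun e => e.1 ∉ T2), HH G M (x e.1) (y o e.2)) *
        ∏ e ∈ E.filter (fun e => ¬ e.1 ∉ T2), HH G M (x e.1) (om e.2) := by
    intro o ho
    have h2 := (mem_fam.1 ho).2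
    rw [← prod_filter_mul_prod_filter_not E (fun e => e.1 ∉ T2)]
    congr 1
    refine prod_congr rfl fun e he => ?_
    rw [mem_filter, not_not] at he
    rw [h2 e.2 (mem_union_right _ (hS e he.1 he.2))]
  rw [sum_congr rfl hconst, ← sum_mul, mul_div_right_comm, abs_mul, mul_comm]
  exact mul_le_mul_of_nonneg_right (hc om) (abs_nonneg _)

end Pool.Agent.H82.RL
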