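/-
ROW Clm (about 180 lines). The claim of section 3, Type I: all stages together.
PROOF. nbE := nb E, b0 := 1/(4 mu), T e := TT nbE b0 D T1 e (Chain.lean): TT_a: mu #S' <= D^e #(NN S' \ NN (T (e+1))), TT_b: D^e #NN(T (e+1)) <= mu #T(e+1) (multiply by mu; in N), nb nonempty on T1 because rws E = T1 u T2.
 paying_class (70.4 <= b0 (D-1) since D >= 282 mu + 1): parity p, I, all e in I paying: 2.2 D^e #NN(T(e+2)) <= #G_e/16, i.e. 176 D^e #NN(T (e+2)) <= 5 #G_e, and 3/8 #T1 <= sum_{I} #G_e, G_e = T e \ T(e+1).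
 Cond x := eta th^#A < |ZZ E A q x| and no violation at proper nonempty subsets of T1 u T2. iter (Box.lean) with c e = (h^(72 #G_e))^-1: result #{..} <= h^(-72 sum #G_e) prodW <= h^(-27 #T1) prodW.
 hstep for e in I and x: if #G_e = 0 then c e = 1, trivial (box_card). If the set is empty, trivial. Otherwise some x' in box W (T e \ T(e+2)) x and x'' in box W (T(e+2)) x' satisfy Cond x''. Pr := T2 u (T1 \ T e): x'' = x on Pr, Pr is a proper subset
 of T1 u T2 (T e nonempty), so NoVio Pr x (NoVio_congr). Mm := T e \ T(e+2), Gs := G_e, S := NN(T(e+2)), N := NN(T e) \ S, E' := E.filter (e.1 not in T(e+2)), k := D^e.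
 Every x' of the set satisfies the event of ev_bound: split_bound (Spt.lean) at x'' with T2 := T(e+2), and ZZ E' (A u S) om x'' = ZZ E' .. x' (HH_congr_x: rows of E' are not in T(e+2)).
 Hypotheses of ev_bound: A disjoint from S, N (hEA); D^e #NN(T e) <= KK: e = 0: #NN <= g <= KK; e+1: D^(e+1) #NN(T(e+1)) <= D mu #T(e+1) <= D mu t0 <= KK. hexp: NN (nb E') S' = NN (nb E) S' for S' in G_e (rows not in T(e+2)), and S in NN(T(e+1)).
 hcr: #Pr + #Mm <= #T1 + #T2, M >= 1. N1: #Mm <= t0, #E' <= L g, k <= KK (NN(T e) nonempty), C >= 1, 1/eta >= 1. N2: #T(e+2) <= t0.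
-/
import Pool.Agent.H82.RL.Ev
import Pool.Agent.H82.RL.Spt

set_option autoImplicit false
set_option linter.unusedSectionVars false

open Finset

namespace Pool.Agent.H82.RL

variable {ν ι : Type} [Fintype ν] [DecidableEq ν] {L g : ℕ}

private lemma Clm_card {α : Type} (s : Finset α) (p : α → Prop) (i1 i2 : DecidablePred p) :
    ((@Finset.filter α p i1 s).card : ℝ) ≤ ((@Finset.filter α p i2 s).card : ℝ) := by
  rw [Subsingleton.elim i1 i2]

private lemma Clm_pow_div {h : ℝ} (hh : 1 ≤ h) (a : ℕ) {s P : ℝ} (hs : h ^ a * s ≤ P) :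
    s ≤ (h ^ a)⁻¹ * P := by
  have h0 : 0 < h ^ a := by positivity
  rw [inv_mul_eq_div, le_div_iff₀ h0, mul_comm]
  exact hs

open Classical in
private theorem Clm_step {G : SimpleGraph ν} {M C τ bl η th h : ℝ} (hM : 1 ≤ M) (hC : 1 ≤ C)
    (hh : 1 ≤ h)
    (hτh : h ^ 100 ≤ τ) (hbl : 1 ≤ bl) (hη0 : 0 < η) (hη : η ≤ 1) (hth : 0 < th)
    {O : Finset ι} {y : ι → Fin g → ν} (hO : O.Nonempty)
    (hinj : ∀ o ∈ O, Function.Injective (y o))
    (hsp : ∀ (A : Finset (Fin g)) (q : Fin g → ν), ((fam O y A q).card : ℝ) ≤ th ^ A.card * O.card)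
    {Λ Out : Finset ν} (hΛ : ∀ o ∈ O, ∀ j, y o j ∈ Λ) (hOut : ∀ o ∈ O, ∀ j, y o j ∈ Out)
    (W : Fin L → Finset ν) (T1 T2 : Finset (Fin L)) (h12 : Disjoint T1 T2)
    (KK μ t0 : ℕ) (ht0 : T1.card ≤ t0)
    (hrow : ∀ l ∈ T1, RowOK G M (W l) Λ (2 * KK) (2 * KK) C τ) (hμ : τ ≤ bl ^ μ)
    (hcr : bl * M ^ (T1.card + T2.card) * th ≤ 1)
    (N1 : C ^ t0 * (3 ^ (L * g) * (1 + 2 * KK * g) ^ g / η) ^ (2 * KK) ≤ h)
    (N2 : Out.card * M ^ t0 ≤ h ^ 451)
    (E : Finset (Fin L × Fin g)) (hE : rws E = T1 ∪ T2) (A : Finset (Fin g))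
    (hEA : ∀ e ∈ E, e.2 ∉ A) (q : Fin g → ν)
    (Ta Tb Tc : Finset (Fin L)) (hTa : Ta ⊆ T1) (hTb : Tb ⊆ Ta) (hTc : Tc ⊆ Tb)
    (k : ℕ) (hk : 1 ≤ k)
    (hexp : ∀ S' ⊆ Ta \ Tb, μ * S'.card ≤ k * (NN (nb E) S' \ NN (nb E) Tb).card)
    (hkK : k * (NN (nb E) Ta).card ≤ KK)
    (hpay : 176 * (k * (NN (nb E) Tc).card) ≤ 5 * (Ta \ Tb).card) (x : Fin L → ν) :
    (((box W (Ta \ Tc) x).filter fun x' => ∃ x'' ∈ box W Tc x',
      (η * th ^ A.card < |ZZ G M O y E A q x''| ∧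
      ∀ T' ⊆ T1 ∪ T2, T' ≠ T1 ∪ T2 → T'.Nonempty → ¬ Vio G M O y η th T' x'')).card : ℝ) ≤
      (h ^ (72 * (Ta \ Tb).card))⁻¹ * ∏ l ∈ Ta \ Tc, ((W l).card : ℝ) := by
  have hTcTa : Tc ⊆ Ta := hTc.trans hTb
  rcases Nat.eq_zero_or_pos (Ta \ Tb).card with hG0 | hG1
  · rw [hG0, Nat.mul_zero, pow_zero, inv_one, one_mul]
    have h1 := box_card W (Ta \ Tc) x
    have h2 := card_filter_le (box W (Ta \ Tc) x) (fun x' => ∃ x'' ∈ box W Tc x',
      (η * th ^ A.card < |ZZ G M O y E A q x''| ∧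
      ∀ T' ⊆ T1 ∪ T2, T' ≠ T1 ∪ T2 → T'.Nonempty → ¬ Vio G M O y η th T' x''))
    rw [h1] at h2
    calc _ ≤ ((∏ l ∈ Ta \ Tc, (W l).card : ℕ) : ℝ) := by exact_mod_cast h2
      _ = _ := by push_cast; rfl
  have hTane : Ta.Nonempty := by
    obtain ⟨l, hl⟩ := card_pos.1 hG1
    exact ⟨l, (mem_sdiff.1 hl).1⟩
  by_cases hem : ∃ x' ∈ box W (Ta \ Tc) x, ∃ x'' ∈ box W Tc x',
      (η * th ^ A.card < |ZZ G M O y E A q x''| ∧
      ∀ T' ⊆ T1 ∪ T2, T' ≠ T1 ∪ T2 → T'.Nonempty → ¬ Vio G M O y η th T' x'')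
  swap
  · have h1 : ((box W (Ta \ Tc) x).filter fun x' => ∃ x'' ∈ box W Tc x',
      (η * th ^ A.card < |ZZ G M O y E A q x''| ∧
      ∀ T' ⊆ T1 ∪ T2, T' ≠ T1 ∪ T2 → T'.Nonempty → ¬ Vio G M O y η th T' x'')) = ∅ := by
      rw [filter_eq_empty_iff]
      intro x' hx' hx''
      exact hem ⟨x', hx', hx''⟩
    rw [h1, card_empty, Nat.cast_zero]
    positivity
  obtain ⟨z', hz', z'', hz'', hzZ, hzV⟩ := hem
  rw [mem_box] at hz' hz''
  -- the prefix
  set Pr : Finset (Fin L) := T2 ∪ (T1 \ Ta) with hPr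
  have hPrTa : ∀ l ∈ Pr, l ∉ Ta := by
    intro l hl
    rw [hPr, mem_union, mem_sdiff] at hl
    rcases hl with hl | hl
    · exact fun h => disjoint_left.1 h12 (hTa h) hl
    · exact hl.2
  have hzx : ∀ l ∈ Pr, z'' l = x l := by
    intro l hl
    have h1 := hPrTa l hl
    rw [hz''.2 l (fun h => h1 (hTcTa h)), hz'.2 l (fun h => h1 (mem_sdiff.1 h).1)]
  have hPrsub : Pr ⊆ T1 ∪ T2 := by
    intro l hl
    rw [hPr, mem_union, mem_sdiff] at hl
    rw [mem_union]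
    tauto
  have hPrne : ∀ T' ⊆ Pr, T' ≠ T1 ∪ T2 := by
    intro T' hT' heq
    obtain ⟨l, hl⟩ := hTane
    have h1 : l ∈ T' := by
      rw [heq]
      exact mem_union_left _ (hTa hl)
    exact hPrTa l (hT' h1) hl
  have hNo : NoVio G M O y η th Pr x := by
    refine NoVio_congr (x := z'') hzx ?_
    intro T' h1 h2
    exact hzV T' (h1.trans hPrsub) (hPrne T' h1) h2
  have hnbne : ∀ l ∈ T1, (nb E l).Nonempty := by
    intro l hl
    have h1 : l ∈ rws E := by rw [hE]; exact mem_union_left _ hl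
    obtain ⟨j, hj⟩ := mem_rws.1 h1
    exact ⟨j, mem_nb.2 hj⟩
  have hNNA : ∀ T : Finset (Fin L), Disjoint A (NN (nb E) T) := by
    intro T
    rw [disjoint_left]
    intro j hj hj'
    unfold NN at hj'
    rw [mem_biUnion] at hj'
    obtain ⟨l, _, hl⟩ := hj'
    exact hEA _ (mem_nb.1 hl) hj
  set S : Finset (Fin g) := NN (nb E) Tc with hS
  set N : Finset (Fin g) := NN (nb E) Ta \ S with hN
  have hSTa : S ⊆ NN (nb E) Ta := NN_mono _ hTcTa
  have hSN : S ∪ N = NN (nb E) Ta := by rw [hN]; exact union_sdiff_of_subset hSTa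
  set E' : Finset (Fin L × Fin g) := E.filter (fun e => e.1 ∉ Tc) with hE'
  have hkKK : k ≤ KK := by
    obtain ⟨l, hl⟩ := hTane
    obtain ⟨j, hj⟩ := hnbne l (hTa hl)
    have h1 : 1 ≤ (NN (nb E) Ta).card := card_pos.2 ⟨j, mem_biUnion.2 ⟨l, hl, hj⟩⟩
    calc k = k * 1 := (Nat.mul_one k).symm
      _ ≤ k * (NN (nb E) Ta).card := Nat.mul_le_mul_left _ h1
      _ ≤ KK := hkK
  have hMmT1 : (Ta \ Tc).card ≤ t0 := (card_le_card (sdiff_subset.trans hTa)).trans ht0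
  have hPM : Disjoint Pr (Ta \ Tc) := by
    rw [disjoint_left]
    intro l hl hl'
    exact hPrTa l hl (mem_sdiff.1 hl').1
  have hτ1 : 1 ≤ τ := le_trans (one_le_pow₀ hh) hτh
  have key := ev_bound (G := G) (M := M) (C := C) (τ := τ) (bl := bl) (η := η) (th := th) hM hC hτ1
    hbl hη0 hη hth (O := O) (y := y) hO hinj hsp (Λ := Λ) hΛ W Pr (Ta \ Tc) (Ta \ Tb) hPM
    (sdiff_subset_sdiff (Subset.refl _) hTc) k KK hk A S N (hNNA Tc)
    (disjoint_of_subset_right sdiff_subset (hNNA Ta)) disjoint_sdiff (by rw [hSN]; exact hkK)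
    (fun l hl => hrow l (hTa (mem_sdiff.1 hl).1)) μ hμ E' ?_ ?_ ?_ ?_ x hNo ?_ Tc Out q h hh hτh hG1
    hpay ?_ ?_
  · -- conclusion
    apply Clm_pow_div hh
    refine le_trans (mul_le_mul_of_nonneg_left ?_ (by positivity)) key
    have hsub : ((box W (Ta \ Tc) x).filter fun x' => ∃ x'' ∈ box W Tc x',
        (η * th ^ A.card < |ZZ G M O y E A q x''| ∧
        ∀ T' ⊆ T1 ∪ T2, T' ≠ T1 ∪ T2 → T'.Nonempty → ¬ Vio G M O y η th T' x'')) ⊆
        ((box W (Ta \ Tc) x).filter fun x => η * th ^ A.card < M ^ (Tc.card * S.card) *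
      ∑ om ∈ Fintype.piFinset (fun j => if j ∈ S then Out else {q j}),
        |ZZ G M O y E' (A ∪ S) om x|) := by
      intro x' hx'
      rw [mem_filter] at hx' ⊢
      refine ⟨hx'.1, ?_⟩
      obtain ⟨x'', hx''1, hx''2, -⟩ := hx'.2
      rw [mem_box] at hx''1
      refine lt_of_lt_of_le hx''2 ?_
      refine (split_bound hM hOut A S q (hNNA Tc) Tc E ?_ x'').trans ?_
      · intro e he he'
        exact mem_biUnion.2 ⟨e.1, he', mem_nb.2 he⟩
      · refine le_of_eq ?_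
        congr 1
        refine sum_congr rfl fun om _ => ?_
        rw [← hE', HH_congr_x (x := x'') (x' := x')]
        intro l hl
        obtain ⟨j, hj⟩ := mem_rws.1 hl
        exact hx''1.2 l (mem_filter.1 hj).2
    exact_mod_cast card_le_card hsub
  · -- rows of E'
    intro e he
    obtain ⟨he1, he2⟩ := mem_filter.1 he
    have h1 : e.1 ∈ rws E := mem_rws.2 ⟨e.2, he1⟩
    rw [hE, mem_union] at h1
    rw [mem_union, hPr, mem_union, mem_sdiff, mem_sdiff]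
    by_cases h3 : e.1 ∈ Ta
    · exact Or.inr ⟨h3, he2⟩
    · rcases h1 with h1 | h1
      · exact Or.inl (Or.inr ⟨h1, h3⟩)
      · exact Or.inl (Or.inl h1)
  · intro e he
    exact hEA e (mem_filter.1 he).1
  · intro e he he'
    rw [hSN]
    exact mem_biUnion.2 ⟨e.1, (mem_sdiff.1 he').1, mem_nb.2 (mem_filter.1 he).1⟩
  · -- expansion
    intro S' hS'
    refine (hexp S' hS').trans (Nat.mul_le_mul_left _ (card_le_card ?_))
    intro j hj
    rw [mem_sdiff] at hj ⊢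
    refine ⟨?_, fun h => hj.2 (NN_mono _ hTc h)⟩
    obtain ⟨l, hl, hlj⟩ := mem_biUnion.1 hj.1
    refine mem_biUnion.2 ⟨l, hl, mem_nb.2 (mem_filter.2 ⟨mem_nb.1 hlj, ?_⟩)⟩
    exact fun h => (mem_sdiff.1 (hS' hl)).2 (hTc h)
  · -- hcr
    refine le_trans ?_ hcr
    have h1 : Pr.card + (Ta \ Tc).card ≤ T1.card + T2.card := by
      rw [← card_union_of_disjoint hPM]
      refine (card_le_card (union_subset hPrsub ?_)).trans (card_union_le T1 T2)
      exact (sdiff_subset.trans hTa).trans subset_union_left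
    have h2 : M ^ (Pr.card + (Ta \ Tc).card) ≤ M ^ (T1.card + T2.card) := pow_le_pow_right₀ hM h1
    gcongr
  · -- N1
    refine le_trans ?_ N1
    have hE'c : E'.card ≤ L * g := by
      refine (card_le_card (filter_subset _ _)).trans ((card_le_univ E).trans ?_)
      rw [Fintype.card_prod, Fintype.card_fin, Fintype.card_fin]
    have hkr : (k : ℝ) ≤ KK := by exact_mod_cast hkKK
    have h1 : (3 : ℝ) ^ E'.card * (1 + 2 * k * g) ^ g / η ≤
        3 ^ (L * g) * (1 + 2 * KK * g) ^ g / η := by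
      have h3 : (3 : ℝ) ^ E'.card ≤ 3 ^ (L * g) := pow_le_pow_right₀ (by norm_num) hE'c
      gcongr
    have h2 : (1 : ℝ) ≤ 3 ^ (L * g) * (1 + 2 * KK * g) ^ g / η := by
      rw [le_div_iff₀ hη0, one_mul]
      refine hη.trans ?_
      have h3 : (1 : ℝ) ≤ 3 ^ (L * g) := one_le_pow₀ (by norm_num)
      have h4 : (1 : ℝ) ≤ (1 + 2 * KK * g) ^ g := one_le_pow₀ (by
        have : (0 : ℝ) ≤ 2 * KK * g := by positivity
        linarith)
      calc (1 : ℝ) = 1 * 1 := (one_mul 1).symm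
        _ ≤ _ := mul_le_mul h3 h4 zero_le_one (le_trans zero_le_one h3)
    have h0 : 0 ≤ (3 : ℝ) ^ E'.card * (1 + 2 * k * g) ^ g / η := by positivity
    calc C ^ (Ta \ Tc).card * (3 ^ E'.card * (1 + 2 * k * g) ^ g / η) ^ (2 * k)
        ≤ C ^ t0 * (3 ^ (L * g) * (1 + 2 * KK * g) ^ g / η) ^ (2 * k) := by
          have h5 : C ^ (Ta \ Tc).card ≤ C ^ t0 := pow_le_pow_right₀ hC hMmT1
          have h6 := pow_le_pow_left₀ h0 h1 (2 * k)
          exact mul_le_mul h5 h6 (pow_nonneg h0 _) (le_trans zero_le_one (one_le_pow₀ hC))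
      _ ≤ C ^ t0 * (3 ^ (L * g) * (1 + 2 * KK * g) ^ g / η) ^ (2 * KK) := by
          have h5 := pow_le_pow_right₀ h2 (Nat.mul_le_mul_left 2 hkKK)
          exact mul_le_mul_of_nonneg_left h5 (le_trans zero_le_one (one_le_pow₀ hC))
  · -- N2
    refine le_trans ?_ N2
    have h1 : Tc.card ≤ t0 := (card_le_card (hTcTa.trans hTa)).trans ht0
    have h2 : M ^ Tc.card ≤ M ^ t0 := pow_le_pow_right₀ hM h1
    exact mul_le_mul_of_nonneg_left h2 (by positivity)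

open Classical in
theorem claim {G : SimpleGraph ν} {M C τ bl η th h : ℝ} (hM : 1 ≤ M) (hC : 1 ≤ C) (hh : 1 ≤ h)
    (hτh : h ^ 100 ≤ τ) (hbl : 1 ≤ bl) (hη0 : 0 < η) (hη : η ≤ 1) (hth : 0 < th)
    {O : Finset ι} {y : ι → Fin g → ν} (hO : O.Nonempty)
    (hinj : ∀ o ∈ O, Function.Injective (y o))
    (hsp : ∀ (A : Finset (Fin g)) (q : Fin g → ν), ((fam O y A q).card : ℝ) ≤ th ^ A.card * O.card)
    {Λ Out : Finset ν} (hΛ : ∀ o ∈ O, ∀ j, y o j ∈ Λ) (hOut : ∀ o ∈ O, ∀ j, y o j ∈ Out)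
    (W : Fin L → Finset ν) (T1 T2 : Finset (Fin L)) (h12 : Disjoint T1 T2)
    (KK μ D t0 : ℕ) (hμ1 : 1 ≤ μ) (hD : 282 * μ + 1 ≤ D) (ht0 : T1.card ≤ t0)
    (hKD : D * μ * t0 ≤ KK) (hgK : g ≤ KK)
    (hrow : ∀ l ∈ T1, RowOK G M (W l) Λ (2 * KK) (2 * KK) C τ) (hμ : τ ≤ bl ^ μ)
    (hcr : bl * M ^ (T1.card + T2.card) * th ≤ 1)
    (N1 : C ^ t0 * (3 ^ (L * g) * (1 + 2 * KK * g) ^ g / η) ^ (2 * KK) ≤ h)
    (N2 : Out.card * M ^ t0 ≤ h ^ 451)
    (E : Finset (Fin L × Fin g)) (hE : rws E = T1 ∪ T2) (A : Finset (Fin g))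
    (hEA : ∀ e ∈ E, e.2 ∉ A) (q : Fin g → ν) (x0 : Fin L → ν) :
    (((box W T1 x0).filter fun x => η * th ^ A.card < |ZZ G M O y E A q x| ∧
      ∀ T' ⊆ T1 ∪ T2, T' ≠ T1 ∪ T2 → T'.Nonempty → ¬ Vio G M O y η th T' x).card : ℝ) *
      h ^ (27 * T1.card) ≤ ∏ l ∈ T1, ((W l).card : ℝ) := by
  have hμr : (1 : ℝ) ≤ μ := by exact_mod_cast hμ1
  have hμ0 : (0 : ℝ) < μ := by linarith
  have hDr : 282 * (μ : ℝ) + 1 ≤ D := by exact_mod_cast hD
  set b0 : ℝ := 1 / (4 * μ) with hb0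
  have hb0pos : 0 < b0 := by rw [hb0]; positivity
  have h4b : 4 * b0 = 1 / μ := by rw [hb0]; field_simp
  set T : ℕ → Finset (Fin L) := TT (nb E) b0 D T1 with hT
  have hT0 : T 0 = T1 := rfl
  have hTs : ∀ e, T (e + 1) ⊆ T e := fun e => TT_succ_sub (nb E) b0 D T1 e
  have hTsub : ∀ e, T e ⊆ T1 := fun e => TT_sub (nb E) b0 D T1 e
  have hnbne : ∀ l ∈ T1, (nb E l).Nonempty := by
    intro l hl
    have h1 : l ∈ rws E := by rw [hE]; exact mem_union_left _ hl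
    obtain ⟨j, hj⟩ := mem_rws.1 h1
    exact ⟨j, mem_nb.2 hj⟩
  have hD70 : 70.4 ≤ b0 * ((D : ℝ) - 1) := by
    rw [hb0, div_mul_eq_mul_div, le_div_iff₀ (by positivity)]
    linarith
  obtain ⟨c, -, I, hI, hIsum⟩ := paying_class (nb E) b0 D T1 hnbne hb0pos hD70
  -- facts in ℕ
  have hTa : ∀ e, ∀ S' ⊆ T e \ T (e + 1), μ * S'.card ≤ D ^ e *
      (NN (nb E) S' \ NN (nb E) (T (e + 1))).card := by
    intro e S' hS'
    have h1 := TT_a (nb E) b0 D T1 e S' hS'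
    rw [h4b] at h1
    have h2 : (μ : ℝ) * S'.card ≤ (D : ℝ) ^ e * (NN (nb E) S' \ NN (nb E) (T (e + 1))).card := by
      have h3 := mul_le_mul_of_nonneg_left h1 hμ0.le
      have h4 : (μ : ℝ) * (1 / μ * (D : ℝ) ^ e *
          (NN (nb E) S' \ NN (nb E) (TT (nb E) b0 D T1 (e + 1))).card) = (D : ℝ) ^ e *
          (NN (nb E) S' \ NN (nb E) (TT (nb E) b0 D T1 (e + 1))).card := by
        field_simp
      rw [h4] at h3
      exact h3
    exact_mod_cast h2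
  have hTb : ∀ e, D ^ e * (NN (nb E) (T (e + 1))).card ≤ μ * (T (e + 1)).card := by
    intro e
    have h1 := TT_b (nb E) b0 D T1 e
    rw [h4b] at h1
    have h2 : (D : ℝ) ^ e * (NN (nb E) (T (e + 1))).card ≤ (μ : ℝ) * (T (e + 1)).card := by
      have h3 := mul_le_mul_of_nonneg_left h1 hμ0.le
      have h4 : (μ : ℝ) * (1 / μ * (D : ℝ) ^ e *
          (NN (nb E) (TT (nb E) b0 D T1 (e + 1))).card) = (D : ℝ) ^ e *
          (NN (nb E) (TT (nb E) b0 D T1 (e + 1))).card := by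
        field_simp
      rw [h4] at h3
      exact h3
    exact_mod_cast h2
  have hkK : ∀ e, D ^ e * (NN (nb E) (T e)).card ≤ KK := by
    intro e
    rcases e with _ | e
    · rw [pow_zero, one_mul]
      refine le_trans ((card_le_univ _).trans ?_) hgK
      rw [Fintype.card_fin]
    · calc D ^ (e + 1) * (NN (nb E) (T (e + 1))).card
          = D * (D ^ e * (NN (nb E) (T (e + 1))).card) := by ring
        _ ≤ D * (μ * (T (e + 1)).card) := Nat.mul_le_mul_left _ (hTb e)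
        _ ≤ D * (μ * t0) := Nat.mul_le_mul_left _ (Nat.mul_le_mul_left _
            ((card_le_card (hTsub _)).trans ht0))
        _ = D * μ * t0 := by ring
        _ ≤ KK := hKD
  have hit := iter W T hTs I c (fun e he => (hI e he).1)
    (fun e => (h ^ (72 * (T e \ T (e + 1)).card))⁻¹) (fun e _ => by positivity)
    (fun x => η * th ^ A.card < |ZZ G M O y E A q x| ∧
      ∀ T' ⊆ T1 ∪ T2, T' ≠ T1 ∪ T2 → T'.Nonempty → ¬ Vio G M O y η th T' x) x0 ?_
  · rw [hT0] at hit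
    set F : ℝ := (((box W T1 x0).filter fun x => η * th ^ A.card < |ZZ G M O y E A q x| ∧
      ∀ T' ⊆ T1 ∪ T2, T' ≠ T1 ∪ T2 → T'.Nonempty → ¬ Vio G M O y η th T' x).card : ℝ) with hF
    have hF0 : 0 ≤ F := Nat.cast_nonneg _
    have h1 : ∏ e ∈ I, (h ^ (72 * (T e \ T (e + 1)).card))⁻¹ =
        (h ^ (∑ e ∈ I, 72 * (T e \ T (e + 1)).card))⁻¹ := by
      rw [prod_inv_distrib, prod_pow_eq_pow_sum]
    rw [h1] at hit
    have h2 : 27 * T1.card ≤ ∑ e ∈ I, 72 * (T e \ T (e + 1)).card := by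
      have h3 : (27 : ℝ) * T1.card ≤ ∑ e ∈ I, 72 * ((T e \ T (e + 1)).card : ℝ) := by
        rw [← mul_sum]
        have h4 := mul_le_mul_of_nonneg_left hIsum (by norm_num : (0 : ℝ) ≤ 72)
        refine le_trans (le_of_eq ?_) h4
        ring
      exact_mod_cast h3
    have hpos : 0 < h ^ (∑ e ∈ I, 72 * (T e \ T (e + 1)).card) := by positivity
    rw [inv_mul_eq_div, le_div_iff₀ hpos] at hit
    refine le_trans (mul_le_mul_of_nonneg_left (pow_le_pow_right₀ hh h2) hF0) ?_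
    exact le_trans (mul_le_mul_of_nonneg_right (Clm_card _ _ _ _) hpos.le) hit
  · intro e he x _
    have hP := (hI e he).2
    unfold Paying at hP
    have hpay : 176 * (D ^ e * (NN (nb E) (T (e + 2))).card) ≤ 5 * (T e \ T (e + 1)).card := by
      have h1 : (176 : ℝ) * ((D : ℝ) ^ e * (NN (nb E) (T (e + 2))).card) ≤
          5 * (T e \ T (e + 1)).card := by
        linarith
      exact_mod_cast h1
    have hst := Clm_step hM hC hh hτh hbl hη0 hη hth hO hinj hsp hΛ hOut W T1 T2 h12 KK μ t0 ht0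
      hrow hμ hcr N1 N2 E hE A hEA q (T e) (T (e + 1)) (T (e + 2)) (hTsub e) (hTs e) (hTs (e + 1))
      (D ^ e) (Nat.one_le_pow _ _ (by omega)) (hTa e) (hkK e) hpay x
    exact le_trans (Clm_card _ _ _ _) hst

end Pool.Agent.H82.RL
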