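/-
ROW Nat (about 200 lines). Counting the choices on the rows T, with row-dependent outside letters D i.
PROOF. natD_bounds: copy Cnt_step, Cnt_nx_card, Cnt_nx_dis, Cnt_bounds of H49/RL/Cnt.lean with `if i in T then S else ∅` replaced by `D i` (there Cnt_pa P U α Φ T S D; here natD P U α Φ D T: induction over the set T of chosen rows, insert i T).
natD_le: from natD_bounds, upper bound for D, lower bound for D = ∅ (natT), 8^t * 8^t = 64^t; cancel c.p^(C(u,2)), (n p ..) > 0.
nat_card: natD_bounds with D = ∅ and W L u φ = n^u p^(C(u,2)) / p^(φ (L - u)); t + u <= L (T, U disjoint) (compare Cnt_W, Cn3).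
nat_fib: z ↦ (fun i => if i ∈ T2 then z i else α i) has values in natT T2, the fibre over z2 is (natT P (U ∪ T2) z2 Φ T1): card_eq_sum_card_fiberwise + card_congr (the fibre is equal to it as a set of functions).
nat_sum: for z2 in natT T2: P.Val (U ∪ T2) z2 Φ; every factor is <= 8 n p^(φ + u + t2) (up: the set Φ ∪ image has exactly φ + u + t2 elements, at most 4 L, disjoint from P.V l), and natT P (U ∪ T2) z2 Φ T1 >= 8^-t1 n^t1 p^(φ t1 + (u + t2) t1 + C(t1,2)) by natD_bounds (lower), as C(a + t1, 2) = C(a, 2) + a t1 + C(t1, 2). Sum with nat_fib.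
cell_fib: fibre over the projection to the rows T.
-/
import Pool.Agent.H82.RL.Par

set_option autoImplicit false
set_option linter.unusedSectionVars false

open Finset

namespace Pool.Agent.H82.RL

open Pool.Agent.H49.RG (nbr cell pts)
open Pool.Agent.H49.RL (Pl)

variable {ν ι : Type} [Fintype ν] [DecidableEq ν] {L g : ℕ}

/-- The vertices the next letter has to be adjacent to. -/
def Nat_nx (z : Fin L → ν) (V : Finset (Fin L)) (Φ S : Finset ν) : Finset ν := V.image z ∪ (Φ ∪ S)

theorem Nat_step (P : Pl ν L) (U : Finset (Fin L)) (α : Fin L → ν) (Φ : Finset ν)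
    (D : Fin L → Finset ν) (T : Finset (Fin L)) (i : Fin L) (hiU : i ∉ U) (hiT : i ∉ T) :
    (natD P U α Φ D (insert i T)).card = ∑ z ∈ natD P U α Φ D T,
      (nbr P.G (P.V i) (Nat_nx z (U ∪ T) Φ (D i))).card := by
  classical
  rw [← card_sigma]
  have hne : ∀ j ∈ U ∪ T, j ≠ i := by
    rintro j hj rfl
    rcases mem_union.1 hj with h | h
    · exact hiU h
    · exact hiT h
  have hsub : ∀ j ∈ U ∪ T, j ∈ U ∪ insert i T := by
    intro j hj
    rcases mem_union.1 hj with h | h
    · exact mem_union_left _ h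
    · exact mem_union_right _ (mem_insert_of_mem h)
  have hmem : ∀ j ∈ U ∪ insert i T, j = i ∨ j ∈ U ∪ T := by
    intro j hj
    rcases mem_union.1 hj with h | h
    · exact Or.inr (mem_union_left _ h)
    · rcases mem_insert.1 h with h | h
      · exact Or.inl h
      · exact Or.inr (mem_union_right _ h)
  have hi : i ∈ U ∪ insert i T := mem_union_right _ (mem_insert_self i T)
  refine (card_bij (fun x _ => Function.update x.1 i x.2) ?_ ?_ ?_).symm
  · rintro ⟨z, v⟩ hx
    rw [mem_sigma, H49.RG.mem_nbr] at hx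
    obtain ⟨hz, hv, hc⟩ := hx
    simp only at hz hc hv
    rw [mem_natD] at hz ⊢
    obtain ⟨h1, h2, h3, h4, h5⟩ := hz
    simp only
    have hci : ∀ j ∈ U ∪ T, P.G.Adj v (z j) := fun j hj =>
      hc (z j) (mem_union_left _ (mem_image_of_mem _ hj))
    refine ⟨fun j hj => ?_, fun j hj => ?_, fun j hj l hl hjl => ?_, fun j hj s hs => ?_, fun j hj s hs => ?_⟩
    · have hji : j ≠ i := fun h => hj (h ▸ mem_insert_self i T)
      rw [Function.update_of_ne hji]
      exact h1 j fun h => hj (mem_insert_of_mem h)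
    · rcases hmem j hj with rfl | hj'
      · rw [Function.update_self]
        exact hv
      · rw [Function.update_of_ne (hne j hj')]
        exact h2 j hj'
    · rcases hmem j hj with rfl | hj' <;> rcases hmem l hl with rfl | hl'
      · exact absurd rfl hjl
      · rw [Function.update_self, Function.update_of_ne (hne l hl')]
        exact hci l hl'
      · rw [Function.update_self, Function.update_of_ne (hne j hj')]
        exact (hci j hj').symm
      · rw [Function.update_of_ne (hne l hl'), Function.update_of_ne (hne j hj')]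
        exact h3 j hj' l hl' hjl
    · rcases hmem j hj with rfl | hj'
      · rw [Function.update_self]
        exact hc s (mem_union_right _ (mem_union_left _ hs))
      · rw [Function.update_of_ne (hne j hj')]
        exact h4 j hj' s hs
    · rcases mem_insert.1 hj with rfl | hj'
      · rw [Function.update_self]
        exact hc s (mem_union_right _ (mem_union_right _ hs))
      · have hji : j ≠ i := by
          rintro rfl
          exact hiT hj'
        rw [Function.update_of_ne hji]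
        exact h5 j hj' s hs
  · rintro ⟨z, c⟩ hx ⟨z', c'⟩ hx' h
    rw [mem_sigma] at hx hx'
    simp only at h hx hx'
    rw [mem_natD] at hx hx'
    have h1 : c = c' := by
      have := congrFun h i
      simpa using this
    have h2 : z = z' := by
      funext j
      by_cases hj : j = i
      · subst hj
        rw [hx.1.1 j hiT, hx'.1.1 j hiT]
      · have := congrFun h j
        simpa [Function.update_of_ne hj] using this
    subst h1 h2
    rfl
  · intro z hz
    rw [mem_natD] at hz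
    obtain ⟨h1, h2, h3, h4, h5⟩ := hz
    refine ⟨⟨Function.update z i (α i), z i⟩, ?_, ?_⟩
    · rw [mem_sigma, H49.RG.mem_nbr]
      refine ⟨?_, h2 i hi, ?_⟩
      · rw [mem_natD]
        simp only
        refine ⟨fun j hj => ?_, fun j hj => ?_, fun j hj l hl hjl => ?_, fun j hj s hs => ?_,
          fun j hj s hs => ?_⟩
        · by_cases hji : j = i
          · subst hji
            rw [Function.update_self]
          · rw [Function.update_of_ne hji]
            refine h1 j fun h => ?_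
            rcases mem_insert.1 h with h | h
            · exact hji h
            · exact hj h
        · rw [Function.update_of_ne (hne j hj)]
          exact h2 j (hsub j hj)
        · rw [Function.update_of_ne (hne l hl), Function.update_of_ne (hne j hj)]
          exact h3 j (hsub j hj) l (hsub l hl) hjl
        · rw [Function.update_of_ne (hne j hj)]
          exact h4 j (hsub j hj) s hs
        · have hji : j ≠ i := by
            rintro rfl
            exact hiT hj
          rw [Function.update_of_ne hji]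
          exact h5 j (mem_insert_of_mem hj) s hs
      · simp only
        intro u hu
        unfold Nat_nx at hu
        rcases mem_union.1 hu with h | h
        · obtain ⟨j, hj, rfl⟩ := mem_image.1 h
          rw [Function.update_of_ne (hne j hj)]
          exact h3 i hi j (hsub j hj) (fun h => hne j hj h.symm)
        · rcases mem_union.1 h with h | h
          · exact h4 i hi u h
          · exact h5 i (mem_insert_self i T) u h
    · simp only
      funext j
      by_cases hj : j = i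
      · subst hj
        rw [Function.update_self]
      · rw [Function.update_of_ne hj, Function.update_of_ne hj]

theorem Nat_nx_card {P : Pl ν L} {c : H49.RL.Num} (h : P.OK c) (V : Finset (Fin L)) (Φ S : Finset ν)
    (hΦ : Φ ⊆ P.Out) (hS : S ⊆ P.Out) (hSΦ : Disjoint S Φ) {z : Fin L → ν}
    (h2 : ∀ i ∈ V, z i ∈ P.V i) :
    (Nat_nx z V Φ S).card = V.card + (Φ.card + S.card) := by
  unfold Nat_nx
  rw [card_union_of_disjoint, card_union_of_disjoint, card_image_of_injOn]
  · intro j hj l hl hjl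
    by_contra hne
    exact disjoint_left.1 (h.dis j l hne) (h2 j hj) (hjl ▸ h2 l hl)
  · exact hSΦ.symm
  · rw [disjoint_left]
    intro v hv hv'
    obtain ⟨j, hj, rfl⟩ := mem_image.1 hv
    have h3 : z j ∈ P.Out := by
      rcases mem_union.1 hv' with h4 | h4
      · exact hΦ h4
      · exact hS h4
    exact disjoint_left.1 (h.out j) h3 (h2 j hj)

theorem Nat_nx_dis {P : Pl ν L} {c : H49.RL.Num} (h : P.OK c) (V : Finset (Fin L)) (Φ S : Finset ν)
    (i : Fin L) (hi : i ∉ V) (hΦ : Φ ⊆ P.Out) (hS : S ⊆ P.Out) {z : Fin L → ν}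
    (h2 : ∀ i ∈ V, z i ∈ P.V i) :
    Disjoint (Nat_nx z V Φ S) (P.V i) := by
  rw [disjoint_left]
  intro v hv hv'
  unfold Nat_nx at hv
  rcases mem_union.1 hv with h4 | h4
  · obtain ⟨j, hj, rfl⟩ := mem_image.1 h4
    have hji : j ≠ i := by
      rintro rfl
      exact hi hj
    exact disjoint_left.1 (h.dis j i hji) (h2 j hj) hv'
  · have h5 : v ∈ P.Out := by
      rcases mem_union.1 h4 with h5 | h5
      · exact hΦ h5
      · exact hS h5
    exact disjoint_left.1 (h.out i) h5 hv'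

theorem natD_bounds {P : Pl ν L} {c : H49.RL.Num} {R : ℕ} (h : P.OK c) (hc : c.OK R L)
    (U : Finset (Fin L)) (α : Fin L → ν) (Φ : Finset ν) (D : Fin L → Finset ν) (hΦ : Φ ⊆ P.Out)
    (hD : ∀ i, D i ⊆ P.Out) (hDΦ : ∀ i, Disjoint (D i) Φ) (hs : ∀ i, Φ.card + (D i).card + L ≤ c.s)
    (T : Finset (Fin L)) (hUT : Disjoint U T) :
    ((natD P U α Φ D T).card : ℝ) * c.p ^ (U.card.choose 2) ≤
      8 ^ T.card * ((c.n : ℝ) ^ T.card *
        c.p ^ ((U.card + T.card).choose 2 + (Φ.card * T.card + ∑ i ∈ T, (D i).card))) ∧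
    (P.Val U α Φ →
      (c.n : ℝ) ^ T.card *
        c.p ^ ((U.card + T.card).choose 2 + (Φ.card * T.card + ∑ i ∈ T, (D i).card)) ≤
        8 ^ T.card * (((natD P U α Φ D T).card : ℝ) * c.p ^ (U.card.choose 2))) := by
  have hp : 0 ≤ c.p := hc.p_pos.le
  induction T using Finset.induction_on with
  | empty =>
    have h0 : (natD P U α Φ D ∅).card ≤ 1 := by
      rw [card_le_one]
      intro z hz z' hz'
      rw [mem_natD] at hz hz'
      funext i
      rw [hz.1 i (notMem_empty i), hz'.1 i (notMem_empty i)]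
    refine ⟨?_, fun hv => ?_⟩
    · have h2 : ((natD P U α Φ D ∅).card : ℝ) ≤ 1 := by exact_mod_cast h0
      simp only [card_empty, pow_zero, one_mul, add_zero, mul_zero, sum_empty]
      nlinarith [pow_nonneg hp (U.card.choose 2)]
    · have h1 : 1 ≤ (natD P U α Φ D ∅).card := by
        rw [Nat.one_le_iff_ne_zero, ← Nat.pos_iff_ne_zero, card_pos]
        refine ⟨α, ?_⟩
        rw [mem_natD, union_empty]
        exact ⟨fun i _ => rfl, hv.mem, hv.cl, fun i hi v hv' => hv.ad i hi v hv', fun i hi => absurd hi (notMem_empty i)⟩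
      have h2 : (1 : ℝ) ≤ ((natD P U α Φ D ∅).card : ℝ) := by exact_mod_cast h1
      simp only [card_empty, pow_zero, one_mul, add_zero, mul_zero, sum_empty]
      nlinarith [pow_nonneg hp (U.card.choose 2)]
  | insert i T hiT ih =>
    have hiU : i ∉ U := fun h => disjoint_left.1 hUT h (mem_insert_self i T)
    have hUT' : Disjoint U T := hUT.mono_right (subset_insert i T)
    obtain ⟨ih1, ih2⟩ := ih hUT'
    have hiUT : i ∉ U ∪ T := by
      intro h
      rcases mem_union.1 h with h | h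
      · exact hiU h
      · exact hiT h
    have hle : U.card + T.card ≤ L := by
      rw [← card_union_of_disjoint hUT']
      exact (card_le_univ _).trans (by rw [Fintype.card_fin])
    set e := U.card + T.card + (Φ.card + (D i).card) with he
    have hcard : ∀ z ∈ natD P U α Φ D T, (Nat_nx z (U ∪ T) Φ (D i)).card = e := by
      intro z hz
      rw [Nat_nx_card h (U ∪ T) Φ (D i) hΦ (hD i) (hDΦ i) (mem_natD.1 hz).2.1, card_union_of_disjoint hUT']
    have hes : e ≤ c.s := by
      have := hs i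
      omega
    have hreg : ∀ z ∈ natD P U α Φ D T, (c.n : ℝ) * c.p ^ e / 8 ≤
        ((nbr P.G (P.V i) (Nat_nx z (U ∪ T) Φ (D i))).card : ℝ) ∧
        ((nbr P.G (P.V i) (Nat_nx z (U ∪ T) Φ (D i))).card : ℝ) ≤ 8 * (c.n * c.p ^ e) := by
      intro z hz
      have hdis := Nat_nx_dis h (U ∪ T) Φ (D i) i hiUT hΦ (hD i) (mem_natD.1 hz).2.1
      have h1 := h.lo i (Nat_nx z (U ∪ T) Φ (D i)) (by rw [hcard z hz]; exact hes) hdis
      have h2 := h.up i (Nat_nx z (U ∪ T) Φ (D i)) (by rw [hcard z hz]; exact hes) hdis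
      rw [hcard z hz] at h1 h2
      exact ⟨h1, h2⟩
    have hstep := Nat_step P U α Φ D T i hiU hiT
    have hexp : (U.card + (insert i T).card).choose 2 +
        (Φ.card * (insert i T).card + ∑ j ∈ insert i T, (D j).card) =
        ((U.card + T.card).choose 2 + (Φ.card * T.card + ∑ j ∈ T, (D j).card)) + e := by
      rw [sum_insert hiT, card_insert_of_notMem hiT, ← add_assoc U.card T.card 1, H49.RL.Cnt_choose, he]
      ring
    have hn : (0 : ℝ) ≤ c.n := Nat.cast_nonneg _
    set e0 := (U.card + T.card).choose 2 + (Φ.card * T.card + ∑ j ∈ T, (D j).card) with he0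
    rw [hexp, card_insert_of_notMem hiT, pow_succ, pow_succ, pow_add, hstep]
    push_cast
    have hpe : 0 ≤ c.p ^ e := pow_nonneg hp e
    have hpU : 0 ≤ c.p ^ (U.card.choose 2) := pow_nonneg hp _
    refine ⟨?_, fun hal => ?_⟩
    · have h1 : ∑ z ∈ natD P U α Φ D T, ((nbr P.G (P.V i) (Nat_nx z (U ∪ T) Φ (D i))).card : ℝ) ≤
          (natD P U α Φ D T).card * (8 * (c.n * c.p ^ e)) := by
        rw [← nsmul_eq_mul]
        exact sum_le_card_nsmul _ _ _ fun z hz => (hreg z hz).2
      calc _ ≤ (natD P U α Φ D T).card * (8 * (c.n * c.p ^ e)) * c.p ^ (U.card.choose 2) :=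
            mul_le_mul_of_nonneg_right h1 hpU
        _ = ((natD P U α Φ D T).card * c.p ^ (U.card.choose 2)) * (8 * (c.n * c.p ^ e)) := by ring
        _ ≤ (8 ^ T.card * ((c.n : ℝ) ^ T.card * c.p ^ e0)) * (8 * (c.n * c.p ^ e)) :=
            mul_le_mul_of_nonneg_right ih1 (by positivity)
        _ = _ := by ring
    · have h1 : (natD P U α Φ D T).card * (c.n * c.p ^ e / 8) ≤ ∑ z ∈ natD P U α Φ D T,
          ((nbr P.G (P.V i) (Nat_nx z (U ∪ T) Φ (D i))).card : ℝ) := by
        rw [← nsmul_eq_mul]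
        exact card_nsmul_le_sum _ _ _ fun z hz => (hreg z hz).1
      have h2 := ih2 hal
      calc _ = ((c.n : ℝ) ^ T.card * c.p ^ e0) * (c.n * c.p ^ e) := by ring
        _ ≤ (8 ^ T.card * ((natD P U α Φ D T).card * c.p ^ (U.card.choose 2))) * (c.n * c.p ^ e) :=
            mul_le_mul_of_nonneg_right h2 (by positivity)
        _ = 8 ^ T.card * 8 * (((natD P U α Φ D T).card * (c.n * c.p ^ e / 8)) * c.p ^ (U.card.choose 2)) := by
            ring
        _ ≤ _ := by
            refine mul_le_mul_of_nonneg_left (mul_le_mul_of_nonneg_right h1 hpU) (by positivity)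

theorem Nat_bounds {P : Pl ν L} {c : H49.RL.Num} {R : ℕ} (h : P.OK c) (hc : c.OK R L)
    (U : Finset (Fin L)) (α : Fin L → ν) (Φ : Finset ν) (hΦ : Φ ⊆ P.Out) (hΦc : Φ.card ≤ 3 * L)
    (T : Finset (Fin L)) (hT : Disjoint T U) :
    ((natT P U α Φ T).card : ℝ) * c.p ^ (U.card.choose 2) ≤
      8 ^ T.card * ((c.n : ℝ) ^ T.card * c.p ^ ((U.card + T.card).choose 2 + Φ.card * T.card)) ∧
    (P.Val U α Φ →
      (c.n : ℝ) ^ T.card * c.p ^ ((U.card + T.card).choose 2 + Φ.card * T.card) ≤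
        8 ^ T.card * (((natT P U α Φ T).card : ℝ) * c.p ^ (U.card.choose 2))) := by
  have hs := hc.s_ge
  have h1 := natD_bounds h hc U α Φ (fun _ => ∅) hΦ (fun _ => empty_subset _)
    (fun _ => disjoint_empty_left _) (fun i => by rw [card_empty]; omega) T hT.symm
  simpa [natT] using h1

theorem Nat_pow_le (a : ℕ) (T : Finset (Fin L)) : ((a + 1 : ℕ) : ℝ) ^ T.card ≤ ((a + 1 : ℕ) : ℝ) ^ L :=
  pow_le_pow_right₀ (by exact_mod_cast Nat.succ_le_succ (Nat.zero_le a))
    ((card_le_univ T).trans (by rw [Fintype.card_fin]))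

theorem natD_le {P : Pl ν L} {c : H49.RL.Num} {R : ℕ} (h : P.OK c) (hc : c.OK R L)
    (U : Finset (Fin L)) (α : Fin L → ν) (Φ : Finset ν) (D : Fin L → Finset ν) (hΦ : Φ ⊆ P.Out)
    (hΦc : Φ.card ≤ 3 * L) (hD : ∀ i, D i ⊆ P.Out) (hDΦ : ∀ i, Disjoint (D i) Φ)
    (hs : ∀ i, (D i).card ≤ 2 * c.K1) (hv : P.Val U α Φ)
    (T : Finset (Fin L)) (hT : Disjoint T U) :
    ((natD P U α Φ D T).card : ℝ) ≤
      64 ^ L * c.p ^ (∑ i ∈ T, (D i).card) * (natT P U α Φ T).card := by
  have hs' := hc.s_ge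
  have h1 := (natD_bounds h hc U α Φ D hΦ hD hDΦ (fun i => by have := hs i; omega) T hT.symm).1
  have h2 := (Nat_bounds h hc U α Φ hΦ hΦc T hT).2 hv
  have hp := hc.p_pos
  have hpU : 0 < c.p ^ (U.card.choose 2) := pow_pos hp _
  have hpS : 0 < c.p ^ (∑ i ∈ T, (D i).card) := pow_pos hp _
  rw [← add_assoc, pow_add c.p (_ + _)] at h1
  have h3 : (64 : ℝ) ^ T.card ≤ 64 ^ L := by
    have := Nat_pow_le (L := L) 63 T
    norm_num at this
    exact this
  refine le_of_mul_le_mul_right ?_ hpU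
  calc ((natD P U α Φ D T).card : ℝ) * c.p ^ (U.card.choose 2)
      ≤ 8 ^ T.card * ((c.n : ℝ) ^ T.card *
        (c.p ^ ((U.card + T.card).choose 2 + Φ.card * T.card) * c.p ^ (∑ i ∈ T, (D i).card))) := h1
    _ = 8 ^ T.card * c.p ^ (∑ i ∈ T, (D i).card) * ((c.n : ℝ) ^ T.card *
        c.p ^ ((U.card + T.card).choose 2 + Φ.card * T.card)) := by ring
    _ ≤ 8 ^ T.card * c.p ^ (∑ i ∈ T, (D i).card) *
        (8 ^ T.card * (((natT P U α Φ T).card : ℝ) * c.p ^ (U.card.choose 2))) :=
        mul_le_mul_of_nonneg_left h2 (by positivity)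
    _ = 64 ^ T.card * (c.p ^ (∑ i ∈ T, (D i).card) * (natT P U α Φ T).card *
        c.p ^ (U.card.choose 2)) := by
        rw [show (64 : ℝ) = 8 * 8 by norm_num, mul_pow]; ring
    _ ≤ 64 ^ L * (c.p ^ (∑ i ∈ T, (D i).card) * (natT P U α Φ T).card *
        c.p ^ (U.card.choose 2)) := mul_le_mul_of_nonneg_right h3 (by positivity)
    _ = _ := by ring

theorem Nat_W (c : H49.RL.Num) (hp : 0 < c.p) (u t φ : ℕ) (hu : u + t ≤ L) :
    ∃ κ : ℝ, 0 ≤ κ ∧ c.W L u φ = c.p ^ (u.choose 2) * κ ∧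
      (c.n : ℝ) ^ t * c.p ^ ((u + t).choose 2 + φ * t) * κ = c.W L (u + t) φ := by
  refine ⟨(c.n : ℝ) ^ u / c.p ^ (φ * (L - u)), by positivity, ?_, ?_⟩
  · unfold H49.RL.Num.W
    ring
  · unfold H49.RL.Num.W
    have h0 : φ * (L - u) = φ * t + φ * (L - (u + t)) := by
      rw [← mul_add]
      congr 1
      omega
    have h2 : c.p ^ (φ * t) ≠ 0 := (pow_pos hp _).ne'
    have h3 : c.p ^ (φ * (L - (u + t))) ≠ 0 := (pow_pos hp _).ne'
    rw [h0, pow_add c.p (φ * t), pow_add c.p _ (φ * t), pow_add (c.n : ℝ)]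
    field_simp

theorem nat_card {P : Pl ν L} {c : H49.RL.Num} {R : ℕ} (h : P.OK c) (hc : c.OK R L)
    (U : Finset (Fin L)) (α : Fin L → ν) (Φ : Finset ν) (hΦ : Φ ⊆ P.Out) (hΦc : Φ.card ≤ 3 * L)
    (hv : P.Val U α Φ) (T : Finset (Fin L)) (hT : Disjoint T U) :
    ((natT P U α Φ T).card : ℝ) * c.W L U.card Φ.card ≤
      8 ^ L * c.W L (U.card + T.card) Φ.card ∧
    c.W L (U.card + T.card) Φ.card ≤ 8 ^ L * ((natT P U α Φ T).card * c.W L U.card Φ.card) := by
  obtain ⟨h1, h2⟩ := Nat_bounds h hc U α Φ hΦ hΦc T hT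
  have h2' := h2 hv
  have hle : U.card + T.card ≤ L := by
    rw [← card_union_of_disjoint hT.symm]
    exact (card_le_univ _).trans (by rw [Fintype.card_fin])
  obtain ⟨κ, hκ, e1, e2⟩ := Nat_W c hc.p_pos U.card T.card Φ.card hle
  have h3 : (8 : ℝ) ^ T.card ≤ 8 ^ L := by
    have := Nat_pow_le (L := L) 7 T
    norm_num at this
    exact this
  have hp := hc.p_pos
  have hn : (0 : ℝ) ≤ c.n := Nat.cast_nonneg _
  have hW : 0 ≤ c.W L (U.card + T.card) Φ.card := by
    rw [← e2]; positivity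
  have hW' : 0 ≤ c.W L U.card Φ.card := by
    rw [e1]; positivity
  constructor
  · calc ((natT P U α Φ T).card : ℝ) * c.W L U.card Φ.card
        = (natT P U α Φ T).card * c.p ^ (U.card.choose 2) * κ := by rw [e1]; ring
      _ ≤ 8 ^ T.card * ((c.n : ℝ) ^ T.card * c.p ^ ((U.card + T.card).choose 2 + Φ.card * T.card)) * κ :=
          mul_le_mul_of_nonneg_right h1 hκ
      _ = 8 ^ T.card * c.W L (U.card + T.card) Φ.card := by rw [← e2]; ring
      _ ≤ _ := mul_le_mul_of_nonneg_right h3 hW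
  · calc c.W L (U.card + T.card) Φ.card = (c.n : ℝ) ^ T.card *
          c.p ^ ((U.card + T.card).choose 2 + Φ.card * T.card) * κ := e2.symm
      _ ≤ 8 ^ T.card * (((natT P U α Φ T).card : ℝ) * c.p ^ (U.card.choose 2)) * κ :=
          mul_le_mul_of_nonneg_right h2' hκ
      _ = 8 ^ T.card * ((natT P U α Φ T).card * c.W L U.card Φ.card) := by rw [e1]; ring
      _ ≤ _ := mul_le_mul_of_nonneg_right h3 (by positivity)

theorem nat_val {P : Pl ν L} {U : Finset (Fin L)} {α : Fin L → ν} {Φ : Finset ν}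
    {T : Finset (Fin L)} {z : Fin L → ν} (hz : z ∈ natT P U α Φ T) : P.Val (U ∪ T) z Φ := by
  obtain ⟨_, h2, h3, h4⟩ := mem_natT.1 hz
  exact ⟨h2, h3, fun j hj v hv => h4 j hj v hv⟩

open Classical in
/-- The choices on `T1 ∪ T2` with the property `Q` are, over each choice on `T2`, the choices on `T1`. -/
theorem nat_fib (P : Pl ν L) (U : Finset (Fin L)) (α : Fin L → ν) (Φ : Finset ν)
    (T1 T2 : Finset (Fin L)) (h12 : Disjoint T1 T2) (hT : Disjoint (T1 ∪ T2) U)
    (Q : (Fin L → ν) → Prop) :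
    ((natT P U α Φ (T1 ∪ T2)).filter Q).card =
      ∑ z2 ∈ natT P U α Φ T2, ((natT P (U ∪ T2) z2 Φ T1).filter Q).card := by
  have hU : U ∪ (T1 ∪ T2) = U ∪ T2 ∪ T1 := by
    rw [union_comm T1 T2, union_assoc]
  have hres : ∀ z ∈ (natT P U α Φ (T1 ∪ T2)).filter Q,
      (fun i => if i ∈ T2 then z i else α i) ∈ natT P U α Φ T2 := by
    intro z hz
    obtain ⟨h1, h2, h3, h4⟩ := mem_natT.1 (mem_filter.1 hz).1
    have he : ∀ i ∈ U ∪ T2, (if i ∈ T2 then z i else α i) = z i := by
      intro i hi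
      by_cases hi2 : i ∈ T2
      · rw [if_pos hi2]
      · rw [if_neg hi2]
        have hiU : i ∈ U := (mem_union.1 hi).resolve_right hi2
        exact (h1 i fun h => disjoint_left.1 hT h hiU).symm
    have hs : ∀ i ∈ U ∪ T2, i ∈ U ∪ (T1 ∪ T2) := fun i hi => by
      rw [hU]; exact mem_union_left _ hi
    rw [mem_natT]
    refine ⟨fun i hi => if_neg hi, fun i hi => ?_, fun i hi j hj hij => ?_, fun i hi v hv => ?_⟩
    · rw [he i hi]; exact h2 i (hs i hi)
    · rw [he i hi, he j hj]; exact h3 i (hs i hi) j (hs j hj) hij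
    · rw [he i hi]; exact h4 i (hs i hi) v hv
  rw [card_eq_sum_card_fiberwise hres]
  refine sum_congr rfl fun z2 hz2 => ?_
  congr 1
  obtain ⟨g1, g2, g3, g4⟩ := mem_natT.1 hz2
  ext z
  rw [mem_filter, mem_filter, mem_filter, mem_natT, mem_natT, hU]
  constructor
  · rintro ⟨⟨⟨h1, h2, h3, h4⟩, hQ⟩, he⟩
    refine ⟨⟨fun i hi => ?_, h2, h3, h4⟩, hQ⟩
    rw [← he]
    by_cases hi2 : i ∈ T2
    · simp only [if_pos hi2]
    · simp only [if_neg hi2]
      refine h1 i fun h => ?_
      rcases mem_union.1 h with h | h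
      · exact hi h
      · exact hi2 h
  · rintro ⟨⟨h1, h2, h3, h4⟩, hQ⟩
    refine ⟨⟨⟨fun i hi => ?_, h2, h3, h4⟩, hQ⟩, ?_⟩
    · rw [h1 i fun h => hi (mem_union_left _ h), g1 i fun h => hi (mem_union_right _ h)]
    · funext i
      by_cases hi2 : i ∈ T2
      · rw [if_pos hi2]
        exact h1 i fun h => disjoint_left.1 h12 h hi2
      · rw [if_neg hi2, g1 i hi2]

theorem Nat_choose_add (a t : ℕ) : (a + t).choose 2 = a.choose 2 + a * t + t.choose 2 := by
  induction t with
  | zero => simp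
  | succ t ih =>
    rw [← add_assoc, H49.RL.Cnt_choose, ih, H49.RL.Cnt_choose]
    ring

theorem nat_sum {P : Pl ν L} {c : H49.RL.Num} {R : ℕ} (h : P.OK c) (hc : c.OK R L)
    (U : Finset (Fin L)) (α : Fin L → ν) (Φ : Finset ν) (hΦ : Φ ⊆ P.Out) (hΦc : Φ.card ≤ 3 * L)
    (hv : P.Val U α Φ) (T1 T2 : Finset (Fin L)) (h12 : Disjoint T1 T2)
    (hT : Disjoint (T1 ∪ T2) U) :
    ∑ z2 ∈ natT P U α Φ T2, ∏ l ∈ T1, ((nbr P.G (P.V l) (Φ ∪ (U ∪ T2).image z2)).card : ℝ) ≤
      64 ^ T1.card * (1 / c.p) ^ (T1.card.choose 2) * (natT P U α Φ (T1 ∪ T2)).card := by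
  classical
  have hp := hc.p_pos
  have hs := hc.s_ge
  have hn : (0 : ℝ) ≤ c.n := Nat.cast_nonneg _
  have hT1 : Disjoint T1 U := hT.mono_left subset_union_left
  have hT2 : Disjoint T2 U := hT.mono_left subset_union_right
  have hfib := nat_fib P U α Φ T1 T2 h12 hT (fun _ => True)
  simp only [filter_true] at hfib
  have hc1 : ((natT P U α Φ (T1 ∪ T2)).card : ℝ) =
      ∑ z2 ∈ natT P U α Φ T2, ((natT P (U ∪ T2) z2 Φ T1).card : ℝ) := by
    rw [hfib]; push_cast; rfl
  rw [hc1, mul_sum]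
  refine sum_le_sum fun z2 hz2 => ?_
  have hval := nat_val hz2
  have hle : (U ∪ T2).card ≤ L := (card_le_univ _).trans (by rw [Fintype.card_fin])
  set a := (U ∪ T2).card with ha
  set e := a + Φ.card with he
  have hd1 : Disjoint T1 (U ∪ T2) := by
    rw [disjoint_union_right]
    exact ⟨hT1, h12⟩
  have hset : Φ ∪ (U ∪ T2).image z2 = Nat_nx z2 (U ∪ T2) Φ ∅ := by
    unfold Nat_nx
    rw [union_empty, union_comm]
  have hup : ∀ l ∈ T1, ((nbr P.G (P.V l) (Φ ∪ (U ∪ T2).image z2)).card : ℝ) ≤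
      8 * (c.n * c.p ^ e) := by
    intro l hl
    have hc2 : (Φ ∪ (U ∪ T2).image z2).card = e := by
      rw [hset, Nat_nx_card h (U ∪ T2) Φ ∅ hΦ (empty_subset _) (disjoint_empty_left _) hval.mem,
        card_empty, add_zero]
    have hdis : Disjoint (Φ ∪ (U ∪ T2).image z2) (P.V l) := by
      rw [hset]
      exact Nat_nx_dis h (U ∪ T2) Φ ∅ l (disjoint_left.1 hd1 hl) hΦ (empty_subset _) hval.mem
    have := h.up l (Φ ∪ (U ∪ T2).image z2) (by rw [hc2]; omega) hdis
    rwa [hc2] at this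
  have h1 : ∏ l ∈ T1, ((nbr P.G (P.V l) (Φ ∪ (U ∪ T2).image z2)).card : ℝ) ≤
      (8 * (c.n * c.p ^ e)) ^ T1.card := by
    rw [← prod_const]
    exact prod_le_prod (fun _ _ => Nat.cast_nonneg _) hup
  have h2 := (Nat_bounds h hc (U ∪ T2) z2 Φ hΦ hΦc T1 hd1).2 hval
  rw [← ha, Nat_choose_add] at h2
  have hpa : 0 < c.p ^ (a.choose 2) := pow_pos hp _
  have hpt : 0 < c.p ^ (T1.card.choose 2) := pow_pos hp _
  have h3 : (c.n : ℝ) ^ T1.card * c.p ^ (e * T1.card) * c.p ^ (T1.card.choose 2) ≤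
      8 ^ T1.card * ((natT P (U ∪ T2) z2 Φ T1).card : ℝ) := by
    refine le_of_mul_le_mul_right ?_ hpa
    calc (c.n : ℝ) ^ T1.card * c.p ^ (e * T1.card) * c.p ^ (T1.card.choose 2) * c.p ^ (a.choose 2)
        = (c.n : ℝ) ^ T1.card * c.p ^ (a.choose 2 + a * T1.card + T1.card.choose 2 + Φ.card * T1.card) := by
          rw [he, add_mul, pow_add, pow_add, pow_add, pow_add]; ring
      _ ≤ _ := h2
      _ = _ := by ring
  have h4 : (8 : ℝ) ^ T1.card * ((c.n : ℝ) ^ T1.card * c.p ^ (e * T1.card)) ≤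
      64 ^ T1.card * (1 / c.p) ^ (T1.card.choose 2) * ((natT P (U ∪ T2) z2 Φ T1).card : ℝ) := by
    rw [one_div, inv_pow]
    have e1 : (8 : ℝ) ^ T1.card * ((c.n : ℝ) ^ T1.card * c.p ^ (e * T1.card)) =
        8 ^ T1.card * (c.p ^ (T1.card.choose 2))⁻¹ *
          ((c.n : ℝ) ^ T1.card * c.p ^ (e * T1.card) * c.p ^ (T1.card.choose 2)) := by
      field_simp
    rw [e1]
    calc _ ≤ 8 ^ T1.card * (c.p ^ (T1.card.choose 2))⁻¹ *
          (8 ^ T1.card * ((natT P (U ∪ T2) z2 Φ T1).card : ℝ)) :=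
          mul_le_mul_of_nonneg_left h3 (by positivity)
      _ = _ := by
          rw [show (64 : ℝ) = 8 * 8 by norm_num, mul_pow]; ring
  refine h1.trans (le_trans (le_of_eq ?_) h4)
  rw [mul_pow, mul_pow, ← pow_mul]

open Classical in
/-- The points of a cell with a property `Q` of the rows `T`, over the choices on `T`. -/
theorem cell_fib (P : Pl ν L) (X : Finset (Fin L → ν)) (hX : X ⊆ pts P.G P.V)
    (U : Finset (Fin L)) (α : Fin L → ν) (Φ : Finset ν) (T : Finset (Fin L)) (hT : Disjoint T U)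
    (Q : (Fin L → ν) → Prop) (hQ : ∀ x x' : Fin L → ν, (∀ l ∈ T, x l = x' l) → Q x → Q x') :
    ((cell P.G X U α Φ).filter Q).card =
      ∑ z ∈ (natT P U α Φ T).filter Q, (cell P.G X (U ∪ T) z Φ).card := by
  have hres : ∀ x ∈ (cell P.G X U α Φ).filter Q,
      (fun i => if i ∈ T then x i else α i) ∈ (natT P U α Φ T).filter Q := by
    intro x hx
    obtain ⟨hx1, hx2⟩ := mem_filter.1 hx
    obtain ⟨h1, h2, h3⟩ := H49.RG.mem_cell.1 hx1
    obtain ⟨h4, h5⟩ := H49.RG.mem_pts.1 (hX h1)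
    have he : ∀ i ∈ U ∪ T, (if i ∈ T then x i else α i) = x i := by
      intro i hi
      by_cases hi2 : i ∈ T
      · rw [if_pos hi2]
      · rw [if_neg hi2]
        exact (h2 i ((mem_union.1 hi).resolve_right hi2)).symm
    rw [mem_filter, mem_natT]
    refine ⟨⟨fun i hi => if_neg hi, fun i hi => ?_, fun i hi j hj hij => ?_, fun i hi v hv => ?_⟩, ?_⟩
    · rw [he i hi]; exact h4 i
    · rw [he i hi, he j hj]; exact h5 i j hij
    · rw [he i hi]; exact h3 i (mem_univ i) v hv
    · exact hQ x _ (fun l hl => (if_pos hl).symm) hx2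
  rw [card_eq_sum_card_fiberwise hres]
  refine sum_congr rfl fun z hz => ?_
  congr 1
  obtain ⟨hz1, hz2⟩ := mem_filter.1 hz
  obtain ⟨g1, g2, g3, g4⟩ := mem_natT.1 hz1
  ext x
  rw [mem_filter, mem_filter, H49.RG.mem_cell, H49.RG.mem_cell]
  constructor
  · rintro ⟨⟨⟨h1, h2, h3⟩, _⟩, he⟩
    refine ⟨h1, fun i hi => ?_, h3⟩
    rw [← he]
    by_cases hi2 : i ∈ T
    · simp only [if_pos hi2]
    · simp only [if_neg hi2]
      exact h2 i ((mem_union.1 hi).resolve_right hi2)
  · rintro ⟨h1, h2, h3⟩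
    have hU : ∀ i ∈ U, x i = α i := fun i hi => by
      rw [h2 i (mem_union_left _ hi), g1 i fun h => disjoint_left.1 hT h hi]
    refine ⟨⟨⟨h1, hU, h3⟩, ?_⟩, ?_⟩
    · exact hQ z x (fun l hl => (h2 l (mem_union_right _ hl)).symm) hz2
    · funext i
      by_cases hi2 : i ∈ T
      · rw [if_pos hi2]
        exact h2 i (mem_union_right _ hi2)
      · rw [if_neg hi2, g1 i hi2]

end Pool.Agent.H82.RL
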