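/-
ROW Rok (about 120 lines). The rows have the cancellation property RowOK. V := nbr P.G (P.V l) B, M = 1/p.
PROOF. D ⊆ Out \ B, so B, D are disjoint, D is disjoint from P.V l (P.OK.out), #B + #D <= 4 L + 2 K1 <= s (s_ge).
First bound: |HH G M v d|^a <= 1 + (if adj then M^a else 0) (adjacent: |M - 1|^a <= M^a; otherwise 1). So |prod| <= prod_d (1 + ..) = sum_{D' in D.powerset} prod_{d in D'} (if adj then M^(a d) else 0)  (Finset.prod_one_add or prod_add), and
 sum_v = sum_{D'} M^(sum_{D'} a) #(nbr P.G (P.V l) (B ∪ D')) <= sum_{D'} M^(sum_{D'} a) 8 n p^(#B + #D') (P.OK.up) and #V >= n p^#B / 8 (P.OK.lo), so each term is <= 64 #V M^(sum_{D'} (a - 1)) <= 64 #V M^(sum_D (a - 1)) (M >= 1); #powerset = 2^#D <= 2^L (#D <= 2 K1 <= L).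
Second bound: P.OK.chr with A := B: |sum| <= Cb M^(sum a) = Cb M^#D M^(sum (a-1)); h^100 Cb M^#D <= #V: by FCb: 8 Cb M^s h^100 <= n, so 8 Cb M^(#B + #D) h^100 <= n, i.e. h^100 Cb M^#D <= n p^#B / 8 <= #V. And 1 <= 64 * 2^L.
-/
import Pool.Agent.H82.RL.Par

set_option autoImplicit false
set_option linter.unusedSectionVars false

open Finset

namespace Pool.Agent.H82.RL

open Pool.Agent.H49.RG (nbr cell pts)
open Pool.Agent.H49.RL (Pl)

variable {ν ι : Type} [Fintype ν] [DecidableEq ν] {L g : ℕ}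

open Classical in
lemma Rok_abs {G : SimpleGraph ν} {M : ℝ} (hM : 1 ≤ M) (v d : ν) (a : ℕ) :
    |HH G M v d ^ a| ≤ 1 + (if G.Adj v d then M ^ a else 0) := by
  rw [abs_pow]
  unfold HH
  split_ifs with h
  · have h1 : |M - 1| ≤ M := by rw [abs_le]; constructor <;> linarith
    have h2 : |M - 1| ^ a ≤ M ^ a := pow_le_pow_left₀ (abs_nonneg _) h1 a
    linarith
  · rw [zero_sub, abs_neg, abs_one, one_pow, add_zero]

open Classical in
lemma Rok_prod {G : SimpleGraph ν} {M : ℝ} (v : ν) (D : Finset ν) (a : ν → ℕ) :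
    ∏ d ∈ D, (if G.Adj v d then M ^ a d else 0) =
      if (∀ d ∈ D, G.Adj v d) then M ^ (∑ d ∈ D, a d) else 0 := by
  split_ifs with h
  · rw [← prod_pow_eq_pow_sum]
    exact prod_congr rfl fun d hd => by rw [if_pos (h d hd)]
  · push Not at h
    obtain ⟨d, hd, hn⟩ := h
    exact prod_eq_zero hd (if_neg hn)

open Classical in
lemma Rok_sum {G : SimpleGraph ν} {M : ℝ} (W B D : Finset ν) (a : ν → ℕ) :
    ∑ v ∈ nbr G W B, ∏ d ∈ D, (if G.Adj v d then M ^ a d else 0) =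
      M ^ (∑ d ∈ D, a d) * ((nbr G W (B ∪ D)).card : ℝ) := by
  simp only [Rok_prod]
  rw [← sum_filter, sum_const, nsmul_eq_mul, mul_comm]
  congr 3
  ext v
  simp only [nbr, mem_filter, mem_union]
  constructor
  · rintro ⟨⟨h1, h2⟩, h3⟩
    exact ⟨h1, fun u hu => hu.elim (h2 u) (h3 u)⟩
  · rintro ⟨h1, h2⟩
    exact ⟨⟨h1, fun u hu => h2 u (Or.inl hu)⟩, fun u hu => h2 u (Or.inr hu)⟩

lemma Rok_split (D : Finset ν) (a : ν → ℕ) (ha : ∀ d ∈ D, 1 ≤ a d) :
    ∑ d ∈ D, a d = D.card + ∑ d ∈ D, (a d - 1) := by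
  rw [card_eq_sum_ones, ← sum_add_distrib]
  exact sum_congr rfl fun d hd => by have := ha d hd; omega

theorem row_ok {P : Pl ν L} {c : H49.RL.Num} {R : ℕ} (h : P.OK c) (hc : c.OK R L) (l : Fin L)
    (B : Finset ν) (hB : B.card ≤ 4 * L) (hBV : Disjoint B (P.V l)) :
    RowOK P.G (1 / c.p) (nbr P.G (P.V l) B) (P.Out \ B) (2 * c.K1) (2 * c.K1) (64 * 2 ^ L)
      (c.h ^ 100) := by
  classical
  intro D a hD hs ha
  have hp := hc.p_pos
  have hM : 1 ≤ 1 / c.p := M_ge hc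
  have hM0 : 0 < 1 / c.p := by linarith
  have hMp : 1 / c.p * c.p = 1 := by field_simp
  have ha1 : ∀ d ∈ D, 1 ≤ a d := fun d hd => (ha d hd).1
  have hsg := hc.s_ge
  have hDO : D ⊆ P.Out := fun d hd => (mem_sdiff.1 (hD hd)).1
  have hDB : Disjoint B D := by
    rw [disjoint_left]
    intro x hx hx'
    exact (mem_sdiff.1 (hD hx')).2 hx
  have hDV : Disjoint D (P.V l) := disjoint_of_subset_left hDO (h.out l)
  have hn : (0 : ℝ) < c.n := by exact_mod_cast hc.n_pos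
  have hlo := h.lo l B (by omega) hBV
  set V := nbr P.G (P.V l) B with hV
  set e : ℕ := ∑ d ∈ D, (a d - 1) with he
  have hlo' : (c.n : ℝ) * c.p ^ B.card ≤ 8 * V.card := by linarith
  refine ⟨?_, ?_⟩
  · have h1 : |∑ v ∈ V, ∏ d ∈ D, HH P.G (1 / c.p) v d ^ a d| ≤
        ∑ v ∈ V, ∏ d ∈ D, (1 + (if P.G.Adj v d then (1 / c.p) ^ a d else 0)) := by
      refine (abs_sum_le_sum_abs _ _).trans (sum_le_sum fun v _ => ?_)
      rw [abs_prod]
      exact prod_le_prod (fun d _ => abs_nonneg _) fun d _ => Rok_abs hM v d (a d)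
    have h2 : ∑ v ∈ V, ∏ d ∈ D, (1 + (if P.G.Adj v d then (1 / c.p) ^ a d else 0)) =
        ∑ D' ∈ D.powerset, (1 / c.p) ^ (∑ d ∈ D', a d) *
          ((nbr P.G (P.V l) (B ∪ D')).card : ℝ) := by
      simp only [prod_one_add]
      rw [sum_comm]
      exact sum_congr rfl fun D' _ => Rok_sum (P.V l) B D' a
    have h3 : ∀ D' ∈ D.powerset, (1 / c.p) ^ (∑ d ∈ D', a d) *
        ((nbr P.G (P.V l) (B ∪ D')).card : ℝ) ≤ V.card * (64 * (1 / c.p) ^ e) := by
      intro D' hD'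
      have hs' := mem_powerset.1 hD'
      have hc' : D'.card ≤ D.card := card_le_card hs'
      have hdis : Disjoint B D' := disjoint_of_subset_right hs' hDB
      have hcu : (B ∪ D').card = B.card + D'.card := card_union_of_disjoint hdis
      have hup := h.up l (B ∪ D') (by omega)
        (disjoint_union_left.2 ⟨hBV, disjoint_of_subset_left hs' hDV⟩)
      rw [hcu, pow_add] at hup
      rw [Rok_split D' a fun d hd => ha1 d (hs' hd), pow_add]
      have h4 : (1 / c.p) ^ (∑ d ∈ D', (a d - 1)) ≤ (1 / c.p) ^ e :=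
        pow_le_pow_right₀ hM (sum_le_sum_of_subset hs')
      have h5 : (1 / c.p) ^ D'.card * c.p ^ D'.card = 1 := by
        rw [← mul_pow, hMp, one_pow]
      calc (1 / c.p) ^ D'.card * (1 / c.p) ^ (∑ d ∈ D', (a d - 1)) *
            ((nbr P.G (P.V l) (B ∪ D')).card : ℝ)
          ≤ (1 / c.p) ^ D'.card * (1 / c.p) ^ (∑ d ∈ D', (a d - 1)) *
            (8 * (c.n * (c.p ^ B.card * c.p ^ D'.card))) :=
            mul_le_mul_of_nonneg_left hup (by positivity)
        _ = ((1 / c.p) ^ D'.card * c.p ^ D'.card) * (8 * (c.n * c.p ^ B.card)) *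
            (1 / c.p) ^ (∑ d ∈ D', (a d - 1)) := by ring
        _ = (8 * (c.n * c.p ^ B.card)) * (1 / c.p) ^ (∑ d ∈ D', (a d - 1)) := by
            rw [h5, one_mul]
        _ ≤ (8 * (8 * V.card)) * (1 / c.p) ^ e := by
            refine mul_le_mul (by linarith) h4 (by positivity) (by positivity)
        _ = V.card * (64 * (1 / c.p) ^ e) := by ring
    have h6 : (2 : ℝ) ^ D.card ≤ 2 ^ L :=
      pow_le_pow_right₀ (by norm_num) (by have := hc.K_le; omega)
    calc |∑ v ∈ V, ∏ d ∈ D, HH P.G (1 / c.p) v d ^ a d|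
        ≤ ∑ D' ∈ D.powerset, (1 / c.p) ^ (∑ d ∈ D', a d) *
          ((nbr P.G (P.V l) (B ∪ D')).card : ℝ) := h1.trans h2.le
      _ ≤ ∑ _D' ∈ D.powerset, V.card * (64 * (1 / c.p) ^ e) := sum_le_sum h3
      _ = 2 ^ D.card * (V.card * (64 * (1 / c.p) ^ e)) := by
          rw [sum_const, card_powerset, nsmul_eq_mul]; push_cast; ring
      _ ≤ 2 ^ L * (V.card * (64 * (1 / c.p) ^ e)) :=
          mul_le_mul_of_nonneg_right h6 (by positivity)
      _ = V.card * (64 * 2 ^ L * (1 / c.p) ^ e) := by ring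
  · rintro hex
    have h1 := h.chr l B D hBV hDV hDB (by omega) a ha hex
    rw [Rok_split D a ha1, pow_add, ← he] at h1
    have hh : (0 : ℝ) < c.h := by linarith [hc.h_ge]
    have hCb := hc.Cb_nn
    have h2 : 8 * c.Cb * (1 / c.p) ^ (B.card + D.card) * c.h ^ 100 ≤ c.n := by
      refine le_trans ?_ hc.FCb
      have : (1 / c.p) ^ (B.card + D.card) ≤ (1 / c.p) ^ c.s := pow_le_pow_right₀ hM (by omega)
      gcongr
    have h3 : (1 / c.p) ^ B.card * c.p ^ B.card = 1 := by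
      rw [← mul_pow, hMp, one_pow]
    have h4 : c.h ^ 100 * (c.Cb * (1 / c.p) ^ D.card) ≤ V.card := by
      have h5 : (8 * c.Cb * (1 / c.p) ^ (B.card + D.card) * c.h ^ 100) * c.p ^ B.card ≤
          c.n * c.p ^ B.card := mul_le_mul_of_nonneg_right h2 (by positivity)
      have h6 : (8 * c.Cb * (1 / c.p) ^ (B.card + D.card) * c.h ^ 100) * c.p ^ B.card =
          8 * (c.h ^ 100 * (c.Cb * (1 / c.p) ^ D.card)) *
            ((1 / c.p) ^ B.card * c.p ^ B.card) := by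
        rw [pow_add]; ring
      rw [h6, h3, mul_one] at h5
      linarith
    have h7 : (1 : ℝ) ≤ 64 * 2 ^ L := by
      have : (1 : ℝ) ≤ 2 ^ L := one_le_pow₀ (by norm_num)
      linarith
    calc c.h ^ 100 * |∑ v ∈ V, ∏ d ∈ D, HH P.G (1 / c.p) v d ^ a d|
        ≤ c.h ^ 100 * (c.Cb * ((1 / c.p) ^ D.card * (1 / c.p) ^ e)) :=
          mul_le_mul_of_nonneg_left h1 (by positivity)
      _ = (c.h ^ 100 * (c.Cb * (1 / c.p) ^ D.card)) * (1 * (1 / c.p) ^ e) := by ring
      _ ≤ V.card * ((64 * 2 ^ L) * (1 / c.p) ^ e) := by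
          refine mul_le_mul h4 ?_ (by positivity) (Nat.cast_nonneg _)
          exact mul_le_mul_of_nonneg_right h7 (by positivity)

end Pool.Agent.H82.RL
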