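/-
ROW Ty2 (about 120 lines). Violations with many prescribed letters. m := min #T t0 >= 1, a := #A, so 60 a >= m + 1, M = 1/p.
PROOF. |HH| <= 1 + (if adj then M else 0), so |ZZ E A q z| <= sum_{E' in E.powerset} VV E' A q z (Finset.prod_one_add / prod_add, exchange the sums): a violation gives E' ⊆ E with VV E' A q z >= η th^a / 2^#E, #E <= L g <= L w.
 For fixed E', q: Markov with the power K := 2 kl (K g <= 2 K1: klK): #{z} (η th^a / 2^(L w))^K <= sum_z VV^K <= 64^L ((1 + K g / B)^g)^K (1/rho)^(a K) #natT (vmom). th = l / rho: #{z} <= 64^L (e0 2^(L w) (1 + K g / B)^g)^K l^(-a K) #natT. K g / B <= 1 (mB: 2 K1 w l <= B), so (1 + ..)^g <= 2^w.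
 Number of E': 2^(L w). Number of q: as in Ty1: Q := Fintype.piFinset (fun j => if j in A then Out else {α0}), #Q = #Out^a <= h^(450 a) (ZZ depends on q only on A; if it is nonzero then fam is nonempty and q j ∈ Out on A).
 t2: M^L B h^1200 <= l^K, M^L B >= 1: l^(a K) >= h^(1200 a). Total: #BAD <= h^(450 a) h^(-1200 a) 2^(L w) 64^L (e0 2^(L w) 2^w)^(2 kl) #natT <= h^(-750 a) h #natT (FQ: kl <= K1), and 750 a >= 12 m + 1 since 60 a >= m + 1: 750 a >= 12.5 (m + 1).
-/
import Pool.Agent.H82.RL.Vm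

set_option autoImplicit false
set_option linter.unusedSectionVars false

open Finset

namespace Pool.Agent.H82.RL

open Pool.Agent.H49.RG (nbr cell pts)
open Pool.Agent.H49.RL (Pl)

variable {ν ι : Type} [Fintype ν] [DecidableEq ν] {L g : ℕ}

private lemma Ty2_HH (G : SimpleGraph ν) (M : ℝ) (hM : 0 ≤ M) (v d : ν)
    [Decidable (G.Adj v d)] : |HH G M v d| ≤ 1 + (if G.Adj v d then M else 0) := by
  unfold HH
  by_cases h : G.Adj v d
  · rw [if_pos h, if_pos h, abs_le]
    constructor <;> linarith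
  · rw [if_neg h, if_neg h, abs_le]
    constructor <;> linarith

private lemma Ty2_ZZ (G : SimpleGraph ν) (M : ℝ) (hM : 0 ≤ M) (O : Finset ι) (y : ι → Fin g → ν)
    (E : Finset (Fin L × Fin g)) (A : Finset (Fin g)) (q : Fin g → ν) (z : Fin L → ν) :
    |ZZ G M O y E A q z| ≤ ∑ E' ∈ E.powerset, VV G M O y E' A q z := by
  classical
  have h1 : ∑ E' ∈ E.powerset, VV G M O y E' A q z =
      (∑ o ∈ fam O y A q, ∏ e ∈ E, (1 + (if G.Adj (z e.1) (y o e.2) then M else 0))) / O.card := by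
    unfold VV
    rw [← sum_div, sum_comm]
    congr 1
    refine sum_congr rfl fun o _ => ?_
    rw [prod_one_add]
  rw [h1]
  unfold ZZ
  rw [abs_div, Nat.abs_cast]
  refine div_le_div_of_nonneg_right ?_ (Nat.cast_nonneg _)
  refine (abs_sum_le_sum_abs _ _).trans (sum_le_sum fun o _ => ?_)
  rw [abs_prod]
  exact prod_le_prod (fun e _ => abs_nonneg _) fun e _ => Ty2_HH G M hM _ _

private lemma Ty2_VV_nonneg (G : SimpleGraph ν) (M : ℝ) (hM : 0 ≤ M) (O : Finset ι)
    (y : ι → Fin g → ν) (E : Finset (Fin L × Fin g)) (A : Finset (Fin g)) (q : Fin g → ν)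
    (z : Fin L → ν) : 0 ≤ VV G M O y E A q z := by
  unfold VV
  refine div_nonneg (sum_nonneg fun o _ => prod_nonneg fun e _ => ?_) (Nat.cast_nonneg _)
  split_ifs
  · exact hM
  · exact le_rfl

/-- A violation gives one large nonnegative component. -/
private lemma Ty2_ex (G : SimpleGraph ν) (M : ℝ) (hM : 0 ≤ M) (O : Finset ι) (y : ι → Fin g → ν)
    (E : Finset (Fin L × Fin g)) (A : Finset (Fin g)) (q : Fin g → ν) (z : Fin L → ν) (x : ℝ)
    (hx : x < |ZZ G M O y E A q z|) :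
    ∃ E' ∈ E.powerset, x / 2 ^ E.card < VV G M O y E' A q z := by
  by_contra hcon
  push Not at hcon
  have h1 : ∑ E' ∈ E.powerset, VV G M O y E' A q z ≤ ∑ _E' ∈ E.powerset, x / 2 ^ E.card :=
    sum_le_sum hcon
  rw [sum_const, card_powerset, nsmul_eq_mul] at h1
  have h2 := Ty2_ZZ G M hM O y E A q z
  have h3 : ((2 ^ E.card : ℕ) : ℝ) * (x / 2 ^ E.card) = x := by
    push_cast
    field_simp
  rw [h3] at h1
  linarith

private lemma Ty2_markov {α : Type} (s : Finset α) (f : α → ℝ) (hf : ∀ z ∈ s, 0 ≤ f z) (x : ℝ)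
    (hx : 0 ≤ x) (K : ℕ) (i1 : DecidablePred fun z => x < f z) :
    ((@Finset.filter α (fun z => x < f z) i1 s).card : ℝ) * x ^ K ≤ ∑ z ∈ s, f z ^ K := by
  calc ((@Finset.filter α (fun z => x < f z) i1 s).card : ℝ) * x ^ K
      = ∑ _z ∈ @Finset.filter α (fun z => x < f z) i1 s, x ^ K := by
        rw [sum_const, nsmul_eq_mul]
    _ ≤ ∑ z ∈ @Finset.filter α (fun z => x < f z) i1 s, f z ^ K := by
        refine sum_le_sum fun z hz => pow_le_pow_left₀ hx (mem_filter.1 hz).2.le _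
    _ ≤ ∑ z ∈ s, f z ^ K :=
        sum_le_sum_of_subset_of_nonneg (filter_subset _ _) fun z hz _ => pow_nonneg (hf z hz) _

private lemma Ty2_num {c : H49.RL.Num} {R : ℕ} (hc : c.OK R L) :
    (2 : ℝ) ^ (L * c.w) * 64 ^ L * (2 ^ c.w * (c.e0 * 2 ^ (L * c.w))) ^ (2 * c.kl) ≤ c.h := by
  have he := e0_one hc
  have hw := w_pos hc
  have hkl : c.kl ≤ c.K1 := (Nat.le_mul_of_pos_right _ hw).trans hc.klK
  have hL := hc.L_pos
  have h1 : (2 : ℝ) ^ (L * c.w) * 64 ^ L * (2 ^ c.w * (c.e0 * 2 ^ (L * c.w))) ^ (2 * c.kl) =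
      2 ^ (L * c.w + 6 * L + (c.w + L * c.w) * (2 * c.kl)) * c.e0 ^ (2 * c.kl) := by
    rw [mul_pow, mul_pow, show (64 : ℝ) = 2 ^ 6 by norm_num, ← pow_mul, ← pow_mul, ← pow_mul,
      pow_add, pow_add, add_mul, pow_add]
    ring
  rw [h1]
  refine le_trans ?_ hc.FQ
  refine mul_le_mul ?_ ?_ (by positivity) (by positivity)
  · refine pow_le_pow_right₀ (by norm_num) ?_
    have e1 : c.w * c.kl ≤ c.K1 * c.w * L := by
      calc c.w * c.kl ≤ c.w * c.K1 := Nat.mul_le_mul_left _ hkl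
        _ = c.K1 * c.w * 1 := by ring
        _ ≤ c.K1 * c.w * L := Nat.mul_le_mul_left _ hL
    have e2 : L * c.w * c.kl ≤ c.K1 * c.w * L := by
      calc L * c.w * c.kl ≤ L * c.w * c.K1 := Nat.mul_le_mul_left _ hkl
        _ = c.K1 * c.w * L := by ring
    have e3 : L * c.w ≤ c.K1 * c.w * L := by
      calc L * c.w = 1 * c.w * L := by ring
        _ ≤ c.K1 * c.w * L := by
          refine Nat.mul_le_mul_right _ (Nat.mul_le_mul_right _ (K_pos hc))
    have e4 : L ≤ L * L := Nat.le_mul_of_pos_right _ hL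
    have e5 : (c.w + L * c.w) * (2 * c.kl) = 2 * (c.w * c.kl) + 2 * (L * c.w * c.kl) := by ring
    rw [e5]
    omega
  · exact pow_le_pow_right₀ he (by omega)

open Classical in
/-- One `q` and one `E'`. -/
private theorem Ty2_q {P : Pl ν L} {c : H49.RL.Num} {R : ℕ} {B l : ℝ} {U : Finset (Fin L)}
    {α : Fin L → ν} {Φ : Finset ν} {O : Finset ι} {y : ι → Fin g → ν}
    (X : Ctx P c R B l U α Φ O y) (T : Finset (Fin L)) (hT : Disjoint T U)
    (E : Finset (Fin L × Fin g)) (hE : ∀ e ∈ E, e.1 ∈ T) (A : Finset (Fin g))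
    (hEA : ∀ e ∈ E, e.2 ∉ A) (q : Fin g → ν) :
    (((natT P U α Φ T).filter fun z =>
      1 / c.e0 * tht c L U.card B l ^ A.card / 2 ^ (L * c.w) < VV P.G (1 / c.p) O y E A q z).card
        : ℝ) * c.h ^ (1200 * A.card) ≤
      64 ^ L * (2 ^ c.w * (c.e0 * 2 ^ (L * c.w))) ^ (2 * c.kl) * (natT P U α Φ T).card := by
  have hM := M_ge X.nk
  have hM0 : (0 : ℝ) ≤ 1 / c.p := by linarith
  have hB := B_pos X.nk X.tk
  have hl := l_pos X.tk
  have hl1 := X.tk.l_ge
  have hh := X.nk.h_ge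
  have hrho := rho_pos X.nk X.tk U.card
  have hth := tht_pos X.nk X.tk U.card
  have he1 := e0_one X.nk
  have he0 : 0 < c.e0 := by linarith
  have hw := w_pos X.nk
  have hg := X.gw
  have hklg : 2 * c.kl * g ≤ 2 * c.K1 := by
    have h1 : c.kl * g ≤ c.K1 := (Nat.mul_le_mul_left _ hg).trans X.nk.klK
    rw [mul_assoc]
    omega
  have hv := vmom X T hT E hE A hEA (2 * c.kl) hklg q
  have hmk := Ty2_markov (natT P U α Φ T) (fun z => VV P.G (1 / c.p) O y E A q z)
    (fun z _ => Ty2_VV_nonneg _ _ hM0 _ _ _ _ _ _)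
    (1 / c.e0 * tht c L U.card B l ^ A.card / 2 ^ (L * c.w)) (by positivity) (2 * c.kl)
    (Classical.decPred _)
  have h1 : (1 + ((2 * c.kl : ℕ) : ℝ) * g / B) ^ g ≤ 2 ^ c.w := by
    have e1 : ((2 * c.kl : ℕ) : ℝ) * g ≤ 2 * c.K1 := by exact_mod_cast hklg
    have e2 : (2 : ℝ) * c.K1 ≤ B := by
      refine le_trans ?_ X.tk.mB
      have hw1 : (1 : ℝ) ≤ c.w := by exact_mod_cast hw
      have hK0 : (0 : ℝ) ≤ 2 * c.K1 := by positivity
      calc (2 : ℝ) * c.K1 = 2 * c.K1 * 1 * 1 := by ring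
        _ ≤ 2 * c.K1 * c.w * l := by gcongr
    have e3 : ((2 * c.kl : ℕ) : ℝ) * g / B ≤ 1 := by
      rw [div_le_one hB]
      exact e1.trans e2
    calc (1 + ((2 * c.kl : ℕ) : ℝ) * g / B) ^ g ≤ 2 ^ g :=
          pow_le_pow_left₀ (by positivity) (by linarith) _
      _ ≤ 2 ^ c.w := pow_le_pow_right₀ (by norm_num) hg
  have h2 : c.h ^ 1200 ≤ l ^ (2 * c.kl) := by
    refine le_trans ?_ X.tk.t2
    have e1 : (1 : ℝ) ≤ (1 / c.p) ^ L * B := by
      have := one_le_pow₀ (n := L) hM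
      have hB1 : 1 ≤ B := hl1.trans (l_le_B X.nk X.tk)
      nlinarith
    have e2 : (0 : ℝ) ≤ c.h ^ 1200 := by positivity
    nlinarith
  have h3 : c.h ^ (1200 * A.card) ≤ (l ^ A.card) ^ (2 * c.kl) := by
    rw [pow_mul, ← pow_mul l, mul_comm A.card, pow_mul l]
    exact pow_le_pow_left₀ (by positivity) h2 _
  obtain ⟨F, hF⟩ : ∃ F, F = (((natT P U α Φ T).filter fun z =>
      1 / c.e0 * tht c L U.card B l ^ A.card / 2 ^ (L * c.w) <
        VV P.G (1 / c.p) O y E A q z).card : ℝ) := ⟨_, rfl⟩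
  have hF0 : 0 ≤ F := by rw [hF]; exact Nat.cast_nonneg _
  have hmk' : F * (1 / c.e0 * tht c L U.card B l ^ A.card / 2 ^ (L * c.w)) ^ (2 * c.kl) ≤
      64 ^ L * (2 ^ c.w * (1 / rho c L U.card B) ^ A.card) ^ (2 * c.kl) *
        (natT P U α Φ T).card := by
    rw [hF]
    refine (le_of_eq_of_le ?_ hmk).trans (hv.trans ?_)
    · congr
    · refine mul_le_mul_of_nonneg_right ?_ (Nat.cast_nonneg _)
      refine mul_le_mul_of_nonneg_left ?_ (by positivity)
      refine pow_le_pow_left₀ (by positivity) ?_ _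
      exact mul_le_mul_of_nonneg_right h1 (by positivity)
  rw [← hF]
  have hr : (0 : ℝ) < ((1 / rho c L U.card B) ^ A.card / (c.e0 * 2 ^ (L * c.w))) ^ (2 * c.kl) := by
    positivity
  refine le_of_mul_le_mul_right ?_ hr
  calc F * c.h ^ (1200 * A.card) *
        ((1 / rho c L U.card B) ^ A.card / (c.e0 * 2 ^ (L * c.w))) ^ (2 * c.kl)
      ≤ F * (l ^ A.card) ^ (2 * c.kl) *
        ((1 / rho c L U.card B) ^ A.card / (c.e0 * 2 ^ (L * c.w))) ^ (2 * c.kl) := by
        gcongr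
    _ = F * (1 / c.e0 * tht c L U.card B l ^ A.card / 2 ^ (L * c.w)) ^ (2 * c.kl) := by
        rw [mul_assoc, ← mul_pow]
        have e : l ^ A.card * ((1 / rho c L U.card B) ^ A.card / (c.e0 * 2 ^ (L * c.w))) =
            1 / c.e0 * tht c L U.card B l ^ A.card / 2 ^ (L * c.w) := by
          unfold tht
          rw [div_pow, div_pow, one_pow]
          field_simp
        rw [e]
    _ ≤ _ := hmk'
    _ = 64 ^ L * (2 ^ c.w * (c.e0 * 2 ^ (L * c.w))) ^ (2 * c.kl) * (natT P U α Φ T).card *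
        ((1 / rho c L U.card B) ^ A.card / (c.e0 * 2 ^ (L * c.w))) ^ (2 * c.kl) := by
        have e : (2 : ℝ) ^ c.w * (1 / rho c L U.card B) ^ A.card =
            (2 ^ c.w * (c.e0 * 2 ^ (L * c.w))) *
              ((1 / rho c L U.card B) ^ A.card / (c.e0 * 2 ^ (L * c.w))) := by
          field_simp
        rw [e, mul_pow (2 ^ c.w * (c.e0 * 2 ^ (L * c.w)))]
        ring

open Classical in
/-- Violations with many prescribed letters. -/
theorem ty2 {P : Pl ν L} {c : H49.RL.Num} {R : ℕ} {B l : ℝ} {U : Finset (Fin L)} {α : Fin L → ν}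
    {Φ : Finset ν} {O : Finset ι} {y : ι → Fin g → ν} (X : Ctx P c R B l U α Φ O y)
    (T : Finset (Fin L)) (hT0 : T.Nonempty) (hT : Disjoint T U) (E : Finset (Fin L × Fin g))
    (hE : rws E = T) (A : Finset (Fin g)) (hEA : ∀ e ∈ E, e.2 ∉ A)
    (hA : min T.card c.t0 < 60 * A.card) :
    (((natT P U α Φ T).filter fun z =>
      ∃ q : Fin g → ν, 1 / c.e0 * tht c L U.card B l ^ A.card < |ZZ P.G (1 / c.p) O y E A q z|).card
        : ℝ) * c.h ^ (12 * min T.card c.t0) ≤ (natT P U α Φ T).card := by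
  have hh := X.nk.h_ge
  have hh0 : 0 < c.h := by linarith
  have hM := M_ge X.nk
  have hM0 : (0 : ℝ) ≤ 1 / c.p := by linarith
  by_cases hem : (natT P U α Φ T).Nonempty
  swap
  · rw [not_nonempty_iff_eq_empty] at hem
    rw [hem, filter_empty, card_empty, Nat.cast_zero, zero_mul]
  obtain ⟨z0, -⟩ := hem
  obtain ⟨i0, -⟩ := hT0
  obtain ⟨Q, hQ⟩ : ∃ Q : Finset (Fin g → ν),
      Q = Fintype.piFinset (fun j => if j ∈ A then P.Out else {z0 i0}) := ⟨_, rfl⟩
  have hQc : (Q.card : ℝ) ≤ c.h ^ (450 * A.card) := by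
    have h1 : Q.card = P.Out.card ^ A.card := by
      rw [hQ, Fintype.card_piFinset, ← Finset.prod_subset (Finset.subset_univ A)]
      · rw [← prod_const]
        refine prod_congr rfl fun j hj => ?_
        rw [if_pos hj]
      · intro j _ hj
        rw [if_neg hj, card_singleton]
    have h2 : (P.Out.card : ℝ) ≤ c.h ^ 450 := by
      refine le_trans ?_ X.nk.No_le
      exact_mod_cast X.ok.out_card
    rw [h1, Nat.cast_pow, pow_mul]
    exact pow_le_pow_left₀ (Nat.cast_nonneg _) h2 _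
  have hth := tht_pos X.nk X.tk U.card
  have he0 : 0 < c.e0 := by
    have := e0_one X.nk
    linarith
  have hEc : E.card ≤ L * c.w := by
    refine (card_le_univ _).trans ?_
    rw [Fintype.card_prod, Fintype.card_fin, Fintype.card_fin]
    exact Nat.mul_le_mul_left _ X.gw
  have hE1 : ∀ e ∈ E, e.1 ∈ T := by
    intro e he
    rw [← hE]
    exact mem_rws.2 ⟨e.2, he⟩
  have hsub : ((natT P U α Φ T).filter fun z =>
      ∃ q : Fin g → ν, 1 / c.e0 * tht c L U.card B l ^ A.card <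
        |ZZ P.G (1 / c.p) O y E A q z|) ⊆
      (Q ×ˢ E.powerset).biUnion fun r => (natT P U α Φ T).filter fun z =>
        1 / c.e0 * tht c L U.card B l ^ A.card / 2 ^ (L * c.w) <
          VV P.G (1 / c.p) O y r.2 A r.1 z := by
    intro z hz
    rw [mem_filter] at hz
    obtain ⟨hz1, ⟨q, hz2⟩⟩ := hz
    have hfam : (fam O y A q).Nonempty := by
      rw [nonempty_iff_ne_empty]
      intro h
      have h0 : ZZ P.G (1 / c.p) O y E A q z = 0 := by
        unfold ZZ
        rw [h, sum_empty, zero_div]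
      rw [h0, abs_zero] at hz2
      have : 0 < 1 / c.e0 * tht c L U.card B l ^ A.card := by positivity
      linarith
    obtain ⟨o, ho⟩ := hfam
    rw [mem_fam] at ho
    obtain ⟨E', hE', hlt⟩ := Ty2_ex P.G (1 / c.p) hM0 O y E A q z _ hz2
    rw [mem_biUnion]
    refine ⟨(fun j => if j ∈ A then q j else z0 i0, E'), ?_, ?_⟩
    · rw [mem_product]
      refine ⟨?_, hE'⟩
      rw [hQ, Fintype.mem_piFinset]
      intro j
      by_cases hj : j ∈ A
      · simp only [hj, if_true]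
        rw [← ho.2 j hj]
        exact X.fa.out o ho.1 j
      · simp only [hj, if_false, mem_singleton]
    · rw [mem_filter]
      refine ⟨hz1, ?_⟩
      have h1 : fam O y A (fun j => if j ∈ A then q j else z0 i0) = fam O y A q := by
        ext o'
        rw [mem_fam, mem_fam]
        constructor
        · rintro ⟨h1, h2⟩
          refine ⟨h1, fun j hj => ?_⟩
          rw [h2 j hj, if_pos hj]
        · rintro ⟨h1, h2⟩
          refine ⟨h1, fun j hj => ?_⟩
          rw [h2 j hj, if_pos hj]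
      have h2 : VV P.G (1 / c.p) O y E' A (fun j => if j ∈ A then q j else z0 i0) z =
          VV P.G (1 / c.p) O y E' A q z := by
        unfold VV
        rw [h1]
      show 1 / c.e0 * tht c L U.card B l ^ A.card / 2 ^ (L * c.w) <
        VV P.G (1 / c.p) O y E' A (fun j => if j ∈ A then q j else z0 i0) z
      rw [h2]
      refine lt_of_le_of_lt ?_ hlt
      refine div_le_div_of_nonneg_left (by positivity) (by positivity) ?_
      exact pow_le_pow_right₀ (by norm_num) hEc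
  obtain ⟨F, hF⟩ : ∃ F, F = (((natT P U α Φ T).filter fun z =>
      ∃ q : Fin g → ν, 1 / c.e0 * tht c L U.card B l ^ A.card <
        |ZZ P.G (1 / c.p) O y E A q z|).card : ℝ) := ⟨_, rfl⟩
  have hF0 : 0 ≤ F := by rw [hF]; exact Nat.cast_nonneg _
  have hcard : F ≤ ∑ r ∈ Q ×ˢ E.powerset, (((natT P U α Φ T).filter fun z =>
        1 / c.e0 * tht c L U.card B l ^ A.card / 2 ^ (L * c.w) <
          VV P.G (1 / c.p) O y r.2 A r.1 z).card : ℝ) := by
    rw [hF]
    have h1 := (card_le_card hsub).trans card_biUnion_le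
    exact_mod_cast h1
  have h3 : F * c.h ^ (1200 * A.card) ≤ (Q.card * 2 ^ E.card) *
      (64 ^ L * (2 ^ c.w * (c.e0 * 2 ^ (L * c.w))) ^ (2 * c.kl) * (natT P U α Φ T).card) := by
    refine (mul_le_mul_of_nonneg_right hcard (by positivity)).trans ?_
    rw [sum_mul]
    have h4 : ((Q.card : ℝ) * 2 ^ E.card) = ((Q ×ˢ E.powerset).card : ℝ) := by
      rw [card_product, card_powerset]
      push_cast
      rfl
    rw [h4, ← nsmul_eq_mul]
    refine sum_le_card_nsmul _ _ _ fun r hr => ?_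
    rw [mem_product, mem_powerset] at hr
    exact Ty2_q X T hT r.2 (fun e he => hE1 e (hr.2 he)) A (fun e he => hEA e (hr.2 he)) r.1
  have h5 : F * c.h ^ (1200 * A.card) ≤ c.h ^ (450 * A.card) * (c.h * (natT P U α Φ T).card) := by
    refine h3.trans ?_
    have e1 : (2 : ℝ) ^ E.card ≤ 2 ^ (L * c.w) := pow_le_pow_right₀ (by norm_num) hEc
    calc ((Q.card : ℝ) * 2 ^ E.card) *
          (64 ^ L * (2 ^ c.w * (c.e0 * 2 ^ (L * c.w))) ^ (2 * c.kl) * (natT P U α Φ T).card)
        ≤ (c.h ^ (450 * A.card) * 2 ^ (L * c.w)) *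
          (64 ^ L * (2 ^ c.w * (c.e0 * 2 ^ (L * c.w))) ^ (2 * c.kl) * (natT P U α Φ T).card) := by
          refine mul_le_mul_of_nonneg_right ?_ (by positivity)
          exact mul_le_mul hQc e1 (by positivity) (by positivity)
      _ = c.h ^ (450 * A.card) * ((2 ^ (L * c.w) * 64 ^ L *
          (2 ^ c.w * (c.e0 * 2 ^ (L * c.w))) ^ (2 * c.kl)) * (natT P U α Φ T).card) := by ring
      _ ≤ c.h ^ (450 * A.card) * (c.h * (natT P U α Φ T).card) := by
          refine mul_le_mul_of_nonneg_left ?_ (by positivity)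
          exact mul_le_mul_of_nonneg_right (Ty2_num X.nk) (Nat.cast_nonneg _)
  have h6 : F * c.h ^ (750 * A.card) ≤ c.h * (natT P U α Φ T).card := by
    refine le_of_mul_le_mul_left ?_ (pow_pos hh0 (450 * A.card))
    calc c.h ^ (450 * A.card) * (F * c.h ^ (750 * A.card)) =
          F * c.h ^ (1200 * A.card) := by
          rw [show 1200 * A.card = 450 * A.card + 750 * A.card by ring, pow_add]
          ring
      _ ≤ _ := h5
  rw [← hF]
  refine le_of_mul_le_mul_left ?_ hh0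
  calc c.h * (F * c.h ^ (12 * min T.card c.t0)) = F * c.h ^ (12 * min T.card c.t0 + 1) := by
        rw [pow_succ]; ring
    _ ≤ F * c.h ^ (750 * A.card) := by
        refine mul_le_mul_of_nonneg_left (pow_le_pow_right₀ hh (by omega)) hF0
    _ ≤ _ := h6

end Pool.Agent.H82.RL
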