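/-
ROW Mv (about 150 lines). The violation lemma. m := min #T t0 >= 1.
mv_nat. PROOF. MVio T z gives A, q, E with rws E = T; the number of pairs (A, E) is <= 2^g 2^(L g) <= 2^(L w + w) <= h. For each pair use ty1 or ty2: each set has <= h^(-12 m) #natT elements (Ctx from the hypotheses). Sum: <= h h^(-12 m) #natT <= h^(-8 m) #natT.
mv_full. PROOF. cell_fib with X = pts, Q = MVio .. T (MVio_congr): the left set has sum_{z in natT, MVio} #cell(U ∪ T, z) elements; den_all_le (H49/RL/Cn3): #cell(U ∪ T, z) W(u + t) <= 8^L Tot. mv_nat, nat_card: #natT W(u) <= 8^L W(u + t), tot_le: Tot <= 8^L #cell W(u). 8^3 = 512; cancel W(u), W(u+t) > 0.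
mom2. PROOF. Vf P c O y T ∅ q z = VV (E := T ×ˢ univ) ∅ q z; vmom with m = 2 (2 g <= 2 K1), A = ∅: (1 + 2 g / B)^(2 g) <= 2^(2 g) <= 4^L (B >= 2 K1 w l >= 2 g by mB).
-/
import Pool.Agent.H82.RL.Ty1
import Pool.Agent.H82.RL.Ty2

set_option autoImplicit false
set_option linter.unusedSectionVars false

open Finset

namespace Pool.Agent.H82.RL

open Pool.Agent.H49.RG (nbr cell pts)
open Pool.Agent.H49.RL (Pl)

variable {ν ι : Type} [Fintype ν] [DecidableEq ν] {L g : ℕ}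

/-- The number of pairs of a set of positions and a component. -/
theorem Mv_pairs {c : H49.RL.Num} {R : ℕ} (hc : c.OK R L) (hg : g ≤ c.w) :
    (2 : ℝ) ^ (g + L * g) ≤ c.h := by
  refine le_trans (pow_le_pow_right₀ (by norm_num) ?_) (two_le_h hc)
  have h1 := K_pos hc
  have h2 := hc.L_pos
  have h3 : g ≤ c.K1 * c.w * L := by
    calc g ≤ c.w := hg
      _ = 1 * c.w * 1 := by ring
      _ ≤ c.K1 * c.w * L := Nat.mul_le_mul (Nat.mul_le_mul_right _ h1) h2
  have h4 : L * g ≤ c.K1 * c.w * L := by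
    calc L * g ≤ L * c.w := Nat.mul_le_mul_left _ hg
      _ = 1 * c.w * L := by ring
      _ ≤ c.K1 * c.w * L := Nat.mul_le_mul_right _ (Nat.mul_le_mul_right _ h1)
  omega

/-- For one pair. -/
theorem Mv_one {P : Pl ν L} {c : H49.RL.Num} {R : ℕ} {B l : ℝ} {U : Finset (Fin L)}
    {α : Fin L → ν} {Φ : Finset ν} {O : Finset ι} {y : ι → Fin g → ν} (X : Ctx P c R B l U α Φ O y)
    (T : Finset (Fin L)) (hT0 : T.Nonempty) (hT : Disjoint T U) (S : Finset (Fin L → ν))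
    (E : Finset (Fin L × Fin g)) (A : Finset (Fin g))
    (hS : ∀ z ∈ S, z ∈ natT P U α Φ T ∧ (rws E = T ∧ (∀ e ∈ E, e.2 ∉ A) ∧
      ∃ q : Fin g → ν, 1 / c.e0 * tht c L U.card B l ^ A.card < |ZZ P.G (1 / c.p) O y E A q z|) ∧
        ∀ T' ⊆ T, T' ≠ T → T'.Nonempty →
          ¬ Vio P.G (1 / c.p) O y (1 / c.e0) (tht c L U.card B l) T' z) :
    (S.card : ℝ) * c.h ^ (12 * min T.card c.t0) ≤ (natT P U α Φ T).card := by
  classical
  have hh : (0 : ℝ) ≤ c.h ^ (12 * min T.card c.t0) := by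
    have := X.nk.h_ge
    positivity
  rcases S.eq_empty_or_nonempty with h | h
  · subst h
    simp
  · obtain ⟨z0, hz0⟩ := h
    obtain ⟨-, ⟨hE, hEA, -⟩, -⟩ := hS z0 hz0
    rcases le_or_gt (60 * A.card) (min T.card c.t0) with hA | hA
    · have h1 := ty1 X T hT0 hT E hE A hEA hA
      refine le_trans (mul_le_mul_of_nonneg_right ?_ hh) h1
      exact_mod_cast card_le_card (fun z hz => by
        obtain ⟨a1, ⟨-, -, a2⟩, a3⟩ := hS z hz
        exact mem_filter.2 ⟨a1, a2, a3⟩)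
    · have h1 := ty2 X T hT0 hT E hE A hEA hA
      refine le_trans (mul_le_mul_of_nonneg_right ?_ hh) h1
      exact_mod_cast card_le_card (fun z hz => by
        obtain ⟨a1, ⟨-, -, a2⟩, -⟩ := hS z hz
        exact mem_filter.2 ⟨a1, a2⟩)

/-- The component of all positions in the rows `T`. -/
theorem Mv_Vf (P : Pl ν L) (c : H49.RL.Num) (O : Finset ι) (y : ι → Fin g → ν)
    (T : Finset (Fin L)) (q : Fin g → ν) (z : Fin L → ν) :
    Vf P c O y T ∅ q z = VV P.G (1 / c.p) O y (T ×ˢ univ) ∅ q z := by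
  classical
  have key : ∀ o : ι, (∏ e ∈ T ×ˢ (univ : Finset (Fin g)),
      (if P.G.Adj (z e.1) (y o e.2) then (1 / c.p) else 0)) =
      if (∀ i ∈ T, ∀ j : Fin g, P.G.Adj (z i) (y o j)) then (1 / c.p) ^ (g * T.card) else 0 := by
    intro o
    split_ifs with h
    · rw [prod_congr rfl (g := fun _ => (1 / c.p))]
      · rw [prod_const, card_product, card_univ, Fintype.card_fin, mul_comm]
      · intro e he
        rw [if_pos (h e.1 (mem_product.1 he).1 e.2)]
    · push Not at h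
      obtain ⟨i, hi, j, hj⟩ := h
      exact prod_eq_zero (i := (i, j)) (mem_product.2 ⟨hi, mem_univ _⟩) (if_neg hj)
  unfold Vf VV
  rw [fam_empty, card_empty, Nat.sub_zero, mul_div_assoc, ← mul_div_assoc]
  congr 1
  rw [sum_congr rfl (fun o _ => key o), ← sum_filter, sum_const, nsmul_eq_mul, mul_comm]
  congr 2
  · refine congrArg card (filter_congr fun o _ => ?_)
    simp

open Classical in
theorem mv_nat {P : Pl ν L} {c : H49.RL.Num} {R : ℕ} (h : P.OK c) (hc : c.OK R L) {B l : ℝ}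
    (ht : c.TOK L B l) (U : Finset (Fin L)) (α : Fin L → ν) (Φ : Finset ν) (hΦ : Φ ⊆ P.Out)
    (hΦc : Φ.card ≤ 3 * L) (hv : P.Val U α Φ) (hg : g ≤ c.w) (O : Finset ι) (y : ι → Fin g → ν)
    (hy : Fam P U α Φ O y (rho c L U.card B)) (T : Finset (Fin L)) (hT0 : T.Nonempty)
    (hT : Disjoint T U) :
    (((natT P U α Φ T).filter (fun z =>
      MVio P.G (1 / c.p) O y (1 / c.e0) (tht c L U.card B l) T z)).card : ℝ) *
      c.h ^ (8 * min T.card c.t0) ≤ (natT P U α Φ T).card := by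
  classical
  have X : Ctx P c R B l U α Φ O y := ⟨h, hc, ht, hΦ, hΦc, hv, hg, hy⟩
  set m := min T.card c.t0 with hm
  have hm1 : 1 ≤ m := le_min (card_pos.2 hT0) hc.t0_pos
  have hh := hc.h_ge
  have hh0 : (0 : ℝ) < c.h := by linarith
  set N := natT P U α Φ T with hN
  set S : Finset (Fin g) × Finset (Fin L × Fin g) → Finset (Fin L → ν) := fun p =>
    N.filter (fun z => (rws p.2 = T ∧ (∀ e ∈ p.2, e.2 ∉ p.1) ∧
      ∃ q : Fin g → ν, 1 / c.e0 * tht c L U.card B l ^ p.1.card <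
        |ZZ P.G (1 / c.p) O y p.2 p.1 q z|) ∧
        ∀ T' ⊆ T, T' ≠ T → T'.Nonempty →
          ¬ Vio P.G (1 / c.p) O y (1 / c.e0) (tht c L U.card B l) T' z) with hS
  have hone : ∀ p, ((S p).card : ℝ) * c.h ^ (12 * m) ≤ N.card := fun p =>
    Mv_one X T hT0 hT (S p) p.2 p.1 (fun z hz => mem_filter.1 hz)
  have hsub : (N.filter (fun z =>
      MVio P.G (1 / c.p) O y (1 / c.e0) (tht c L U.card B l) T z)) ⊆ univ.biUnion S := by
    intro z hz
    obtain ⟨hz1, ⟨A, q, E, e1, e2, e3⟩, hz2⟩ := mem_filter.1 hz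
    exact mem_biUnion.2 ⟨(A, E), mem_univ _, mem_filter.2 ⟨hz1, ⟨e1, e2, q, e3⟩, hz2⟩⟩
  have hcard : ((N.filter (fun z =>
      MVio P.G (1 / c.p) O y (1 / c.e0) (tht c L U.card B l) T z)).card : ℝ) ≤
        ∑ p, ((S p).card : ℝ) := by
    have := (card_le_card hsub).trans card_biUnion_le
    exact_mod_cast this
  have hpairs : (Fintype.card (Finset (Fin g) × Finset (Fin L × Fin g)) : ℝ) =
      2 ^ (g + L * g) := by
    rw [Fintype.card_prod, Fintype.card_finset, Fintype.card_finset, Fintype.card_prod,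
      Fintype.card_fin, Fintype.card_fin, pow_add]
    push_cast
    rfl
  have h4 : ((N.filter (fun z =>
      MVio P.G (1 / c.p) O y (1 / c.e0) (tht c L U.card B l) T z)).card : ℝ) * c.h ^ (12 * m) ≤
        c.h * N.card := by
    calc _ ≤ (∑ p, ((S p).card : ℝ)) * c.h ^ (12 * m) :=
          mul_le_mul_of_nonneg_right hcard (by positivity)
      _ = ∑ p, ((S p).card : ℝ) * c.h ^ (12 * m) := by rw [sum_mul]
      _ ≤ ∑ _p : Finset (Fin g) × Finset (Fin L × Fin g), (N.card : ℝ) :=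
          sum_le_sum fun p _ => hone p
      _ = 2 ^ (g + L * g) * N.card := by
          rw [sum_const, card_univ, nsmul_eq_mul, hpairs]
      _ ≤ c.h * N.card := mul_le_mul_of_nonneg_right (Mv_pairs hc hg) (Nat.cast_nonneg _)
  have h5 : c.h ≤ c.h ^ (4 * m) := le_self_pow₀ hh (by omega)
  have h6 : c.h ^ (12 * m) = c.h ^ (8 * m) * c.h ^ (4 * m) := by
    rw [← pow_add]
    congr 1
    omega
  refine le_of_mul_le_mul_right (a := c.h ^ (4 * m)) ?_ (by positivity)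
  calc _ = ((N.filter (fun z =>
      MVio P.G (1 / c.p) O y (1 / c.e0) (tht c L U.card B l) T z)).card : ℝ) * c.h ^ (12 * m) := by
        rw [h6]; ring
    _ ≤ c.h * N.card := h4
    _ ≤ c.h ^ (4 * m) * N.card := mul_le_mul_of_nonneg_right h5 (Nat.cast_nonneg _)
    _ = N.card * c.h ^ (4 * m) := mul_comm _ _

open Classical in
theorem mv_full {P : Pl ν L} {c : H49.RL.Num} {R : ℕ} (h : P.OK c) (hc : c.OK R L) {B l : ℝ}
    (ht : c.TOK L B l) (U : Finset (Fin L)) (α : Fin L → ν) (Φ : Finset ν) (hΦ : Φ ⊆ P.Out)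
    (hΦc : Φ.card ≤ 3 * L) (hv : P.Val U α Φ) (hg : g ≤ c.w) (O : Finset ι) (y : ι → Fin g → ν)
    (hy : Fam P U α Φ O y (rho c L U.card B)) (T : Finset (Fin L)) (hT0 : T.Nonempty)
    (hT : Disjoint T U) :
    (((cell P.G (pts P.G P.V) U α Φ).filter (fun z =>
      MVio P.G (1 / c.p) O y (1 / c.e0) (tht c L U.card B l) T z)).card : ℝ) *
      c.h ^ (8 * min T.card c.t0) ≤ 512 ^ L * (cell P.G (pts P.G P.V) U α Φ).card := by
  classical
  have hp := hc.p_pos
  have hn := hc.n_pos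
  have hh := hc.h_ge
  have hh0 : (0 : ℝ) < c.h := by linarith
  have h1 := mv_nat h hc ht U α Φ hΦ hΦc hv hg O y hy T hT0 hT
  obtain ⟨h2, -⟩ := nat_card h hc U α Φ hΦ hΦc hv T hT
  have h3 := H49.RL.tot_le h hc U α Φ hΦ hΦc hv
  set Q : (Fin L → ν) → Prop := fun z =>
    MVio P.G (1 / c.p) O y (1 / c.e0) (tht c L U.card B l) T z with hQ
  have h4 := cell_fib P (pts P.G P.V) (Subset.refl _) U α Φ T hT Q
    (fun x x' hx hq => MVio_congr hx hq)
  set m := min T.card c.t0 with hm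
  set N := (natT P U α Φ T).filter Q with hN
  set Lf := (cell P.G (pts P.G P.V) U α Φ).filter Q with hLf
  have hW0 : 0 < c.W L U.card Φ.card := H49.RL.Num.W_pos hp hn _ _ _
  have hW1 : 0 < c.W L (U.card + T.card) Φ.card := H49.RL.Num.W_pos hp hn _ _ _
  have hT0' : 0 < c.Tot L := H49.RL.Num.Tot_pos hp hn L
  have hUT : (U ∪ T).card = U.card + T.card := card_union_of_disjoint hT.symm
  have h5 : (Lf.card : ℝ) * c.W L (U.card + T.card) Φ.card ≤ N.card * (8 ^ L * c.Tot L) := by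
    rw [h4]
    push_cast
    rw [sum_mul]
    calc _ ≤ ∑ _z ∈ N, (8 : ℝ) ^ L * c.Tot L := by
          refine sum_le_sum fun z _ => ?_
          have := H49.RL.den_all_le h hc (U ∪ T) z Φ hΦ hΦc
          unfold H49.RL.Pl.den at this
          rwa [hUT] at this
      _ = _ := by rw [sum_const, nsmul_eq_mul]
  unfold H49.RL.Pl.den at h3
  have h512 : (512 : ℝ) ^ L = 8 ^ L * 8 ^ L * 8 ^ L := by
    rw [← mul_pow, ← mul_pow]; norm_num
  set C := ((cell P.G (pts P.G P.V) U α Φ).card : ℝ) with hC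
  refine le_of_mul_le_mul_right (a := c.W L (U.card + T.card) Φ.card * c.W L U.card Φ.card) ?_
    (mul_pos hW1 hW0)
  calc (Lf.card : ℝ) * c.h ^ (8 * m) * (c.W L (U.card + T.card) Φ.card * c.W L U.card Φ.card)
      = (Lf.card * c.W L (U.card + T.card) Φ.card) * (c.h ^ (8 * m) * c.W L U.card Φ.card) := by ring
    _ ≤ (N.card * (8 ^ L * c.Tot L)) * (c.h ^ (8 * m) * c.W L U.card Φ.card) :=
        mul_le_mul_of_nonneg_right h5 (by positivity)
    _ = (N.card * c.h ^ (8 * m)) * (8 ^ L * c.Tot L * c.W L U.card Φ.card) := by ring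
    _ ≤ (natT P U α Φ T).card * (8 ^ L * c.Tot L * c.W L U.card Φ.card) :=
        mul_le_mul_of_nonneg_right h1 (by positivity)
    _ = ((natT P U α Φ T).card * c.W L U.card Φ.card) * (8 ^ L * c.Tot L) := by ring
    _ ≤ (8 ^ L * c.W L (U.card + T.card) Φ.card) * (8 ^ L * c.Tot L) :=
        mul_le_mul_of_nonneg_right h2 (by positivity)
    _ ≤ (8 ^ L * c.W L (U.card + T.card) Φ.card) * (8 ^ L * (8 ^ L * (C * c.W L U.card Φ.card))) :=
        mul_le_mul_of_nonneg_left (mul_le_mul_of_nonneg_left h3 (by positivity)) (by positivity)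
    _ = 512 ^ L * C * (c.W L (U.card + T.card) Φ.card * c.W L U.card Φ.card) := by
        rw [h512]; ring

theorem mom2 {P : Pl ν L} {c : H49.RL.Num} {R : ℕ} (h : P.OK c) (hc : c.OK R L) {B l : ℝ}
    (ht : c.TOK L B l) (U : Finset (Fin L)) (α : Fin L → ν) (Φ : Finset ν) (hΦ : Φ ⊆ P.Out)
    (hΦc : Φ.card ≤ 3 * L) (hv : P.Val U α Φ) (hg : g ≤ c.w) (O : Finset ι) (y : ι → Fin g → ν)
    (hy : Fam P U α Φ O y (rho c L U.card B)) (T : Finset (Fin L)) (hT : Disjoint T U)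
    (q : Fin g → ν) :
    ∑ z ∈ natT P U α Φ T, Vf P c O y T ∅ q z ^ 2 ≤ 256 ^ L * (natT P U α Φ T).card := by
  have X : Ctx P c R B l U α Φ O y := ⟨h, hc, ht, hΦ, hΦc, hv, hg, hy⟩
  have hK := w_le_K hc
  have h8 := K_le_L hc
  have hB := B_pos hc ht
  have h1 := vmom X T hT (T ×ˢ univ) (fun e he => (mem_product.1 he).1) ∅ (by simp) 2
    (by omega) q
  have h2 : ∀ z, Vf P c O y T ∅ q z ^ 2 = VV P.G (1 / c.p) O y (T ×ˢ univ) ∅ q z ^ 2 := fun z => by
    rw [Mv_Vf]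
  rw [sum_congr rfl fun z _ => h2 z]
  refine h1.trans (mul_le_mul_of_nonneg_right ?_ (Nat.cast_nonneg _))
  rw [card_empty, pow_zero, mul_one]
  have h3 : (2 : ℝ) * g ≤ B := by
    have e1 := ht.mB
    have e2 := ht.l_ge
    have e3 : (1 : ℝ) ≤ c.K1 := by exact_mod_cast K_pos hc
    have e4 : (g : ℝ) ≤ c.w := by exact_mod_cast hg
    have e5 : (0 : ℝ) ≤ g := Nat.cast_nonneg _
    calc (2 : ℝ) * g ≤ 2 * c.w := by linarith
      _ ≤ 2 * c.w * (c.K1 * l) := by
          refine le_mul_of_one_le_right (by linarith) ?_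
          exact one_le_mul_of_one_le_of_one_le e3 e2
      _ = 2 * (c.K1 : ℝ) * c.w * l := by ring
      _ ≤ B := e1
  have h4 : (1 : ℝ) + ((2 : ℕ) : ℝ) * g / B ≤ 2 := by
    have : ((2 : ℕ) : ℝ) * g / B ≤ 1 := by
      rw [div_le_one hB]
      exact_mod_cast h3
    linarith
  have h5 : (0 : ℝ) ≤ 1 + ((2 : ℕ) : ℝ) * g / B := by positivity
  calc (64 : ℝ) ^ L * ((1 + ((2 : ℕ) : ℝ) * g / B) ^ g) ^ 2
      ≤ 64 ^ L * ((2 : ℝ) ^ g) ^ 2 := by gcongr
    _ = 64 ^ L * 4 ^ g := by rw [← pow_mul, mul_comm g 2, pow_mul]; norm_num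
    _ ≤ 64 ^ L * 4 ^ L := by
        refine mul_le_mul_of_nonneg_left (pow_le_pow_right₀ (by norm_num) (by omega)) (by positivity)
    _ = 256 ^ L := by rw [← mul_pow]; norm_num

end Pool.Agent.H82.RL
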