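/-
ROW Cp2 (about 60 lines; helper80). One copy without components: the earlier letters are the set B.
PROOF. As copy_bound in Cpy.lean with E = ∅, S = ∅, f = 1, keeping the factor: group the o by A' = {j in N | y o j in B}: La^#A' times the number of o in fam O y A om with y o j in B on A', at most #B^#A' th^(#A + #A') #O; sum over A' in N.powerset of (#B La th)^#A' = (1 + #B La th)^#N <= (1 + #B La th)^g.
-/
import Pool.Agent.H82.RL.Cpy

set_option autoImplicit false
set_option linter.unusedSectionVars false

open Finset

namespace Pool.Agent.H82.RL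

variable {ν ι : Type} [Fintype ν] [DecidableEq ν] {L g : ℕ}

theorem copy_card {th La : ℝ} (hth : 0 < th) {O : Finset ι} {y : ι → Fin g → ν}
    (hsp : ∀ (A : Finset (Fin g)) (q : Fin g → ν), ((fam O y A q).card : ℝ) ≤ th ^ A.card * O.card)
    (A N : Finset (Fin g)) (om : Fin g → ν) (hAN : Disjoint A N) (hLa1 : 1 ≤ La) (B : Finset ν) :
    ∑ o ∈ fam O y A om, La ^ ((N.filter fun j => y o j ∈ B).card) ≤
      O.card * ((1 + B.card * (La * th)) ^ g * th ^ A.card) := by
  classical
  have hL0 : (0 : ℝ) < La := by linarith
  set bp : ι → Finset (Fin g) := fun o => N.filter fun j => y o j ∈ B with hbp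
  -- group by the positions with letters in `B`
  have h1 : ∑ o ∈ fam O y A om, La ^ (bp o).card =
      ∑ A' ∈ N.powerset, ∑ o ∈ (fam O y A om).filter (fun o => bp o = A'),
        La ^ (bp o).card := by
    rw [sum_fiberwise_of_maps_to]
    intro o _
    exact mem_powerset.2 (filter_subset _ _)
  have h2 : ∀ A' ∈ N.powerset, ∑ o ∈ (fam O y A om).filter (fun o => bp o = A'),
        La ^ (bp o).card ≤ (O.card * th ^ A.card) * ((B.card : ℝ) * (La * th)) ^ A'.card := by
    intro A' hA'
    rw [mem_powerset] at hA'
    have hAA' : Disjoint A A' := hAN.mono_right hA'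
    have e1 : ∑ o ∈ (fam O y A om).filter (fun o => bp o = A'), La ^ (bp o).card =
        (((fam O y A om).filter (fun o => bp o = A')).card : ℝ) * La ^ A'.card := by
      rw [← nsmul_eq_mul, ← sum_const]
      exact sum_congr rfl fun o ho => by rw [(mem_filter.1 ho).2]
    set Q : Finset (Fin g → ν) := Fintype.piFinset (fun j => if j ∈ A' then B else {om j}) with hQ
    set mp : ι → (Fin g → ν) := fun o j => if j ∈ A' then y o j else om j with hmp
    have hQc : (Q.card : ℝ) = (B.card : ℝ) ^ A'.card := by
      rw [hQ, Fintype.card_piFinset]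
      push_cast
      have : ∀ j : Fin g, (((if j ∈ A' then B else {om j} : Finset ν).card : ℕ) : ℝ) =
          if j ∈ A' then (B.card : ℝ) else 1 := by
        intro j
        split_ifs <;> simp
      rw [prod_congr rfl fun j _ => this j, prod_ite_mem, univ_inter, prod_const]
    have e2 : (((fam O y A om).filter (fun o => bp o = A')).card : ℝ) ≤
        ∑ q ∈ Q, ((fam O y (A ∪ A') q).card : ℝ) := by
      rw [card_eq_sum_card_fiberwise (f := mp) (t := Q)]
      · push_cast
        refine sum_le_sum fun q _ => ?_
        have hsub : ((fam O y A om).filter (fun o => bp o = A')).filter (fun o => mp o = q) ⊆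
            fam O y (A ∪ A') q := by
          intro o ho
          obtain ⟨ho1, ho2⟩ := mem_filter.1 ho
          obtain ⟨ho3, _⟩ := mem_filter.1 ho1
          obtain ⟨ho4, ho5⟩ := mem_fam.1 ho3
          refine mem_fam.2 ⟨ho4, fun j hj => ?_⟩
          rw [← ho2]
          rcases mem_union.1 hj with hj | hj
          · have : j ∉ A' := fun h => disjoint_left.1 hAA' hj h
            simp only [hmp, this, if_false]
            exact ho5 j hj
          · simp only [hmp, hj, if_true]
        exact_mod_cast card_le_card hsub
      · intro o ho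
        obtain ⟨_, ho1⟩ := mem_filter.1 (mem_coe.1 ho)
        rw [mem_coe, hQ, Fintype.mem_piFinset]
        intro j
        by_cases hj : j ∈ A'
        · simp only [hmp, hj, if_true]
          rw [← ho1] at hj
          exact (mem_filter.1 hj).2
        · simp [hmp, hj]
    have e3 : ∑ q ∈ Q, ((fam O y (A ∪ A') q).card : ℝ) ≤
        (B.card : ℝ) ^ A'.card * (th ^ (A.card + A'.card) * O.card) := by
      rw [← hQc, ← nsmul_eq_mul, ← sum_const]
      refine sum_le_sum fun q _ => ?_
      rw [← card_union_of_disjoint hAA']
      exact hsp _ _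
    calc _ = (((fam O y A om).filter (fun o => bp o = A')).card : ℝ) * La ^ A'.card := e1
      _ ≤ ((B.card : ℝ) ^ A'.card * (th ^ (A.card + A'.card) * O.card)) * La ^ A'.card :=
          mul_le_mul_of_nonneg_right (e2.trans e3) (by positivity)
      _ = _ := by rw [mul_pow, mul_pow, pow_add]; ring
  rw [h1]
  refine (sum_le_sum h2).trans ?_
  rw [← mul_sum]
  have h4 : ∑ A' ∈ N.powerset, ((B.card : ℝ) * (La * th)) ^ A'.card =
      (1 + B.card * (La * th)) ^ N.card := by
    have := Finset.sum_pow_mul_eq_add_pow ((B.card : ℝ) * (La * th)) 1 N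
    simp only [one_pow, mul_one] at this
    rw [this, add_comm]
  rw [h4]
  have h5 : (1 + (B.card : ℝ) * (La * th)) ^ N.card ≤ (1 + B.card * (La * th)) ^ g := by
    refine pow_le_pow_right₀ ?_ ?_
    · have : (0 : ℝ) ≤ (B.card : ℝ) * (La * th) := by positivity
      linarith
    · have := card_le_univ N
      rwa [Fintype.card_fin] at this
  calc (O.card : ℝ) * th ^ A.card * (1 + B.card * (La * th)) ^ N.card ≤
        (O.card : ℝ) * th ^ A.card * (1 + B.card * (La * th)) ^ g :=
        mul_le_mul_of_nonneg_left h5 (by positivity)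
    _ = _ := by ring

end Pool.Agent.H82.RL
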