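/-
ROW Vm (about 150 lines). Moments of the nonnegative components. M = 1/p, t = #T.
PROOF. m = 0 is trivial up to constants. VV^m = #O^(-m) sum_{o in Fintype.piFinset (fun _ : Fin m => fam O y A q)} prod_r prod_{e in E} (if adj then M else 0) (Finset.prod_univ_sum with constant factors).
 For fixed o: prod_r prod_e (..) (z) = M^(m #E) if z is adjacent to all letters, 0 otherwise: sum over z in natT T = M^(m #E) #(natD P U α Φ D T), D i := ((univ : Finset (Fin m)) ×ˢ nb E i).image (fun p => y (o p.1) p.2) for i in T (and also for the others, nb E i = ∅ there by hE).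
 natD_le (Nat.lean; D i ⊆ Out by fa.out, disjoint from Φ by fa.dis, #(D i) <= m g <= 2 K1): <= 64^L p^(sum_{i in T} #(D i)) #natT. #E = sum_{i in T} #(nb E i).
 rep_card (Seq.lean) with I := nb E i, S := ∅, N := Aᶜ: m #(nb E i) <= #(D i) + sum_r #(Rep y N o r). So M^(m #E) p^(sum #(D i)) <= (M^t)^(sum_r #Rep r) = prod_r (M^t)^(#Rep r)   (M = 1/p >= 1).
 seq_sum with f = 1, Λ = M^t, O' = fam O y A q, K = m and copy_card (Cp2.lean) with th = 1/rho (Ctx.hsp), La = M^t: c := #O * ((1 + m g / B)^g * (1/rho)^#A), since La th = M^t / (M^(L-u) B) <= 1 / B (t <= L - u by hT) and #B0 <= m g.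
-/
import Pool.Agent.H82.RL.Nat
import Pool.Agent.H82.RL.Cp2
import Pool.Agent.H82.RL.Seq

set_option autoImplicit false
set_option linter.unusedSectionVars false

open Finset

namespace Pool.Agent.H82.RL

open Pool.Agent.H49.RG (nbr cell pts)
open Pool.Agent.H49.RL (Pl)

variable {ν ι : Type} [Fintype ν] [DecidableEq ν] {L g : ℕ}

open Classical in
/-- The nonnegative component `E`. -/
noncomputable def VV (G : SimpleGraph ν) (M : ℝ) (O : Finset ι) (y : ι → Fin g → ν)
    (E : Finset (Fin L × Fin g)) (A : Finset (Fin g)) (q : Fin g → ν) (x : Fin L → ν) : ℝ :=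
  (∑ o ∈ fam O y A q, ∏ e ∈ E, (if G.Adj (x e.1) (y o e.2) then M else 0)) / O.card

section Vm_aux

variable {P : Pl ν L} {c : H49.RL.Num} {R : ℕ} {B l : ℝ} {U : Finset (Fin L)} {α : Fin L → ν}
    {Φ : Finset ν} {O : Finset ι} {y : ι → Fin g → ν}

/-- The letters of the copies in the row `i`. -/
def Vm_D {m : ℕ} (y : ι → Fin g → ν) (E : Finset (Fin L × Fin g)) (o : Fin m → ι) (i : Fin L) :
    Finset ν :=
  ((univ : Finset (Fin m)) ×ˢ nb E i).image (fun p => y (o p.1) p.2)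

lemma Vm_card_nb (E : Finset (Fin L × Fin g)) (T : Finset (Fin L)) (hE : ∀ e ∈ E, e.1 ∈ T) :
    E.card = ∑ i ∈ T, (nb E i).card := by
  classical
  rw [card_eq_sum_card_fiberwise (f := Prod.fst) (t := T) (fun e he => hE e he)]
  refine sum_congr rfl fun i _ => ?_
  unfold nb
  rw [card_image_of_injOn]
  rintro ⟨a, b⟩ h1 ⟨a', b'⟩ h2 h3
  rw [mem_coe, mem_filter] at h1 h2
  simp only at h1 h2 h3
  rw [h1.2, h2.2, h3]

lemma Vm_term {m : ℕ} (T : Finset (Fin L)) (E : Finset (Fin L × Fin g)) (M : ℝ) (hM : 0 ≤ M) (o : Fin m → ι) (z : Fin L → ν) (hz : z ∈ natT P U α Φ T)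
    [∀ (v w : ν), Decidable (P.G.Adj v w)] [Decidable (z ∈ natD P U α Φ (Vm_D y E o) T)] :
    ∏ r, ∏ e ∈ E, (if P.G.Adj (z e.1) (y (o r) e.2) then M else 0) ≤
      if z ∈ natD P U α Φ (Vm_D y E o) T then M ^ (m * E.card) else 0 := by
  by_cases hD : z ∈ natD P U α Φ (Vm_D y E o) T
  · rw [if_pos hD]
    calc ∏ r, ∏ e ∈ E, (if P.G.Adj (z e.1) (y (o r) e.2) then M else 0)
        ≤ ∏ _r : Fin m, ∏ _e ∈ E, M := by
          refine prod_le_prod (fun r _ => prod_nonneg fun e _ => ?_) fun r _ =>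
            prod_le_prod (fun e _ => ?_) fun e _ => ?_
          · split_ifs
            · exact hM
            · exact le_rfl
          · split_ifs
            · exact hM
            · exact le_rfl
          · split_ifs
            · exact le_rfl
            · exact hM
      _ = M ^ (m * E.card) := by
          rw [prod_const, prod_const, card_univ, Fintype.card_fin, ← pow_mul, mul_comm]
  · rw [if_neg hD]
    rw [mem_natD] at hD
    rw [mem_natT] at hz
    have h1 : ∃ i ∈ T, ∃ v ∈ Vm_D y E o i, ¬ P.G.Adj (z i) v := by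
      by_contra hcon
      push Not at hcon
      exact hD ⟨hz.1, hz.2.1, hz.2.2.1, hz.2.2.2, hcon⟩
    obtain ⟨i, hi, v, hv, hn⟩ := h1
    unfold Vm_D at hv
    rw [mem_image] at hv
    obtain ⟨⟨r, j⟩, hp, rfl⟩ := hv
    rw [mem_product, mem_nb] at hp
    have h2 : ∏ r, ∏ e ∈ E, (if P.G.Adj (z e.1) (y (o r) e.2) then M else 0) = 0 := by
      refine prod_eq_zero (mem_univ r) ?_
      refine prod_eq_zero hp.2 ?_
      rw [if_neg hn]
    rw [h2]

lemma Vm_row (X : Ctx P c R B l U α Φ O y)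
    (T : Finset (Fin L)) (hT : Disjoint T U) (E : Finset (Fin L × Fin g)) (hE : ∀ e ∈ E, e.1 ∈ T)
    (A : Finset (Fin g)) (hEA : ∀ e ∈ E, e.2 ∉ A) (m : ℕ) (hm : m * g ≤ 2 * c.K1)
    (o : Fin m → ι) (ho : ∀ r, o r ∈ O) [∀ (v w : ν), Decidable (P.G.Adj v w)] :
    ∑ z ∈ natT P U α Φ T, ∏ r, ∏ e ∈ E, (if P.G.Adj (z e.1) (y (o r) e.2) then 1 / c.p else 0) ≤
      64 ^ L * (natT P U α Φ T).card * ∏ r, ((1 / c.p) ^ T.card) ^ ((Rep y Aᶜ o r).card) := by
  classical
  have hp := X.nk.p_pos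
  have hM := M_ge X.nk
  have hM0 : (0 : ℝ) ≤ 1 / c.p := by linarith
  have hDc : ∀ i, (Vm_D y E o i).card ≤ 2 * c.K1 := by
    intro i
    refine le_trans (card_image_le.trans ?_) hm
    rw [card_product, card_univ, Fintype.card_fin]
    refine Nat.mul_le_mul_left _ ?_
    exact (card_le_univ _).trans (by rw [Fintype.card_fin])
  have hDo : ∀ i, Vm_D y E o i ⊆ P.Out := by
    intro i v hv
    unfold Vm_D at hv
    obtain ⟨⟨r, j⟩, _, rfl⟩ := mem_image.1 hv
    exact X.fa.out _ (ho r) j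
  have hDd : ∀ i, Disjoint (Vm_D y E o i) Φ := by
    intro i
    rw [disjoint_left]
    intro v hv
    unfold Vm_D at hv
    obtain ⟨⟨r, j⟩, _, rfl⟩ := mem_image.1 hv
    exact X.fa.dis _ (ho r) j
  have h1 := natD_le X.ok X.nk U α Φ (Vm_D y E o) X.phi X.phic hDo hDd hDc X.val T hT
  have h2 : ∑ z ∈ natT P U α Φ T,
      ∏ r, ∏ e ∈ E, (if P.G.Adj (z e.1) (y (o r) e.2) then 1 / c.p else 0) ≤
      (natD P U α Φ (Vm_D y E o) T).card * (1 / c.p) ^ (m * E.card) := by
    calc ∑ z ∈ natT P U α Φ T,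
          ∏ r, ∏ e ∈ E, (if P.G.Adj (z e.1) (y (o r) e.2) then 1 / c.p else 0)
        ≤ ∑ z ∈ natT P U α Φ T, (if z ∈ natD P U α Φ (Vm_D y E o) T then
            (1 / c.p) ^ (m * E.card) else 0) :=
          sum_le_sum fun z hz => Vm_term T E (1 / c.p) hM0 o z hz
      _ = ((natT P U α Φ T).filter (fun z => z ∈ natD P U α Φ (Vm_D y E o) T)).card *
            (1 / c.p) ^ (m * E.card) := by
          rw [← sum_filter, sum_const, nsmul_eq_mul]
      _ ≤ _ := by
          refine mul_le_mul_of_nonneg_right ?_ (by positivity)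
          exact_mod_cast card_le_card (fun z hz => (mem_filter.1 hz).2)
  have h3 : m * E.card ≤ ∑ i ∈ T, (Vm_D y E o i).card + T.card * ∑ r, (Rep y Aᶜ o r).card := by
    rcases Nat.eq_zero_or_pos m with hm0 | hm0
    · subst hm0; simp
    rw [Vm_card_nb E T hE, mul_sum, ← smul_eq_mul T.card, ← sum_const, ← sum_add_distrib]
    refine sum_le_sum fun i _ => ?_
    have h4 := rep_card y o (fun r => X.fa.inj _ (ho r)) (nb E i) ∅ Aᶜ
      (fun j => y (o ⟨0, hm0⟩) j) (fun r j hj => absurd hj (notMem_empty j)) (fun j hj => by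
        rw [mem_compl]
        exact hEA _ (mem_nb.1 (mem_sdiff.1 hj).1))
    unfold Vm_D
    simpa using h4
  have h4 : (c.p ^ (∑ i ∈ T, (Vm_D y E o i).card)) * (1 / c.p) ^ (∑ i ∈ T, (Vm_D y E o i).card) =
      1 := by
    rw [← mul_pow, mul_one_div_cancel hp.ne', one_pow]
  calc ∑ z ∈ natT P U α Φ T,
        ∏ r, ∏ e ∈ E, (if P.G.Adj (z e.1) (y (o r) e.2) then 1 / c.p else 0)
      ≤ (natD P U α Φ (Vm_D y E o) T).card * (1 / c.p) ^ (m * E.card) := h2
    _ ≤ (64 ^ L * c.p ^ (∑ i ∈ T, (Vm_D y E o i).card) * (natT P U α Φ T).card) *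
          (1 / c.p) ^ (∑ i ∈ T, (Vm_D y E o i).card + T.card * ∑ r, (Rep y Aᶜ o r).card) := by
        refine mul_le_mul h1 (pow_le_pow_right₀ hM h3) (by positivity) (by positivity)
    _ = 64 ^ L * (natT P U α Φ T).card *
          (c.p ^ (∑ i ∈ T, (Vm_D y E o i).card) *
            (1 / c.p) ^ (∑ i ∈ T, (Vm_D y E o i).card)) *
          (1 / c.p) ^ (T.card * ∑ r, (Rep y Aᶜ o r).card) := by
        rw [pow_add]; ring
    _ = 64 ^ L * (natT P U α Φ T).card * ∏ r, ((1 / c.p) ^ T.card) ^ ((Rep y Aᶜ o r).card) := by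
        rw [h4, mul_one, prod_pow_eq_pow_sum, pow_mul]

end Vm_aux

theorem vmom {P : Pl ν L} {c : H49.RL.Num} {R : ℕ} {B l : ℝ} {U : Finset (Fin L)} {α : Fin L → ν}
    {Φ : Finset ν} {O : Finset ι} {y : ι → Fin g → ν} (X : Ctx P c R B l U α Φ O y)
    (T : Finset (Fin L)) (hT : Disjoint T U) (E : Finset (Fin L × Fin g)) (hE : ∀ e ∈ E, e.1 ∈ T)
    (A : Finset (Fin g)) (hEA : ∀ e ∈ E, e.2 ∉ A) (m : ℕ) (hm : m * g ≤ 2 * c.K1)
    (q : Fin g → ν) :
    ∑ z ∈ natT P U α Φ T, VV P.G (1 / c.p) O y E A q z ^ m ≤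
      64 ^ L * ((1 + m * g / B) ^ g * (1 / rho c L U.card B) ^ A.card) ^ m *
        (natT P U α Φ T).card := by
  classical
  have hp := X.nk.p_pos
  have hM := M_ge X.nk
  have hM0 : (0 : ℝ) < 1 / c.p := by linarith
  have hB := B_pos X.nk X.tk
  have hrho := rho_pos X.nk X.tk U.card
  have hO : (0 : ℝ) < O.card := by exact_mod_cast X.fa.ne.card_pos
  have ht : T.card ≤ L - U.card := by
    have h1 : (T ∪ U).card ≤ L := (card_le_univ _).trans (by rw [Fintype.card_fin])
    rw [card_union_of_disjoint hT] at h1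
    omega
  have hLa : (1 / c.p) ^ T.card * (1 / rho c L U.card B) ≤ 1 / B := by
    unfold rho
    rw [mul_one_div, div_le_div_iff₀ (by positivity) hB, one_mul]
    exact mul_le_mul_of_nonneg_right (pow_le_pow_right₀ hM ht) hB.le
  have hC : ∀ B0 : Finset ν, B0.card ≤ m * g →
      ∑ o ∈ fam O y A q, (1 : ℝ) * ((1 / c.p) ^ T.card) ^ ((Aᶜ.filter fun j => y o j ∈ B0).card) ≤
        O.card * ((1 + m * g / B) ^ g * (1 / rho c L U.card B) ^ A.card) := by
    intro B0 hB0
    have h1 := copy_card (th := 1 / rho c L U.card B) (La := (1 / c.p) ^ T.card)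
      (by positivity) X.hsp A Aᶜ q disjoint_compl_right (one_le_pow₀ hM) B0
    simp only [one_mul]
    refine h1.trans ?_
    refine mul_le_mul_of_nonneg_left ?_ hO.le
    refine mul_le_mul_of_nonneg_right ?_ (by positivity)
    refine pow_le_pow_left₀ (by positivity) ?_ _
    have h2 : (B0.card : ℝ) ≤ m * g := by exact_mod_cast hB0
    have h3 : (B0.card : ℝ) * ((1 / c.p) ^ T.card * (1 / rho c L U.card B)) ≤
        (m * g) * (1 / B) := mul_le_mul h2 hLa (by positivity) (by positivity)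
    have h4 : ((m : ℝ) * g) * (1 / B) = m * g / B := mul_one_div _ _
    rw [h4] at h3
    linarith
  have hS := seq_sum y Aᶜ (fam O y A q) m (fun _ => (1 : ℝ)) (fun _ _ => zero_le_one)
    ((1 / c.p) ^ T.card) (one_le_pow₀ hM) _ hC
  simp only [one_mul] at hS
  have h1 : ∀ z : Fin L → ν, VV P.G (1 / c.p) O y E A q z ^ m =
      (∑ o ∈ Fintype.piFinset (fun _ : Fin m => fam O y A q), ∏ r, ∏ e ∈ E,
        (if P.G.Adj (z e.1) (y (o r) e.2) then 1 / c.p else 0)) / (O.card : ℝ) ^ m := by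
    intro z
    unfold VV
    rw [div_pow]
    congr 1
    have h3 := prod_univ_sum (fun _ : Fin m => fam O y A q)
      (fun _ o => ∏ e ∈ E, (if P.G.Adj (z e.1) (y o e.2) then 1 / c.p else 0))
    rw [prod_const, card_univ, Fintype.card_fin] at h3
    exact h3
  have h2 : ∑ z ∈ natT P U α Φ T, VV P.G (1 / c.p) O y E A q z ^ m =
      (∑ o ∈ Fintype.piFinset (fun _ : Fin m => fam O y A q), ∑ z ∈ natT P U α Φ T, ∏ r, ∏ e ∈ E,
        (if P.G.Adj (z e.1) (y (o r) e.2) then 1 / c.p else 0)) / (O.card : ℝ) ^ m := by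
    rw [sum_comm, sum_div]
    exact sum_congr rfl fun z _ => h1 z
  rw [h2, div_le_iff₀ (by positivity)]
  calc ∑ o ∈ Fintype.piFinset (fun _ : Fin m => fam O y A q), ∑ z ∈ natT P U α Φ T, ∏ r, ∏ e ∈ E,
        (if P.G.Adj (z e.1) (y (o r) e.2) then 1 / c.p else 0)
      ≤ ∑ o ∈ Fintype.piFinset (fun _ : Fin m => fam O y A q), 64 ^ L * (natT P U α Φ T).card *
          ∏ r, ((1 / c.p) ^ T.card) ^ ((Rep y Aᶜ o r).card) := by
        refine sum_le_sum fun o ho => ?_
        rw [Fintype.mem_piFinset] at ho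
        exact Vm_row X T hT E hE A hEA m hm o fun r => fam_sub O y A q (ho r)
    _ = 64 ^ L * (natT P U α Φ T).card * ∑ o ∈ Fintype.piFinset (fun _ : Fin m => fam O y A q),
          ∏ r, ((1 / c.p) ^ T.card) ^ ((Rep y Aᶜ o r).card) := by
        rw [mul_sum]
    _ ≤ 64 ^ L * (natT P U α Φ T).card *
          (O.card * ((1 + m * g / B) ^ g * (1 / rho c L U.card B) ^ A.card)) ^ m :=
        mul_le_mul_of_nonneg_left hS (by positivity)
    _ = _ := by
        rw [mul_pow]; ring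

end Pool.Agent.H82.RL
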